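import Pool.Agent.H911R3.MS.Stmts

set_option autoImplicit false

open Set Filter Topology

namespace Pool.Agent.H911R3.MS

theorem stScheme (hS : StStep) : StScheme := by
  intro W _ _ _ A S f U L hN
  have hstep := hS W A S f U L hN
  -- the type of levels
  let P : (n : ℕ) → ((Fin n → Bool) → W × ℝ) → Prop := fun n B =>
    ∀ s, 0 < (B s).2 ∧ Metric.closedBall (B s).1 (B s).2 ⊆ U
  have hstep' : ∀ n (B : {B : (Fin n → Bool) → W × ℝ // P n B}),
      ∃ B' : {B' : (Fin (n + 1) → Bool) → W × ℝ // P (n + 1) B'}, Good S f U n B.1 B'.1 := by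
    rintro n ⟨B, hB⟩
    obtain ⟨B', hB'⟩ := hstep n B hB
    refine ⟨⟨B', fun s => ⟨hB'.pos s, ?_⟩⟩, hB'⟩
    exact (hB'.nest s).trans ((Metric.ball_subset_closedBall).trans (hB _).2)
  choose nxt hnxt using hstep'
  obtain ⟨x0, hx0⟩ := hN.nonempty
  obtain ⟨r0, hr0, hr0'⟩ := Metric.isOpen_iff.1 hN.isOpen x0 hx0
  have h0 : P 0 (fun _ => (x0, min 1 (r0 / 2))) := by
    intro s
    refine ⟨by simp [hr0], ?_⟩
    refine (Metric.closedBall_subset_ball ?_).trans hr0'
    exact lt_of_le_of_lt (min_le_right _ _) (by linarith)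
  let Lv : (n : ℕ) → {B : (Fin n → Bool) → W × ℝ // P n B} := fun n =>
    Nat.rec ⟨_, h0⟩ (fun n B => nxt n B) n
  have hLv : ∀ n, Good S f U n (Lv n).1 (Lv (n + 1)).1 := fun n => hnxt n (Lv n)
  refine ⟨{ B := fun s => (Lv s.1).1 s.2, pos := ?_, root := ?_, nest := ?_, small := ?_,
            diff := ?_, decid := ?_, pair := ?_ }⟩
  · rintro ⟨n, s⟩
    exact ((Lv n).2 s).1
  · intro b
    exact ((Lv 0).2 _).2
  · intro b n
    exact (hLv n).nest (fun i => b i)
  · intro b n
    cases n with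
    | zero =>
      show min 1 (r0 / 2) ≤ eps 0
      simp [eps]
    | succ n => exact (hLv n).small (fun i => b i)
  · intro b n v hv
    exact (hLv n).diff (fun i => b i) v hv
  · intro b n d hd j hj
    exact (hLv n).decid (fun i => b i) d hd j hj
  · intro b b' n hne j hj t
    refine (hLv n).pair (fun i => b i) (fun i => b' i) ?_ j hj t
    intro h
    apply hne
    unfold res
    rw [h]

theorem Scheme.bl_sub {W : Type} [NormedAddCommGroup W] [NormedSpace ℝ W] {A : Set T}
    {S : Sys W A} {f : W → ℝ} {U : Set W} (sc : Scheme S f U) (b : T) (n : ℕ) :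
    Metric.closedBall (sc.B (res b n)).1 (sc.B (res b n)).2 ⊆ U := by
  induction n with
  | zero => exact sc.root b
  | succ n ih => exact (sc.nest b n).trans (Metric.ball_subset_closedBall.trans ih)

theorem Scheme.lim {W : Type} [NormedAddCommGroup W] [NormedSpace ℝ W] [CompleteSpace W]
    {A : Set T} {S : Sys W A} {f : W → ℝ} {U : Set W} (sc : Scheme S f U) (b : T) :
    ∃ x ∈ U, ∀ n, x ∈ bl (sc.B (res b n)) := by
  have hnest : ∀ n, Metric.closedBall (sc.B (res b (n + 1))).1 (sc.B (res b (n + 1))).2 ⊆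
      Metric.closedBall (sc.B (res b n)).1 (sc.B (res b n)).2 := fun n =>
    (sc.nest b n).trans Metric.ball_subset_closedBall
  have hanti : Antitone fun n => Metric.closedBall (sc.B (res b n)).1 (sc.B (res b n)).2 :=
    antitone_nat_of_succ_le hnest
  have hdiam : Tendsto (fun n => Metric.diam (Metric.closedBall (sc.B (res b n)).1
      (sc.B (res b n)).2)) atTop (𝓝 0) := by
    have h1 : Tendsto (fun n : ℕ => 2 * (1 / ((n : ℝ) + 1))) atTop (𝓝 (2 * 0)) :=
      (tendsto_one_div_add_atTop_nhds_zero_nat).const_mul 2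
    rw [mul_zero] at h1
    refine squeeze_zero (fun n => Metric.diam_nonneg) (fun n => ?_) h1
    refine (Metric.diam_closedBall (sc.pos _).le).trans ?_
    have := sc.small b n
    unfold eps at this
    linarith
  have hne := Metric.nonempty_iInter_of_nonempty_biInter
    (s := fun n => Metric.closedBall (sc.B (res b n)).1 (sc.B (res b n)).2)
    (fun n => Metric.isClosed_closedBall) (fun n => Metric.isBounded_closedBall)
    (fun N => ?_) hdiam
  · obtain ⟨x, hx⟩ := hne
    rw [mem_iInter] at hx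
    exact ⟨x, sc.root b (hx 0), fun n => sc.nest b n (hx (n + 1))⟩
  · refine ⟨(sc.B (res b N)).1, ?_⟩
    simp only [mem_iInter]
    intro n hn
    exact hanti hn (Metric.mem_closedBall_self (sc.pos _).le)

theorem stMain (hPer : StPer) (hSub : StSub) (hC : StCtb) (hD : StDisj) (hA : StDirA)
    (hB : StDirB) : StMain := by
  intro W _ _ _ A hAV S f U L hN sc
  have hfin : ∀ b n, (⋃ j, Per S f (eps j) (bl (sc.B (res b n)))).Countable := by
    intro b n
    refine countable_iUnion fun j => Set.Finite.countable ?_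
    refine (hPer W A S f U L hN _ ?_ Metric.isOpen_ball ?_ (eps j) ?_).1
    · exact Metric.ball_subset_closedBall.trans (sc.bl_sub b n)
    · exact ⟨_, Metric.mem_ball_self (sc.pos _)⟩
    · unfold eps; positivity
  have hres : ∀ s : Nd, ∃ b : T, res b s.1 = s := by
    rintro ⟨n, s⟩
    refine ⟨fun i => if h : i < n then s ⟨i, h⟩ else false, ?_⟩
    unfold res
    simp
  have hp : ∀ s : Nd, ∃ p : ℕ → Option T, ∀ t,
      (∃ k, p k = some t) ↔ ∃ j, t ∈ Per S f (eps j) (bl (sc.B s)) := by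
    intro s
    obtain ⟨b, hb⟩ := hres s
    have hc := hfin b s.1
    rw [hb] at hc
    rcases (⋃ j, Per S f (eps j) (bl (sc.B s))).eq_empty_or_nonempty with h | h
    · refine ⟨fun _ => none, fun t => ?_⟩
      rw [← mem_iUnion, h]
      simp
    · obtain ⟨q, hq⟩ := hc.exists_eq_range h
      refine ⟨fun k => some (q k), fun t => ?_⟩
      rw [← mem_iUnion, hq]
      simp
  choose p hp using hp
  obtain ⟨b, hb⟩ := hAV _ p (fun b => hC W A S f U L hN sc p b)
    (hD W A S f U L hN sc p (fun b n j t ht => (hp _ t).2 ⟨j, ht⟩))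
  obtain ⟨x, hxU, hx⟩ := sc.lim b
  obtain ⟨hw, hg⟩ := hA W A S f U L hN sc b x hx
  have hga : ∀ a ∈ A, SD f x (S.g a) := by
    intro a ha
    have hnot : a ∉ Psi (fun s j => {c | Light S f (bl (sc.B s)) (eps j) c}) p b :=
      fun h => Set.disjoint_left.1 hb h ha
    by_cases h2 : ∃ n k, p (res b n) k = some a
    · obtain ⟨n, k, hk⟩ := h2
      obtain ⟨j, hj⟩ := (hp _ a).1 ⟨k, hk⟩
      exact hg a ha ⟨j, n, hj⟩
    · refine hB W A S f U L hN x hxU hw a ha fun j => ?_
      by_contra h3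
      apply hnot
      refine ⟨⟨j, fun n m hm => h3 ⟨_, Metric.isOpen_ball, hx n, m, hm⟩⟩, ?_⟩
      intro n k hk
      exact h2 ⟨n, k, hk⟩
  refine ⟨x, hxU, fun h => ?_⟩
  refine hSub W f U L hN x hxU (range S.w ∪ S.g '' A) ?_ h ?_
  · rintro v (⟨k, rfl⟩ | ⟨a, ha, rfl⟩)
    · exact hw k
    · exact hga a ha
  · rw [S.dense_span.closure_eq]; trivial

end Pool.Agent.H911R3.MS
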