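import Pool.Agent.H911R3.MS.Asm

set_option autoImplicit false

open Set Filter Topology

namespace Pool.Agent.H911R3.MS

theorem convexOn_comp_lin {E W : Type} [AddCommGroup E] [Module ℝ E] [AddCommGroup W]
    [Module ℝ W] {D : Set E} {f : E → ℝ} (hf : ConvexOn ℝ D f) (φ : W →ₗ[ℝ] E) :
    ConvexOn ℝ (φ ⁻¹' D) (fun w => f (φ w)) :=
  hf.comp_linearMap φ

theorem dense_gateaux (hSch : StScheme) (hMain : StMain) (hGat : StGat) (hLip : StLip)
    (hModel : StModel) (A : Set T) (hAV : AV A)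
    (Z F : Type) [NormedAddCommGroup Z] [NormedSpace ℝ Z] [CompleteSpace Z]
    [TopologicalSpace.SeparableSpace Z] [NormedAddCommGroup F] [NormedSpace ℝ F]
    (J : Z →L[ℝ] F) (hJ : Function.Surjective J) (D : Set (XA A × F)) (hD : IsOpen D)
    (f : XA A × F → ℝ) (hc : ContinuousOn f D) (hf : ConvexOn ℝ D f) :
    D ⊆ closure {x | x ∈ D ∧ GateauxAt f x} := by
  let φ : (XA A × Z) →L[ℝ] (XA A × F) := (ContinuousLinearMap.id ℝ (XA A)).prodMap J
  have hφ : Function.Surjective φ := by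
    rintro ⟨a, y⟩
    obtain ⟨z, hz⟩ := hJ y
    exact ⟨(a, z), by simp [φ, hz]⟩
  obtain ⟨S⟩ := hModel A Z
  intro x hx
  rw [mem_closure_iff]
  intro O hO hxO
  have hV : IsOpen (φ ⁻¹' (O ∩ D)) := (hO.inter hD).preimage φ.continuous
  have hVne : (φ ⁻¹' (O ∩ D)).Nonempty := by
    obtain ⟨w, hw⟩ := hφ x
    exact ⟨w, by rw [mem_preimage, hw]; exact ⟨hxO, hx⟩⟩
  have hc' : ContinuousOn (fun w => f (φ w)) (φ ⁻¹' D) :=
    hc.comp φ.continuous.continuousOn (fun w hw => hw)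
  obtain ⟨U, L, hUV, hN⟩ := hLip (XA A × Z) (φ ⁻¹' D) (hD.preimage φ.continuous)
    (fun w => f (φ w)) hc' (convexOn_comp_lin hf (φ : (XA A × Z) →ₗ[ℝ] (XA A × F)))
    (φ ⁻¹' (O ∩ D)) (preimage_mono inter_subset_right) hV hVne
  obtain ⟨sc⟩ := hSch (XA A × Z) A S _ U L hN
  obtain ⟨w, hwU, hw⟩ := hMain (XA A × Z) A hAV S _ U L hN sc
  have hwO := hUV hwU
  refine ⟨φ w, hwO.1, hwO.2, ?_⟩
  refine hGat (XA A × F) D hD f hc hf (φ w) hwO.2 fun h => ?_
  obtain ⟨k, rfl⟩ := hφ h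
  intro ε hε
  obtain ⟨δ, hδ, h⟩ := hw k ε hε
  refine ⟨δ, hδ, fun t ht ht' => ?_⟩
  have := h t ht ht'
  simpa using this

theorem final (hL : StL) (hSch : StScheme) (hMain : StMain) (hGat : StGat) (hLip : StLip)
    (hModel : StModel) (hNot : StNotWA) (hTr : StTrick) (hFA : StFA) (hFB : StFB) :
    ∃ (E : Type) (_ : NormedAddCommGroup E) (_ : NormedSpace ℝ E)
      (F : Type) (_ : NormedAddCommGroup F) (_ : NormedSpace ℝ F),
      CompleteSpace E ∧ WeakAsplund (E × F) ∧ ¬ WeakAsplund E := by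
  obtain ⟨A, hAV, hPM⟩ := hL
  refine ⟨XA A, inferInstance, inferInstance, F1, inferInstance, inferInstance, inferInstance,
    ?_, hNot A hPM⟩
  obtain ⟨hsep, J, hJ⟩ := hFA
  obtain ⟨K, hK1, hK2, hK3, hK4⟩ := hFB
  intro D hD _ _ f hc hf
  have hdense := dense_gateaux hSch hMain hGat hLip hModel A hAV Z1 F1 J hJ D hD f hc hf
  obtain ⟨G, hG1, hG2, hG3⟩ := hTr (XA A × F1) (fun n => univ ×ˢ K n)
    (fun n => isClosed_univ.prod (hK1 n))
    (fun n => by rw [interior_prod_eq, hK2 n, prod_empty])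
    (fun m n hmn => prod_mono_right (hK3 hmn))
    (by rw [← prod_iUnion, hK4, univ_prod_univ])
    D {x | x ∈ D ∧ GateauxAt f x} hD (fun x hx => hx.1) hdense
  exact ⟨G, fun x hx => (hG1 hx).1, hG2, hG3, fun x hx => (hG1 hx).2⟩

end Pool.Agent.H911R3.MS
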