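import Mathlib

/-!
# MP_17c4bf_an, Q2: a Banach space `X_A` and a normed space `F` with `X_A × F` weak Asplund and
`X_A` not weak Asplund.  Definitions and statements of all the tasks.
-/

set_option autoImplicit false

open Set Filter Topology

namespace Pool.Agent.H911R3.MS

/-- The Cantor space. -/
abbrev T : Type := ℕ → Bool

/-- Finite 0-1 words; they name the cylinders of `T`. -/
abbrev Nd : Type := Σ n : ℕ, (Fin n → Bool)

/-- The initial segment of length `n`. -/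
def res (t : T) (n : ℕ) : Nd := ⟨n, fun i => t i⟩

/-- The exceptional set coded by `Λ` and `p` along the branch `b`. -/
def Psi (Λ : Nd → ℕ → Set Nd) (p : Nd → ℕ → Option T) (b : T) : Set T :=
  {t | (∃ j, ∀ n m, res t m ∉ Λ (res b n) j) ∧ ∀ n k, p (res b n) k ≠ some t}

/-- Avoidance property of `A`. -/
def AV (A : Set T) : Prop :=
  ∀ (Λ : Nd → ℕ → Set Nd) (p : Nd → ℕ → Option T),
    (∀ b, (Psi Λ p b).Countable) →
    (∀ b b', b ≠ b' → Disjoint (Psi Λ p b) (Psi Λ p b')) →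
    ∃ b, Disjoint (Psi Λ p b) A

/-- The branch coded by `κ` along `b`. -/
def br (κ : Nd → Bool) (b : T) : T := fun i => κ (res b (i + 1))

/-- `A` meets all coded perfect sets. -/
def PM (A : Set T) : Prop := ∀ κ : Nd → Bool, Function.Injective (br κ) → ∃ b, br κ b ∈ A

/-- Transfinite choice. -/
def StTR : Prop :=
  ∀ I : Type, Cardinal.mk I ≤ Cardinal.continuum → ∀ C : I → T → I → T → Prop,
    (∀ i j b b', C i b j b' → C j b' i b) → (∀ i j b', {b | C i b j b'}.Countable) →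
    ∃ F : I → T, ∀ i j, i ≠ j → ¬ C i (F i) j (F j)

/-- Existence of `A`. -/
def StL : Prop := ∃ A : Set T, AV A ∧ PM A

section
variable {W : Type} [NormedAddCommGroup W] [NormedSpace ℝ W]

/-- The symmetric second difference in direction `h` is `o(t)`. -/
def SD (f : W → ℝ) (x h : W) : Prop :=
  ∀ ε : ℝ, 0 < ε → ∃ δ : ℝ, 0 < δ ∧ ∀ t : ℝ, 0 < t → t < δ →
    f (x + t • h) + f (x - t • h) - 2 * f x ≤ ε * t

/-- Standing assumptions on `f` on a small open convex set `U`. -/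
structure Nice (f : W → ℝ) (U : Set W) (L : ℝ) : Prop where
  isOpen : IsOpen U
  nonempty : U.Nonempty
  conv : ConvexOn ℝ U f
  pos : 0 < L
  lip : ∀ x ∈ U, ∀ y ∈ U, |f x - f y| ≤ L * ‖x - y‖

end

/-- The abstract structure of the space. -/
structure Sys (W : Type) [NormedAddCommGroup W] [NormedSpace ℝ W] (A : Set T) where
  w : ℕ → W
  g : T → W
  r : Nd → W
  Q : Nd → Set W
  r_mem : ∀ c, r c ∈ Submodule.span ℝ (range w)
  g_sub : ∀ a ∈ A, ∀ n, g a - r (res a n) ∈ Q (res a n)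
  Q_neg : ∀ c, ∀ h ∈ Q c, -h ∈ Q c
  Q_mono : ∀ t n, Q (res t (n + 1)) ⊆ Q (res t n)
  Q_sum : ∀ (n : ℕ) (S : Finset (Fin n → Bool)) (h : (Fin n → Bool) → W),
    (∀ c ∈ S, h c ∈ Q ⟨n, c⟩) → ‖∑ c ∈ S, h c‖ ≤ 1
  dense_span : Dense (Submodule.span ℝ (range w ∪ g '' A) : Set W)

section
variable {W : Type} [NormedAddCommGroup W] [NormedSpace ℝ W] {A : Set T}

/-- `f` grows slowly on `V` in the directions of `Q c`. -/
def Light (S : Sys W A) (f : W → ℝ) (V : Set W) (ε : ℝ) (c : Nd) : Prop :=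
  ∀ x ∈ V, ∀ h ∈ S.Q c, ∀ t : ℝ, 0 < t → x + t • h ∈ V → f (x + t • h) - f x ≤ ε * t

/-- `c` is light on no nonempty open subset of `V`. -/
def Rob (S : Sys W A) (f : W → ℝ) (V : Set W) (ε : ℝ) (c : Nd) : Prop :=
  ∀ V' : Set W, V' ⊆ V → IsOpen V' → V'.Nonempty → ¬ Light S f V' ε c

/-- Persistent points. -/
def Per (S : Sys W A) (f : W → ℝ) (ε : ℝ) (V : Set W) : Set T :=
  {t | ∀ n, Rob S f V ε (res t n)}

end

/-- At most `L / ε` nodes of a level are robust. -/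
def StBound : Prop :=
  ∀ (W : Type) [NormedAddCommGroup W] [NormedSpace ℝ W] (A : Set T) (S : Sys W A)
    (f : W → ℝ) (U : Set W) (L : ℝ), Nice f U L →
    ∀ V : Set W, V ⊆ U → IsOpen V → V.Nonempty → ∀ ε : ℝ, 0 < ε →
      ∀ (n : ℕ) (K : Finset (Fin n → Bool)), (∀ c ∈ K, Rob S f V ε ⟨n, c⟩) →
        (K.card : ℝ) * ε ≤ L

/-- There are at most `L / ε` persistent points. -/
def StPer : Prop :=
  ∀ (W : Type) [NormedAddCommGroup W] [NormedSpace ℝ W] (A : Set T) (S : Sys W A)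
    (f : W → ℝ) (U : Set W) (L : ℝ), Nice f U L →
    ∀ V : Set W, V ⊆ U → IsOpen V → V.Nonempty → ∀ ε : ℝ, 0 < ε →
      (Per S f ε V).Finite ∧ ((Per S f ε V).ncard : ℝ) * ε ≤ L

/-- Small second differences on a smaller open set. -/
def StDiff : Prop :=
  ∀ (W : Type) [NormedAddCommGroup W] [NormedSpace ℝ W]
    (f : W → ℝ) (U : Set W) (L : ℝ), Nice f U L →
    ∀ V : Set W, V ⊆ U → IsOpen V → V.Nonempty → ∀ (v : W) (η : ℝ), 0 < η →
      ∃ V' : Set W, V' ⊆ V ∧ IsOpen V' ∧ V'.Nonempty ∧ ∃ t : ℝ, 0 < t ∧ ∀ y ∈ V',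
        y + t • v ∈ U ∧ y - t • v ∈ U ∧ f (y + t • v) + f (y - t • v) - 2 * f y < η * t

/-- A point near which every node is decided. -/
def StBaire : Prop :=
  ∀ (W : Type) [NormedAddCommGroup W] [NormedSpace ℝ W] [CompleteSpace W] (A : Set T)
    (S : Sys W A) (f : W → ℝ) (V : Set W), IsOpen V → V.Nonempty → ∀ ε : ℝ,
      ∃ x ∈ V, ∀ c : Nd, ∃ O : Set W, IsOpen O ∧ x ∈ O ∧ O ⊆ V ∧
        (Light S f O ε c ∨ Rob S f O ε c)

/-- Stabilising the persistent points. -/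
def StStable : Prop :=
  ∀ (W : Type) [NormedAddCommGroup W] [NormedSpace ℝ W] (A : Set T) (S : Sys W A)
    (f : W → ℝ) (U : Set W) (L : ℝ), Nice f U L →
    ∀ V : Set W, V ⊆ U → IsOpen V → V.Nonempty → ∀ ε : ℝ, 0 < ε →
      ∃ V' : Set W, V' ⊆ V ∧ IsOpen V' ∧ V'.Nonempty ∧ ∀ V'' : Set W, V'' ⊆ V' → IsOpen V'' →
        V''.Nonempty → Per S f ε V'' = Per S f ε V'

/-- Separation of two open sets. -/
def StPair : Prop :=
  ∀ (W : Type) [NormedAddCommGroup W] [NormedSpace ℝ W] [CompleteSpace W] (A : Set T)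
    (S : Sys W A) (f : W → ℝ) (U : Set W) (L : ℝ), Nice f U L →
    ∀ V V' : Set W, V ⊆ U → IsOpen V → V.Nonempty → V' ⊆ U → IsOpen V' → V'.Nonempty →
    ∀ ε : ℝ, 0 < ε → ∀ m : ℕ,
      ∃ V₁ V₁' : Set W, V₁ ⊆ V ∧ IsOpen V₁ ∧ V₁.Nonempty ∧ V₁' ⊆ V' ∧ IsOpen V₁' ∧
        V₁'.Nonempty ∧ ∀ t : T,
          (∃ n, Light S f V₁ ε (res t n) ∨ Light S f V₁' ε (res t n)) ∨
          ∃ p ∈ Per S f ε V₁', res t m = res p m

/-- `1 / (j + 1)` -/
noncomputable def eps (j : ℕ) : ℝ := 1 / ((j : ℝ) + 1)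

/-- The open ball coded by a centre and a radius. -/
abbrev bl {W : Type} [NormedAddCommGroup W] (q : W × ℝ) : Set W := Metric.ball q.1 q.2

/-- `B'` (the balls of level `n + 1`) is a good refinement of `B` (the balls of level `n`). -/
structure Good {W : Type} [NormedAddCommGroup W] [NormedSpace ℝ W] {A : Set T}
    (S : Sys W A) (f : W → ℝ) (U : Set W) (n : ℕ) (B : (Fin n → Bool) → W × ℝ)
    (B' : (Fin (n + 1) → Bool) → W × ℝ) : Prop where
  pos : ∀ s, 0 < (B' s).2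
  small : ∀ s, (B' s).2 ≤ eps (n + 1)
  nest : ∀ s : Fin (n + 1) → Bool, Metric.closedBall (B' s).1 (B' s).2 ⊆
    bl (B fun i => s i.castSucc)
  diff : ∀ (s : Fin (n + 1) → Bool) (v : W),
    ((∃ k ≤ n, v = S.w k) ∨ ∃ p ∈ A, (∃ j ≤ n,
      p ∈ Per S f (eps j) (bl (B fun i => s i.castSucc))) ∧ v = S.g p) →
    ∃ t : ℝ, 0 < t ∧ ∀ y ∈ bl (B' s),
        y + t • v ∈ U ∧ y - t • v ∈ U ∧ f (y + t • v) + f (y - t • v) - 2 * f y < eps n * t
  decid : ∀ (s : Fin (n + 1) → Bool) (d : Nd), d.1 ≤ n → ∀ j ≤ n,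
    Light S f (bl (B' s)) (eps j) d ∨ Rob S f (bl (B' s)) (eps j) d
  pair : ∀ s s' : Fin (n + 1) → Bool, s ≠ s' → ∀ j ≤ n, ∀ t : T,
    (∃ m, Light S f (bl (B' s)) (eps j) (res t m) ∨ Light S f (bl (B' s')) (eps j) (res t m)) ∨
    ∃ p ∈ Per S f (eps j) (bl (B' s')), res t n = res p n

/-- One step of the fusion. -/
def StStep : Prop :=
  ∀ (W : Type) [NormedAddCommGroup W] [NormedSpace ℝ W] [CompleteSpace W] (A : Set T)
    (S : Sys W A) (f : W → ℝ) (U : Set W) (L : ℝ), Nice f U L →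
    ∀ (n : ℕ) (B : (Fin n → Bool) → W × ℝ),
      (∀ s, 0 < (B s).2 ∧ Metric.closedBall (B s).1 (B s).2 ⊆ U) →
      ∃ B' : (Fin (n + 1) → Bool) → W × ℝ, Good S f U n B B'

/-- The fusion scheme. -/
structure Scheme {W : Type} [NormedAddCommGroup W] [NormedSpace ℝ W] {A : Set T}
    (S : Sys W A) (f : W → ℝ) (U : Set W) where
  B : Nd → W × ℝ
  pos : ∀ s, 0 < (B s).2
  root : ∀ b : T, Metric.closedBall (B (res b 0)).1 (B (res b 0)).2 ⊆ U
  nest : ∀ (b : T) (n : ℕ), Metric.closedBall (B (res b (n + 1))).1 (B (res b (n + 1))).2 ⊆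
    bl (B (res b n))
  small : ∀ (b : T) (n : ℕ), (B (res b n)).2 ≤ eps n
  diff : ∀ (b : T) (n : ℕ) (v : W),
    ((∃ k ≤ n, v = S.w k) ∨ ∃ p ∈ A, (∃ j ≤ n,
      p ∈ Per S f (eps j) (bl (B (res b n)))) ∧ v = S.g p) →
    ∃ t : ℝ, 0 < t ∧ ∀ y ∈ bl (B (res b (n + 1))),
        y + t • v ∈ U ∧ y - t • v ∈ U ∧ f (y + t • v) + f (y - t • v) - 2 * f y < eps n * t
  decid : ∀ (b : T) (n : ℕ) (d : Nd), d.1 ≤ n → ∀ j ≤ n,
    Light S f (bl (B (res b (n + 1)))) (eps j) d ∨ Rob S f (bl (B (res b (n + 1)))) (eps j) d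
  pair : ∀ (b b' : T) (n : ℕ), res b (n + 1) ≠ res b' (n + 1) → ∀ j ≤ n, ∀ t : T,
    (∃ m, Light S f (bl (B (res b (n + 1)))) (eps j) (res t m) ∨
      Light S f (bl (B (res b' (n + 1)))) (eps j) (res t m)) ∨
    ∃ p ∈ Per S f (eps j) (bl (B (res b' (n + 1)))), res t n = res p n

/-- The scheme exists. -/
def StScheme : Prop :=
  ∀ (W : Type) [NormedAddCommGroup W] [NormedSpace ℝ W] [CompleteSpace W] (A : Set T)
    (S : Sys W A) (f : W → ℝ) (U : Set W) (L : ℝ), Nice f U L → Nonempty (Scheme S f U)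

/-- Directions of smoothness form a closed subspace. -/
def StSub : Prop :=
  ∀ (W : Type) [NormedAddCommGroup W] [NormedSpace ℝ W]
    (f : W → ℝ) (U : Set W) (L : ℝ), Nice f U L → ∀ x ∈ U, ∀ s : Set W,
      (∀ h ∈ s, SD f x h) → ∀ h ∈ closure (Submodule.span ℝ s : Set W), SD f x h

/-- The exceptional sets of a scheme are countable. -/
def StCtb : Prop :=
  ∀ (W : Type) [NormedAddCommGroup W] [NormedSpace ℝ W] (A : Set T)
    (S : Sys W A) (f : W → ℝ) (U : Set W) (L : ℝ), Nice f U L → ∀ sc : Scheme S f U,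
    ∀ (p : Nd → ℕ → Option T) (b : T),
      (Psi (fun s j => {c | Light S f (bl (sc.B s)) (eps j) c}) p b).Countable

/-- The exceptional sets of a scheme are pairwise disjoint. -/
def StDisj : Prop :=
  ∀ (W : Type) [NormedAddCommGroup W] [NormedSpace ℝ W] (A : Set T)
    (S : Sys W A) (f : W → ℝ) (U : Set W) (L : ℝ), Nice f U L → ∀ sc : Scheme S f U,
    ∀ p : Nd → ℕ → Option T,
      (∀ (b : T) (n : ℕ) (j : ℕ), ∀ t ∈ Per S f (eps j) (bl (sc.B (res b n))),
        ∃ k, p (res b n) k = some t) →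
      ∀ b b' : T, b ≠ b' →
        Disjoint (Psi (fun s j => {c | Light S f (bl (sc.B s)) (eps j) c}) p b)
          (Psi (fun s j => {c | Light S f (bl (sc.B s)) (eps j) c}) p b')

/-- Smoothness at the limit point in the directions treated by the scheme. -/
def StDirA : Prop :=
  ∀ (W : Type) [NormedAddCommGroup W] [NormedSpace ℝ W] (A : Set T)
    (S : Sys W A) (f : W → ℝ) (U : Set W) (L : ℝ), Nice f U L → ∀ sc : Scheme S f U,
    ∀ (b : T) (x : W), (∀ n, x ∈ bl (sc.B (res b n))) →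
      (∀ k, SD f x (S.w k)) ∧
      ∀ a ∈ A, (∃ j n, a ∈ Per S f (eps j) (bl (sc.B (res b n)))) → SD f x (S.g a)

/-- Smoothness in the directions which are light near `x`. -/
def StDirB : Prop :=
  ∀ (W : Type) [NormedAddCommGroup W] [NormedSpace ℝ W] (A : Set T)
    (S : Sys W A) (f : W → ℝ) (U : Set W) (L : ℝ), Nice f U L → ∀ x ∈ U,
    (∀ k, SD f x (S.w k)) → ∀ a ∈ A,
    (∀ j, ∃ V : Set W, IsOpen V ∧ x ∈ V ∧ ∃ m, Light S f V (eps j) (res a m)) → SD f x (S.g a)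

/-- A point of smoothness in all directions. -/
def StMain : Prop :=
  ∀ (W : Type) [NormedAddCommGroup W] [NormedSpace ℝ W] [CompleteSpace W] (A : Set T),
    AV A → ∀ (S : Sys W A) (f : W → ℝ) (U : Set W) (L : ℝ), Nice f U L →
    ∀ _ : Scheme S f U, ∃ x ∈ U, ∀ h, SD f x h

/-- Gateaux differentiability at `x`. -/
def GateauxAt {E : Type} [AddCommGroup E] [Module ℝ E] [TopologicalSpace E]
    (f : E → ℝ) (x : E) : Prop :=
  ∃ φ : E →L[ℝ] ℝ, ∀ h : E, Tendsto (fun t : ℝ => (f (x + t • h) - f x) / t) (𝓝[≠] 0) (𝓝 (φ h))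

/-- Weak Asplund spaces. -/
def WeakAsplund (E : Type) [AddCommGroup E] [Module ℝ E] [TopologicalSpace E] : Prop :=
  ∀ D : Set E, IsOpen D → D.Nonempty → Convex ℝ D → ∀ f : E → ℝ, ContinuousOn f D →
    ConvexOn ℝ D f → ∃ G : Set E, G ⊆ D ∧ IsGδ G ∧ D ⊆ closure G ∧ ∀ x ∈ G, GateauxAt f x

/-- Smooth in all directions implies Gateaux differentiable. -/
def StGat : Prop :=
  ∀ (W : Type) [NormedAddCommGroup W] [NormedSpace ℝ W] (D : Set W), IsOpen D →
    ∀ f : W → ℝ, ContinuousOn f D → ConvexOn ℝ D f → ∀ x ∈ D, (∀ h, SD f x h) → GateauxAt f x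

/-- Continuous convex functions are locally Lipschitz. -/
def StLip : Prop :=
  ∀ (W : Type) [NormedAddCommGroup W] [NormedSpace ℝ W] (D : Set W), IsOpen D →
    ∀ f : W → ℝ, ContinuousOn f D → ConvexOn ℝ D f → ∀ V : Set W, V ⊆ D → IsOpen V →
      V.Nonempty → ∃ (U : Set W) (L : ℝ), U ⊆ V ∧ Nice f U L

/-! ### The concrete space -/

/-- Bounded functions on `T` with the sup norm. -/
abbrev LT : Type := lp (fun _ : T => ℝ) ⊤

/-- A function bounded by one as an element of `LT`. -/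
noncomputable def mk1 (u : T → ℝ) (h : ∀ t, |u t| ≤ 1) : LT :=
  ⟨u, memℓp_infty ⟨1, by rintro _ ⟨t, rfl⟩; simpa using h t⟩⟩

/-- indicator of a cylinder -/
noncomputable def cylF (c : Nd) (t : T) : ℝ :=
  open Classical in if res t c.1 = c then 1 else 0

/-- `1` at the points `t ≠ a` whose first difference from `a` has even index -/
noncomputable def gF (a t : T) : ℝ :=
  open Classical in if t ≠ a ∧ Even (PiNat.firstDiff a t) then 1 else 0

theorem cylF_le (c : Nd) (t : T) : |cylF c t| ≤ 1 := by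
  unfold cylF; split_ifs <;> simp

theorem gF_le (a t : T) : |gF a t| ≤ 1 := by
  unfold gF; split_ifs <;> simp

/-- indicator of a cylinder as an element of `LT` -/
noncomputable def cylE (c : Nd) : LT := mk1 (cylF c) (cylF_le c)

/-- `gF a` as an element of `LT` -/
noncomputable def gE (a : T) : LT := mk1 (gF a) (gF_le a)

@[simp] theorem cylE_apply (c : Nd) (t : T) : (cylE c : LT) t = cylF c t := rfl

@[simp] theorem gE_apply (a t : T) : (gE a : LT) t = gF a t := rfl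

/-- The space `X_A`: closed span of the indicators of cylinders and of the `gE a`, `a ∈ A`. -/
noncomputable def XA (A : Set T) : Submodule ℝ LT :=
  (Submodule.span ℝ (range cylE ∪ gE '' A)).topologicalClosure

instance instCompleteXA (A : Set T) : CompleteSpace (XA A) := by
  unfold XA; infer_instance

/-- The approximations of `gE a` by simple functions. -/
def StG : Prop :=
  ∃ r : Nd → LT, (∀ c, r c ∈ Submodule.span ℝ (range cylE)) ∧
    ∀ (a : T) (n : ℕ) (t : T), |gF a t - (r (res a n) : LT) t| ≤ cylF (res a n) t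

/-- `X_A × Z` fits the abstract scheme. -/
def StModel : Prop :=
  ∀ (A : Set T) (Z : Type) [NormedAddCommGroup Z] [NormedSpace ℝ Z]
    [TopologicalSpace.SeparableSpace Z], Nonempty (Sys (XA A × Z) A)

/-- Every `y ∈ O` takes its supremum over `T` already on the cylinder of `τ` of length `ℓ`. -/
def Dom (A : Set T) (O : Set (XA A)) (τ : T) (ℓ : ℕ) : Prop :=
  ∀ y ∈ O, ∀ t : T, ∀ δ : ℝ, 0 < δ → ∃ t' : T, (∀ i < ℓ, t' i = τ i) ∧
    (y : LT) t ≤ (y : LT) t' + δ

/-- Every `y ∈ O` has oscillation at most `η` on the cylinder of `τ` of length `ℓ`. -/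
def Osc (A : Set T) (O : Set (XA A)) (τ : T) (ℓ : ℕ) (η : ℝ) : Prop :=
  ∀ y ∈ O, ∀ t t' : T, (∀ i < ℓ, t i = τ i) → (∀ i < ℓ, t' i = τ i) →
    |(y : LT) t - (y : LT) t'| ≤ η

/-- One step of the Cantor scheme in `X_A`. -/
def StStepN : Prop :=
  ∀ (A : Set T) (O : Set (XA A)) (τ : T) (ℓ : ℕ), IsOpen O → O.Nonempty → Dom A O τ ℓ →
    ∀ η : ℝ, 0 < η → ∃ (O' : Bool → Set (XA A)) (τ' : Bool → T) (ℓ' : ℕ), ℓ < ℓ' ∧
      (∃ i < ℓ', τ' false i ≠ τ' true i) ∧ ∀ β, (∀ i < ℓ, τ' β i = τ i) ∧ O' β ⊆ O ∧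
        IsOpen (O' β) ∧ (O' β).Nonempty ∧ Dom A (O' β) (τ' β) ℓ' ∧ Osc A (O' β) (τ' β) ℓ' η

/-- The Cantor scheme in `X_A`. -/
def StFusion : Prop :=
  ∀ (A : Set T) (Un : ℕ → Set (XA A)), (∀ n, IsOpen (Un n)) → (∀ n, Dense (Un n)) →
    ∃ κ : Nd → Bool, Function.Injective (br κ) ∧ ∀ b : T, ∃ x : XA A, (∀ n, x ∈ Un n) ∧
      (∀ t, (x : LT) t ≤ (x : LT) (br κ b)) ∧
      ∀ η : ℝ, 0 < η → ∃ ℓ : ℕ, ∀ t : T, (∀ i < ℓ, t i = br κ b i) →
        |(x : LT) t - (x : LT) (br κ b)| ≤ η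

/-- `X_A` is not weak Asplund. -/
def StNotWA : Prop :=
  ∀ A : Set T, PM A → ¬ WeakAsplund (XA A)

/-- In a meagre metric space dense sets contain dense `Gδ` sets. -/
def StTrick : Prop :=
  ∀ (Y : Type) [MetricSpace Y] (M : ℕ → Set Y), (∀ n, IsClosed (M n)) →
    (∀ n, interior (M n) = ∅) → Monotone M → (⋃ n, M n) = univ →
    ∀ D P : Set Y, IsOpen D → P ⊆ D → D ⊆ closure P → ∃ G : Set Y, G ⊆ P ∧ IsGδ G ∧ D ⊆ closure G

/-- Absolutely summable sequences. -/
abbrev Z1 : Type := lp (fun _ : ℕ => ℝ) 1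

/-- The space `F`: absolutely summable sequences with the sup norm. -/
noncomputable def F1 : Submodule ℝ (lp (fun _ : ℕ => ℝ) ⊤) where
  carrier := {x | Summable fun n => |x n|}
  add_mem' := by
    intro a b ha hb
    refine Summable.of_nonneg_of_le (fun n => abs_nonneg _) (fun n => ?_) (ha.add hb)
    simpa using abs_add_le (a n) (b n)
  zero_mem' := by simp [summable_zero]
  smul_mem' := by
    intro c x hx
    simpa [abs_mul] using hx.mul_left |c|

/-- A continuous linear surjection `ℓ¹ → F` from a separable Banach space. -/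
def StFA : Prop :=
  TopologicalSpace.SeparableSpace Z1 ∧ ∃ J : Z1 →L[ℝ] F1, Function.Surjective J

/-- `F` is meagre. -/
def StFB : Prop :=
  ∃ K : ℕ → Set F1, (∀ n, IsClosed (K n)) ∧ (∀ n, interior (K n) = ∅) ∧ Monotone K ∧
    (⋃ n, K n) = univ

/-! ### The tasks -/

def Task01 : Prop := StTR
def Task02 : Prop := StTR → StL
def Task03 : Prop := StBound
def Task04 : Prop := StBound → StPer
def Task05 : Prop := StDiff
def Task06 : Prop := StBaire
def Task07 : Prop := StPer → StStable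
def Task08 : Prop := StBound → StPer → StBaire → StStable → StPair
def Task09 : Prop := StPer → StDiff → StPair → StStep
def Task10 : Prop := StSub
def Task11 : Prop := StBound → StCtb
def Task12 : Prop := StPer → StDisj
def Task13 : Prop := StDirA
def Task14 : Prop := StSub → StDirB
def Task15 : Prop := StGat
def Task16 : Prop := StLip
def Task17 : Prop := StG
def Task18 : Prop := StG → StModel
def Task19 : Prop := StStepN
def Task20 : Prop := StStepN → StFusion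
def Task21 : Prop := StFusion → StNotWA
def Task22 : Prop := StTrick
def Task23 : Prop := StFA
def Task24 : Prop := StFB

end Pool.Agent.H911R3.MS
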