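import Pool.Agent.H911R3.MS.Stmts

set_option autoImplicit false

namespace Pool.Agent.H911R3.MS.T01

open Pool.Agent.H911R3.MS

theorem task01 : Task01 := by
  intro I hI C hsymm hcount
  classical
  obtain ⟨r, wo, hr⟩ := Cardinal.exists_ord_eq I
  have hseg : ∀ i, Cardinal.mk {j // r j i} < Cardinal.continuum := by
    intro i
    have h1 := Cardinal.card_typein_lt (r := r) i hr
    have h2 : Ordinal.card (Ordinal.typein r i) = Cardinal.mk {j // r j i} := rfl
    rw [h2] at h1
    exact lt_of_lt_of_le h1 hI
  let G : (i : I) → ((j : I) → r j i → T) → T := fun i g =>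
    if h : ∃ b, ∀ (j : I) (hj : r j i), ¬ C i b j (g j hj) then h.choose else fun _ => false
  let F : I → T := wo.wf.fix G
  have hF : ∀ i, F i = G i (fun j _ => F j) := fun i => WellFounded.fix_eq _ _ _
  have key : ∀ i j, r j i → ¬ C i (F i) j (F j) := by
    intro i
    have hex : ∃ b, ∀ (j : I) (_ : r j i), ¬ C i b j (F j) := by
      by_contra hcon
      push Not at hcon
      have hU : (⋃ j : {j // r j i}, {b | C i b j (F j)}) = (Set.univ : Set T) := by
        apply Set.eq_univ_of_forall
        intro b
        obtain ⟨j, hj, hb⟩ := hcon b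
        exact Set.mem_iUnion.2 ⟨⟨j, hj⟩, hb⟩
      have h1 : Cardinal.mk (⋃ j : {j // r j i}, {b | C i b j (F j)}) < Cardinal.continuum := by
        refine lt_of_le_of_lt (Cardinal.mk_iUnion_le_sum_mk) ?_
        refine lt_of_le_of_lt (Cardinal.sum_le_sum _ (fun _ => Cardinal.aleph0) ?_) ?_
        · intro j
          exact (hcount i j (F j)).le_aleph0
        · rw [Cardinal.sum_const']
          exact Cardinal.mul_lt_of_lt Cardinal.aleph0_le_continuum (hseg i)
            Cardinal.aleph0_lt_continuum
      rw [hU, Cardinal.mk_univ] at h1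
      have h2 : Cardinal.mk T = Cardinal.continuum := by
        unfold T
        simp
      rw [h2] at h1
      exact lt_irrefl _ h1
    intro j hj
    rw [hF i]
    have : G i (fun j _ => F j) = hex.choose := by
      simp only [G]
      rw [dif_pos hex]
    rw [this]
    exact hex.choose_spec j hj
  refine ⟨F, fun i j hij => ?_⟩
  rcases trichotomous_of r i j with h | h | h
  · intro hc
    exact key j i h (hsymm _ _ _ _ hc)
  · exact absurd h hij
  · exact key i j h

end Pool.Agent.H911R3.MS.T01
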