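import Pool.Agent.H911R3.MS.Stmts

set_option autoImplicit false

open Set Filter Topology

namespace Pool.Agent.H911R3.MS.T02

open Pool.Agent.H911R3.MS Cardinal

lemma fn_le {α β : Type} [Countable α] (h : Cardinal.mk β ≤ Cardinal.continuum) :
    Cardinal.mk (α → β) ≤ Cardinal.continuum := by
  have h0 : Cardinal.mk (α → β) = Cardinal.mk β ^ Cardinal.mk α := by simp
  rw [h0]
  calc Cardinal.mk β ^ Cardinal.mk α ≤ Cardinal.continuum ^ Cardinal.mk α :=
        Cardinal.power_le_power_right h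
    _ ≤ Cardinal.continuum ^ Cardinal.aleph0 :=
        Cardinal.power_le_power_left Cardinal.continuum_ne_zero Cardinal.mk_le_aleph0
    _ = Cardinal.continuum := Cardinal.continuum_power_aleph0

lemma bool_le : Cardinal.mk Bool ≤ Cardinal.continuum :=
  (Cardinal.mk_le_aleph0).trans Cardinal.aleph0_le_continuum

lemma T_le : Cardinal.mk T ≤ Cardinal.continuum := fn_le bool_le

lemma optT_le : Cardinal.mk (Option T) ≤ Cardinal.continuum := by
  rw [Cardinal.mk_option]
  calc Cardinal.mk T + 1 ≤ Cardinal.continuum + Cardinal.continuum := by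
        apply add_le_add T_le
        exact Cardinal.one_le_aleph0.trans Cardinal.aleph0_le_continuum
    _ = Cardinal.continuum := Cardinal.continuum_add_self

lemma set_le : Cardinal.mk (Set Nd) ≤ Cardinal.continuum := by
  rw [Cardinal.mk_set]
  calc (2 : Cardinal) ^ Cardinal.mk Nd ≤ 2 ^ Cardinal.aleph0 :=
        Cardinal.power_le_power_left two_ne_zero Cardinal.mk_le_aleph0
    _ = Cardinal.continuum := Cardinal.two_power_aleph0

abbrev I1 : Type := {q : (Nd → ℕ → Set Nd) × (Nd → ℕ → Option T) //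
  (∀ b, (Psi q.1 q.2 b).Countable) ∧ ∀ b b', b ≠ b' → Disjoint (Psi q.1 q.2 b) (Psi q.1 q.2 b')}

abbrev I2 : Type := {κ : Nd → Bool // Function.Injective (br κ)}

abbrev I : Type := I1 ⊕ I2

lemma I_le : Cardinal.mk I ≤ Cardinal.continuum := by
  have h1 : Cardinal.mk I1 ≤ Cardinal.continuum := by
    refine (Cardinal.mk_subtype_le _).trans ?_
    have : Cardinal.mk ((Nd → ℕ → Set Nd) × (Nd → ℕ → Option T)) =
        Cardinal.mk (Nd → ℕ → Set Nd) * Cardinal.mk (Nd → ℕ → Option T) := by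
      rw [Cardinal.mul_def]
    rw [this]
    calc Cardinal.mk (Nd → ℕ → Set Nd) * Cardinal.mk (Nd → ℕ → Option T)
        ≤ Cardinal.continuum * Cardinal.continuum :=
          mul_le_mul' (fn_le (fn_le set_le)) (fn_le (fn_le optT_le))
      _ = Cardinal.continuum := Cardinal.continuum_mul_self
  have h2 : Cardinal.mk I2 ≤ Cardinal.continuum :=
    (Cardinal.mk_subtype_le _).trans (fn_le bool_le)
  have h3 : Cardinal.mk I = Cardinal.mk I1 + Cardinal.mk I2 := by
    rw [Cardinal.add_def]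
  rw [h3]
  calc Cardinal.mk I1 + Cardinal.mk I2 ≤ Cardinal.continuum + Cardinal.continuum :=
        add_le_add h1 h2
    _ = Cardinal.continuum := Cardinal.continuum_add_self

def C : I → T → I → T → Prop
  | Sum.inl q, b, Sum.inr κ, b' => br κ.1 b' ∈ Psi q.1.1 q.1.2 b
  | Sum.inr κ, b', Sum.inl q, b => br κ.1 b' ∈ Psi q.1.1 q.1.2 b
  | Sum.inl _, _, Sum.inl _, _ => False
  | Sum.inr _, _, Sum.inr _, _ => False

theorem task02 : Task02 := by
  intro hTR
  obtain ⟨F, hF⟩ := hTR I I_le C (by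
    rintro (q | κ) (q' | κ') b b' h
    · exact h
    · exact h
    · exact h
    · exact h) (by
    rintro (q | κ) (q' | κ') b'
    · simp [C]
    · apply Set.Subsingleton.countable
      intro b hb b2 hb2
      by_contra hne
      exact Set.disjoint_left.mp (q.2.2 b b2 hne) hb hb2
    · exact (q'.2.1 b').preimage κ.2
    · simp [C])
  refine ⟨{t | ∃ κ : I2, t = br κ.1 (F (Sum.inr κ))}, ?_, ?_⟩
  · intro Λ p h1 h2
    let q : I1 := ⟨(Λ, p), h1, h2⟩
    refine ⟨F (Sum.inl q), ?_⟩
    rw [Set.disjoint_left]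
    rintro t ht ⟨κ, rfl⟩
    exact hF (Sum.inl q) (Sum.inr κ) (by simp) ht
  · intro κ hκ
    exact ⟨F (Sum.inr ⟨κ, hκ⟩), ⟨κ, hκ⟩, rfl⟩

end Pool.Agent.H911R3.MS.T02
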