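import Pool.Agent.H911R3.MS.Stmts

/-!
# Task 03 (helper455): at most `L / ε` nodes of a level are robust.
-/

set_option autoImplicit false

open Set Filter Topology

namespace Pool.Agent.H911R3.MS.T03

variable {W : Type} [NormedAddCommGroup W] [NormedSpace ℝ W] {A : Set T}

theorem contOn {f : W → ℝ} {U : Set W} {L : ℝ} (hN : Nice f U L) : ContinuousOn f U := by
  have hL : LipschitzOnWith (Real.toNNReal L) f U := by
    refine LipschitzOnWith.of_dist_le_mul ?_
    intro x hx y hy
    have := hN.lip x hx y hy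
    rw [Real.dist_eq, dist_eq_norm, Real.coe_toNNReal L hN.pos.le]
    exact this
  exact hL.continuousOn

/-- Growth to the left in a direction gives growth to the right. -/
theorem conv_step {f : W → ℝ} {U : Set W} {L : ℝ} (hN : Nice f U L) {y h : W} {t s ε : ℝ}
    (ht : 0 < t) (hs : 0 < s) (h1 : y - t • h ∈ U) (h2 : y + s • h ∈ U)
    (hg : ε * t < f y - f (y - t • h)) : ε * s < f (y + s • h) - f y := by
  have hst : 0 < s + t := by positivity
  have hc := hN.conv.2 h1 h2 (show (0 : ℝ) ≤ s / (s + t) by positivity)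
    (show (0 : ℝ) ≤ t / (s + t) by positivity) (show s / (s + t) + t / (s + t) = 1 by field_simp)
  have hy : (s / (s + t)) • (y - t • h) + (t / (s + t)) • (y + s • h) = y := by
    have e : (s / (s + t)) • (y - t • h) + (t / (s + t)) • (y + s • h)
        = (s / (s + t) + t / (s + t)) • y + (t / (s + t) * s - s / (s + t) * t) • h := by
      rw [smul_sub, smul_add, smul_smul, smul_smul, add_smul, sub_smul]
      abel
    rw [e]
    have e1 : s / (s + t) + t / (s + t) = 1 := by field_simp
    have e2 : t / (s + t) * s - s / (s + t) * t = 0 := by ring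
    rw [e1, e2, one_smul, zero_smul, add_zero]
  rw [hy] at hc
  simp only [smul_eq_mul] at hc
  have hc' : (s + t) * f y ≤ s * f (y - t • h) + t * f (y + s • h) := by
    have := mul_le_mul_of_nonneg_left hc hst.le
    have e : (s + t) * (s / (s + t) * f (y - t • h) + t / (s + t) * f (y + s • h))
        = s * f (y - t • h) + t * f (y + s • h) := by
      field_simp
    linarith [e ▸ this]
  have h3 : s * f (y - t • h) < s * (f y - ε * t) :=
    mul_lt_mul_of_pos_left (by linarith) hs
  have h4 : t * (ε * s) < t * (f (y + s • h) - f y) := by nlinarith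
  exact lt_of_mul_lt_mul_left h4 ht.le

theorem claim (S : Sys W A) {f : W → ℝ} {U : Set W} {L : ℝ} (hN : Nice f U L)
    {V : Set W} (hVU : V ⊆ U) (hVo : IsOpen V) (hVn : V.Nonempty) {ε : ℝ} (n : ℕ)
    (K : Finset (Fin n → Bool)) :
    (∀ c ∈ K, Rob S f V ε ⟨n, c⟩) →
    ∃ (V₁ : Set W) (h : (Fin n → Bool) → W) (t : (Fin n → Bool) → ℝ),
      V₁ ⊆ V ∧ IsOpen V₁ ∧ V₁.Nonempty ∧ (∀ c ∈ K, h c ∈ S.Q ⟨n, c⟩) ∧ (∀ c ∈ K, 0 < t c) ∧
      ∀ y ∈ V₁, ∀ c ∈ K, y - t c • h c ∈ U ∧ ε * t c < f y - f (y - t c • h c) := by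
  classical
  induction K using Finset.induction_on with
  | empty =>
    intro _
    exact ⟨V, fun _ => 0, fun _ => 0, subset_rfl, hVo, hVn, by simp, by simp, by simp⟩
  | insert a s has ih =>
    intro hR
    obtain ⟨V₁, h, t, hV1, hV1o, hV1n, hQ, ht, hg⟩ :=
      ih (fun c hc => hR c (Finset.mem_insert_of_mem hc))
    have hra := hR a (Finset.mem_insert_self a s) V₁ hV1 hV1o hV1n
    unfold Light at hra
    push Not at hra
    obtain ⟨x, hx, h₀, hh₀, t₀, ht₀, hx', hlt⟩ := hra
    set O : Set W := V₁ ∩ (fun y => y - t₀ • h₀) ⁻¹' V₁ with hO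
    have hOo : IsOpen O := hV1o.inter (hV1o.preimage (by fun_prop))
    have hfc : ContinuousOn f U := contOn hN
    have hF : ContinuousOn (fun y => f y - f (y - t₀ • h₀)) O := by
      refine ContinuousOn.sub (hfc.mono ?_) ?_
      · intro y hy; exact hVU (hV1 hy.1)
      · refine hfc.comp (by fun_prop) ?_
        intro y hy; exact hVU (hV1 hy.2)
    have hV2o : IsOpen (O ∩ (fun y => f y - f (y - t₀ • h₀)) ⁻¹' (Set.Ioi (ε * t₀))) :=
      hF.isOpen_inter_preimage hOo isOpen_Ioi
    refine ⟨O ∩ (fun y => f y - f (y - t₀ • h₀)) ⁻¹' (Set.Ioi (ε * t₀)),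
      Function.update h a h₀, Function.update t a t₀, ?_, hV2o, ?_, ?_, ?_, ?_⟩
    · intro y hy; exact hV1 hy.1.1
    · refine ⟨x + t₀ • h₀, ⟨hx', ?_⟩, ?_⟩
      · simpa using hx
      · simpa using hlt
    · intro c hc
      rcases Finset.mem_insert.1 hc with rfl | hc
      · simpa using hh₀
      · have : c ≠ a := fun e => has (e ▸ hc)
        simpa [Function.update_of_ne this] using hQ c hc
    · intro c hc
      rcases Finset.mem_insert.1 hc with rfl | hc
      · simpa using ht₀
      · have : c ≠ a := fun e => has (e ▸ hc)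
        simpa [Function.update_of_ne this] using ht c hc
    · intro y hy c hc
      rcases Finset.mem_insert.1 hc with rfl | hc
      · simp only [Function.update_self]
        exact ⟨hVU (hV1 hy.1.2), hy.2⟩
      · have : c ≠ a := fun e => has (e ▸ hc)
        simpa [Function.update_of_ne this] using hg y hy.1.1 c hc

theorem task03 : Task03 := by
  classical
  intro W _ _ A S f U L hN V hVU hVo hVn ε hε n K hK
  obtain ⟨V₁, h, t, hV1, hV1o, hV1n, hQ, ht, hg⟩ := claim S hN hVU hVo hVn n K hK
  obtain ⟨y, hy⟩ := hV1n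
  obtain ⟨r, hr, hball⟩ := Metric.isOpen_iff.1 hV1o y hy
  have hsum : ∀ K' : Finset (Fin n → Bool), K' ⊆ K → ‖∑ c ∈ K', h c‖ ≤ 1 :=
    fun K' hK' => S.Q_sum n K' h (fun c hc => hQ c (hK' hc))
  set s : ℝ := r / 2 with hs
  have hs0 : 0 < s := by positivity
  have hmem : ∀ K' : Finset (Fin n → Bool), K' ⊆ K → y + s • ∑ c ∈ K', h c ∈ V₁ := by
    intro K' hK'
    apply hball
    rw [Metric.mem_ball, dist_eq_norm, add_sub_cancel_left, norm_smul, Real.norm_eq_abs,
      abs_of_pos hs0]
    have := mul_le_mul_of_nonneg_left (hsum K' hK') hs0.le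
    linarith
  have hgrow : ∀ K' : Finset (Fin n → Bool), K' ⊆ K →
      (K'.card : ℝ) * (ε * s) ≤ f (y + s • ∑ c ∈ K', h c) - f y := by
    intro K'
    induction K' using Finset.induction_on with
    | empty => intro _; simp
    | insert a K' ha ih =>
      intro hsub
      have hsub' : K' ⊆ K := fun c hc => hsub (Finset.mem_insert_of_mem hc)
      have haK : a ∈ K := hsub (Finset.mem_insert_self a K')
      have h1 := ih hsub'
      have e : y + s • ∑ c ∈ insert a K', h c = (y + s • ∑ c ∈ K', h c) + s • h a := by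
        rw [Finset.sum_insert ha, smul_add]; abel
      have hz := hmem K' hsub'
      have hz' := hmem (insert a K') hsub
      rw [e] at hz' ⊢
      obtain ⟨hU, hgg⟩ := hg _ hz a haK
      have h2 := conv_step hN (ht a haK) hs0 hU (hVU (hV1 hz')) hgg
      rw [Finset.card_insert_of_notMem ha]
      push_cast
      linarith
  have h1 := hgrow K subset_rfl
  have h2 : f (y + s • ∑ c ∈ K, h c) - f y ≤ L * s := by
    have hl := hN.lip _ (hVU (hV1 (hmem K subset_rfl))) y (hVU (hV1 hy))
    rw [add_sub_cancel_left, norm_smul, Real.norm_eq_abs, abs_of_pos hs0] at hl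
    have h3 : L * (s * ‖∑ c ∈ K, h c‖) ≤ L * s := by
      apply mul_le_mul_of_nonneg_left _ hN.pos.le
      have := mul_le_mul_of_nonneg_left (hsum K subset_rfl) hs0.le
      linarith
    have := le_abs_self (f (y + s • ∑ c ∈ K, h c) - f y)
    linarith
  have h3 : ((K.card : ℝ) * ε) * s ≤ L * s := by nlinarith
  exact le_of_mul_le_mul_right h3 hs0

end Pool.Agent.H911R3.MS.T03
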