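import Pool.Agent.H911R3.MS.Stmts

set_option autoImplicit false

open Set Filter Topology

namespace Pool.Agent.H911R3.MS.T04

theorem task04 : Pool.Agent.H911R3.MS.Task04 := by
  intro hB W _ _ A S f U L hN V hVU hVo hVne ε hε
  have key : ∀ G : Finset T, (∀ t ∈ G, t ∈ Per S f ε V) → (G.card : ℝ) * ε ≤ L := by
    classical
    intro G hG
    let d : T × T → ℕ := fun p => PiNat.firstDiff p.1 p.2
    let n : ℕ := (G ×ˢ G).sup d + 1
    have hinj : Set.InjOn (fun (t : T) (i : Fin n) => t i) (G : Set T) := by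
      intro s hs t ht hst
      by_contra hne
      have h1 : PiNat.firstDiff s t ≤ (G ×ˢ G).sup d :=
        Finset.le_sup (f := d) (Finset.mem_product.2 ⟨hs, ht⟩ : (s, t) ∈ G ×ˢ G)
      have h2 := PiNat.apply_firstDiff_ne (E := fun _ => Bool) hne
      exact h2 (congrFun hst (⟨PiNat.firstDiff s t, Nat.lt_succ_of_le h1⟩ : Fin n))
    have hc : (G.image (fun (t : T) (i : Fin n) => t i)).card = G.card :=
      Finset.card_image_of_injOn hinj
    rw [← hc]
    refine hB W A S f U L hN V hVU hVo hVne ε hε n _ ?_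
    intro c hc'
    obtain ⟨t, ht, rfl⟩ := Finset.mem_image.1 hc'
    exact hG t ht n
  have hfin : (Per S f ε V).Finite := by
    by_contra hinf
    obtain ⟨G, hG, hcard⟩ := Set.Infinite.exists_subset_card_eq hinf (⌊L / ε⌋₊ + 1)
    have h1 := key G (fun t ht => hG ht)
    rw [hcard] at h1
    have h2 : L / ε < (⌊L / ε⌋₊ : ℝ) + 1 := Nat.lt_floor_add_one _
    rw [div_lt_iff₀ hε] at h2
    push_cast at h1
    linarith
  refine ⟨hfin, ?_⟩
  rw [Set.ncard_eq_toFinset_card _ hfin]
  exact key hfin.toFinset (fun t ht => by simpa using ht)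

end Pool.Agent.H911R3.MS.T04
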