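import Pool.Agent.H911R3.MS.Stmts

/-! Task05 of H911-MS: small second differences on a smaller open set. -/

set_option autoImplicit false

open Set Filter Topology

namespace Pool.Agent.H911R3.MS.T05

theorem task05 : Pool.Agent.H911R3.MS.Task05 := by
  intro W _ _ f U L hN V hVU hVo hVn v η hη
  obtain ⟨x, hx⟩ := hVn
  obtain ⟨r, hr, hball⟩ := Metric.isOpen_iff.mp hVo x hx
  have hv0 : 0 ≤ ‖v‖ := norm_nonneg v
  have hL := hN.pos
  obtain ⟨M0, hM0⟩ := exists_nat_gt (2 * L * ‖v‖ / η)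
  set M : ℕ := M0 + 1 with hM
  have hMη : 2 * L * ‖v‖ < (M : ℝ) * η := by
    rw [div_lt_iff₀ hη] at hM0
    have : (M : ℝ) = M0 + 1 := by rw [hM]; push_cast; ring
    rw [this]; nlinarith
  set s0 : ℝ := r / (‖v‖ + 1) with hs0
  have hs0p : 0 < s0 := by positivity
  have hs0v : s0 * ‖v‖ < r := by
    rw [hs0, div_mul_eq_mul_div, div_lt_iff₀ (by positivity)]
    nlinarith
  set d : ℝ := s0 / ((M : ℝ) + 1) with hd
  have hdp : 0 < d := by positivity
  have hin : ∀ k : ℕ, k ≤ M + 1 → x + ((k : ℝ) * d) • v ∈ V := by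
    intro k hk
    apply hball
    rw [Metric.mem_ball, dist_eq_norm]
    have e : x + ((k : ℝ) * d) • v - x = ((k : ℝ) * d) • v := by abel
    rw [e, norm_smul, Real.norm_eq_abs, abs_of_nonneg (by positivity)]
    have hk' : (k : ℝ) ≤ (M : ℝ) + 1 := by exact_mod_cast hk
    have h1 : (k : ℝ) * d ≤ s0 := by
      have : ((M : ℝ) + 1) * d = s0 := by rw [hd]; field_simp
      calc (k : ℝ) * d ≤ ((M : ℝ) + 1) * d := mul_le_mul_of_nonneg_right hk' hdp.le
        _ = s0 := this
    calc (k : ℝ) * d * ‖v‖ ≤ s0 * ‖v‖ := mul_le_mul_of_nonneg_right h1 hv0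
      _ < r := hs0v
  set φ : ℕ → ℝ := fun k => f (x + ((k : ℝ) * d) • v) with hφ
  have hstep : ∀ k : ℕ, k ≤ M → |φ (k + 1) - φ k| ≤ L * (d * ‖v‖) := by
    intro k hk
    have h1 := hN.lip _ (hVU (hin (k + 1) (by omega))) _ (hVU (hin k (by omega)))
    have e : x + (((k + 1 : ℕ) : ℝ) * d) • v - (x + ((k : ℝ) * d) • v) = d • v := by
      push_cast
      module
    rw [e, norm_smul, Real.norm_eq_abs, abs_of_pos hdp] at h1
    exact h1
  have hsum : ∀ m : ℕ, ∑ k ∈ Finset.range m, (φ (k + 2) + φ k - 2 * φ (k + 1)) =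
      (φ (m + 1) - φ m) - (φ 1 - φ 0) := by
    intro m
    induction m with
    | zero => simp
    | succ m ih => rw [Finset.sum_range_succ, ih]; ring
  have hex : ∃ k ∈ Finset.range M, φ (k + 2) + φ k - 2 * φ (k + 1) < η * d := by
    by_contra hcon
    push Not at hcon
    have h1 : ∑ k ∈ Finset.range M, η * d ≤ ∑ k ∈ Finset.range M, (φ (k + 2) + φ k - 2 * φ (k + 1)) :=
      Finset.sum_le_sum hcon
    rw [hsum, Finset.sum_const, Finset.card_range, nsmul_eq_mul] at h1
    have h2 := abs_le.mp (hstep M le_rfl)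
    have h3 := abs_le.mp (hstep 0 (by omega))
    have h4 : (M : ℝ) * (η * d) ≤ 2 * (L * (d * ‖v‖)) := by
      have := h2.2; have := h3.1
      simp only [zero_add] at this
      linarith
    have h5 : ((M : ℝ) * η - 2 * L * ‖v‖) * d ≤ 0 := by nlinarith
    have h6 : 0 < ((M : ℝ) * η - 2 * L * ‖v‖) * d := mul_pos (by linarith) hdp
    linarith
  obtain ⟨k, hk, hkd⟩ := hex
  rw [Finset.mem_range] at hk
  have hcf : ContinuousOn f U := by
    have : LipschitzOnWith L.toNNReal f U := by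
      apply LipschitzOnWith.of_dist_le_mul
      intro a ha b hb
      rw [Real.dist_eq, dist_eq_norm, Real.coe_toNNReal L hL.le]
      exact hN.lip a ha b hb
    exact this.continuousOn
  have c1 : Continuous fun y : W => y + d • v := by fun_prop
  have c2 : Continuous fun y : W => y - d • v := by fun_prop
  set O : Set W := V ∩ ((fun y : W => y + d • v) ⁻¹' U ∩ (fun y : W => y - d • v) ⁻¹' U) with hO
  have hOo : IsOpen O := hVo.inter ((hN.isOpen.preimage c1).inter (hN.isOpen.preimage c2))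
  have hF : ContinuousOn (fun y : W => f (y + d • v) + f (y - d • v) - 2 * f y) O := by
    apply ContinuousOn.sub
    · apply ContinuousOn.add
      · exact hcf.comp c1.continuousOn (fun y hy => hy.2.1)
      · exact hcf.comp c2.continuousOn (fun y hy => hy.2.2)
    · exact continuousOn_const.mul (hcf.mono (fun y hy => hVU hy.1))
  refine ⟨O ∩ (fun y : W => f (y + d • v) + f (y - d • v) - 2 * f y) ⁻¹' Iio (η * d),
    fun y hy => hy.1.1, hF.isOpen_inter_preimage hOo isOpen_Iio, ?_, d, hdp, ?_⟩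
  · have e1 : x + (((k + 1 : ℕ) : ℝ) * d) • v + d • v = x + (((k + 2 : ℕ) : ℝ) * d) • v := by
      push_cast; module
    have e2 : x + (((k + 1 : ℕ) : ℝ) * d) • v - d • v = x + ((k : ℝ) * d) • v := by
      push_cast; module
    refine ⟨x + (((k + 1 : ℕ) : ℝ) * d) • v, ⟨hin (k + 1) (by omega), ?_, ?_⟩, ?_⟩
    · show x + (((k + 1 : ℕ) : ℝ) * d) • v + d • v ∈ U
      rw [e1]; exact hVU (hin (k + 2) (by omega))
    · show x + (((k + 1 : ℕ) : ℝ) * d) • v - d • v ∈ U
      rw [e2]; exact hVU (hin k (by omega))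
    · show f (x + (((k + 1 : ℕ) : ℝ) * d) • v + d • v) + f (x + (((k + 1 : ℕ) : ℝ) * d) • v - d • v)
        - 2 * f (x + (((k + 1 : ℕ) : ℝ) * d) • v) < η * d
      rw [e1, e2]
      exact hkd
  · intro y hy
    exact ⟨hy.1.2.1, hy.1.2.2, hy.2⟩

end Pool.Agent.H911R3.MS.T05
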