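import Pool.Agent.H911R3.MS.Stmts

set_option autoImplicit false

open Set Filter Topology

namespace Pool.Agent.H911R3.MS.T06

theorem stBaire : StBaire := by
  intro W _ _ _ A S f V hV hVne ε
  let D : Nd → Set W := fun c => {x | ∃ O : Set W, IsOpen O ∧ x ∈ O ∧ O ⊆ V ∧
    (Light S f O ε c ∨ Rob S f O ε c)} ∪ (closure V)ᶜ
  have hopen : ∀ c, IsOpen (D c) := by
    intro c
    refine IsOpen.union ?_ isClosed_closure.isOpen_compl
    rw [isOpen_iff_forall_mem_open]
    rintro x ⟨O, hO, hx, hOV, h⟩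
    exact ⟨O, fun y hy => ⟨O, hO, hy, hOV, h⟩, hO, hx⟩
  have hdense : ∀ c, Dense (D c) := by
    intro c
    rw [dense_iff_inter_open]
    intro O' hO' hne
    rcases (O' ∩ V).eq_empty_or_nonempty with hemp | hOne
    · obtain ⟨x, hx⟩ := hne
      refine ⟨x, hx, Or.inr ?_⟩
      intro hcl
      have := mem_closure_iff.1 hcl O' hO' hx
      rw [hemp] at this
      exact this.ne_empty rfl
    · by_cases h : ∃ V' : Set W, V' ⊆ O' ∩ V ∧ IsOpen V' ∧ V'.Nonempty ∧ Light S f V' ε c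
      · obtain ⟨V', hsub, hop, ⟨x, hx⟩, hl⟩ := h
        exact ⟨x, (hsub hx).1, Or.inl ⟨V', hop, hx, fun y hy => (hsub hy).2, Or.inl hl⟩⟩
      · obtain ⟨x, hx⟩ := hOne
        refine ⟨x, hx.1, Or.inl ⟨O' ∩ V, hO'.inter hV, hx, inter_subset_right, Or.inr ?_⟩⟩
        intro V' hsub hop hne' hl
        exact h ⟨V', hsub, hop, hne', hl⟩
  have hd := dense_iInter_of_isOpen hopen hdense
  obtain ⟨x, hxV, hx⟩ := hd.inter_open_nonempty V hV hVne
  refine ⟨x, hxV, fun c => ?_⟩
  rcases mem_iInter.1 hx c with h | h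
  · exact h
  · exact absurd (subset_closure hxV) h

theorem task06 : Task06 := stBaire

end Pool.Agent.H911R3.MS.T06
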