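import Pool.Agent.H911R3.MS.Stmts

/-!
# Task 07 of the project H911-MS: stabilising the persistent points (helper101)
-/

set_option autoImplicit false

open Set Filter Topology

namespace Pool.Agent.H911R3.MS.T07

open Pool.Agent.H911R3.MS

theorem per_anti {W : Type} [NormedAddCommGroup W] [NormedSpace ℝ W] {A : Set T}
    (S : Sys W A) (f : W → ℝ) (ε : ℝ) {V V' : Set W} (h : V' ⊆ V) :
    Per S f ε V ⊆ Per S f ε V' := by
  intro t ht n V'' h1 h2 h3
  exact ht n V'' (h1.trans h) h2 h3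

theorem task07 : Task07 := by
  intro hPer W _ _ A S f U L hN V hVU hVo hVn ε hε
  set N : Set ℕ := {n | ∃ V' : Set W, V' ⊆ V ∧ IsOpen V' ∧ V'.Nonempty ∧
    (Per S f ε V').ncard = n} with hNdef
  have hne : N.Nonempty := ⟨_, V, Subset.rfl, hVo, hVn, rfl⟩
  have hbdd : BddAbove N := by
    refine ⟨⌊L / ε⌋₊, ?_⟩
    rintro n ⟨V', h1, h2, h3, rfl⟩
    have := (hPer W A S f U L hN V' (h1.trans hVU) h2 h3 ε hε).2
    apply Nat.le_floor
    rwa [le_div_iff₀ hε]
  obtain ⟨V', h1, h2, h3, h4⟩ := Nat.sSup_mem hne hbdd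
  refine ⟨V', h1, h2, h3, ?_⟩
  intro V'' h5 h6 h7
  have hfin := (hPer W A S f U L hN V'' ((h5.trans h1).trans hVU) h6 h7 ε hε).1
  symm
  apply Set.eq_of_subset_of_ncard_le (per_anti S f ε h5) _ hfin
  rw [h4]
  exact le_csSup hbdd ⟨V'', h5.trans h1, h6, h7, rfl⟩

end Pool.Agent.H911R3.MS.T07
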