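import Pool.Agent.H911R3.MS.Stmts

set_option autoImplicit false

open Set Filter Topology

namespace Pool.Agent.H911R3.MS.T08

open Pool.Agent.H911R3.MS

section
variable {W : Type} [NormedAddCommGroup W] [NormedSpace ℝ W] {A : Set T}

theorem light_mono {S : Sys W A} {f : W → ℝ} {V V' : Set W} {ε : ℝ} {c : Nd}
    (h : Light S f V ε c) (hV : V' ⊆ V) : Light S f V' ε c :=
  fun x hx k hk t ht hxt => h x (hV hx) k hk t ht (hV hxt)

theorem rob_mono {S : Sys W A} {f : W → ℝ} {V V' : Set W} {ε : ℝ} {c : Nd}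
    (h : Rob S f V ε c) (hV : V' ⊆ V) : Rob S f V' ε c :=
  fun V'' h'' => h V'' (h''.trans hV)

end

theorem res_eq_iff (t t' : T) (n : ℕ) :
    res t' n = res t n ↔ (fun i : Fin n => t' i) = fun i : Fin n => t i := by
  unfold res
  constructor
  · intro h
    simpa using h
  · intro h
    rw [h]

theorem isOpen_cyl (t : T) (n : ℕ) : IsOpen {t' : T | res t' n = res t n} := by
  have hc : Continuous fun t' : T => fun i : Fin n => t' i :=
    continuous_pi fun i => continuous_apply _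
  have h : {t' : T | res t' n = res t n} =
      (fun t' : T => fun i : Fin n => t' i) ⁻¹' {fun i : Fin n => t i} := by
    ext t'
    simp only [mem_ofPred_eq, mem_preimage, mem_singleton_iff]
    exact res_eq_iff t t' n
  rw [h]
  exact (isOpen_discrete _).preimage hc

theorem exists_level (G : Finset T) : ∃ n : ℕ, ∀ t ∈ G, ∀ t' ∈ G,
    ((fun i : Fin n => t i) = fun i : Fin n => t' i) → t = t' := by
  classical
  have h : ∀ t t' : T, ∃ N : ℕ, t ≠ t' → t N ≠ t' N := by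
    intro t t'
    by_cases h : t = t'
    · exact ⟨0, fun h' => absurd h h'⟩
    · obtain ⟨N, hN⟩ := Function.ne_iff.mp h
      exact ⟨N, fun _ => hN⟩
  choose N hN using h
  refine ⟨(G ×ˢ G).sup (fun p => N p.1 p.2) + 1, fun t ht t' ht' he => ?_⟩
  by_contra hne
  have h1 : N t t' ≤ (G ×ˢ G).sup (fun p => N p.1 p.2) :=
    Finset.le_sup (f := fun p : T × T => N p.1 p.2) (b := (t, t')) (Finset.mem_product.mpr ⟨ht, ht'⟩)
  exact hN t t' hne (congrFun he ⟨N t t', by omega⟩)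

section
variable {W : Type} [NormedAddCommGroup W] [NormedSpace ℝ W] {A : Set T}

/-- points robust at `x` at every level -/
def Typ2 (S : Sys W A) (f : W → ℝ) (ε : ℝ) (V : Set W) (x : W) : Set T :=
  {t | ∀ n, ∃ O : Set W, IsOpen O ∧ x ∈ O ∧ O ⊆ V ∧ Rob S f O ε (res t n)}

theorem typ2_card (hB : StBound) (S : Sys W A) (f : W → ℝ) (U : Set W) (L : ℝ) (hN : Nice f U L)
    (V : Set W) (hVU : V ⊆ U) (hV : IsOpen V) (ε : ℝ) (hε : 0 < ε) (x : W) (hx : x ∈ V)
    (G : Finset T) (hG : ∀ t ∈ G, t ∈ Typ2 S f ε V x) : (G.card : ℝ) * ε ≤ L := by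
  classical
  obtain ⟨n, hn⟩ := exists_level G
  have h1 : ∀ t : T, ∃ O : Set W, t ∈ G → IsOpen O ∧ x ∈ O ∧ O ⊆ V ∧ Rob S f O ε (res t n) := by
    intro t
    by_cases ht : t ∈ G
    · obtain ⟨O, hO⟩ := hG t ht n
      exact ⟨O, fun _ => hO⟩
    · exact ⟨univ, fun h => absurd h ht⟩
  choose O hO using h1
  set O' : Set W := V ∩ ⋂ t ∈ G, O t with hO'
  have hO1 : IsOpen O' := hV.inter (isOpen_biInter_finset fun t ht => (hO t ht).1)
  have hO2 : x ∈ O' := ⟨hx, mem_iInter₂.mpr fun t ht => (hO t ht).2.1⟩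
  have hO3 : O' ⊆ V := inter_subset_left
  have hO4 : ∀ t ∈ G, O' ⊆ O t := fun t ht => inter_subset_right.trans (biInter_subset_of_mem ht)
  have hcard : (G.image fun t : T => fun i : Fin n => t i).card = G.card := by
    apply Finset.card_image_of_injOn
    intro t ht t' ht' he
    exact hn t ht t' ht' he
  have := hB W A S f U L hN O' (hO3.trans hVU) hO1 ⟨x, hO2⟩ ε hε n
    (G.image fun t : T => fun i : Fin n => t i) (by
      intro c hc
      obtain ⟨t, ht, rfl⟩ := Finset.mem_image.mp hc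
      exact rob_mono (hO t ht).2.2.2 (hO4 t ht))
  rwa [hcard] at this

theorem typ2_finite (hB : StBound) (S : Sys W A) (f : W → ℝ) (U : Set W) (L : ℝ) (hN : Nice f U L)
    (V : Set W) (hVU : V ⊆ U) (hV : IsOpen V) (ε : ℝ) (hε : 0 < ε) (x : W) (hx : x ∈ V) :
    (Typ2 S f ε V x).Finite := by
  by_contra hinf
  obtain ⟨G, hG, hc⟩ := (Set.not_finite.mp hinf : (Typ2 S f ε V x).Infinite).exists_subset_card_eq
    (⌊L / ε⌋₊ + 1)
  have h1 := typ2_card hB S f U L hN V hVU hV ε hε x hx G (fun t ht => hG ht)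
  rw [hc] at h1
  have h2 : L / ε < (⌊L / ε⌋₊ + 1 : ℕ) := by
    push_cast
    exact Nat.lt_floor_add_one _
  rw [div_lt_iff₀ hε] at h2
  linarith

theorem shrink (S : Sys W A) (f : W → ℝ) (ε : ℝ) (V' : Set W) (hV' : IsOpen V')
    (hne : V'.Nonempty) (P : Set T)
    (hP : ∀ V'' : Set W, V'' ⊆ V' → IsOpen V'' → V''.Nonempty → Per S f ε V'' = P)
    (G : Finset T) (hG : ∀ t ∈ G, t ∉ P) :
    ∃ V₁ : Set W, V₁ ⊆ V' ∧ IsOpen V₁ ∧ V₁.Nonempty ∧ ∀ t ∈ G, ∃ n, Light S f V₁ ε (res t n) := by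
  classical
  induction G using Finset.induction_on with
  | empty => exact ⟨V', Subset.rfl, hV', hne, by simp⟩
  | insert t G _ ih =>
    obtain ⟨V₁, h1, h2, h3, h4⟩ := ih fun s hs => hG s (Finset.mem_insert_of_mem hs)
    have h5 : t ∉ Per S f ε V₁ := by
      rw [hP V₁ h1 h2 h3]; exact hG t (Finset.mem_insert_self _ _)
    have h6 : ∃ n, ¬ Rob S f V₁ ε (res t n) := by
      by_contra hcon
      push Not at hcon
      exact h5 hcon
    obtain ⟨n, hn⟩ := h6
    unfold Rob at hn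
    push Not at hn
    obtain ⟨V₂, h7, h8, h9, h10⟩ := hn
    refine ⟨V₂, h7.trans h1, h8, h9, fun s hs => ?_⟩
    rcases Finset.mem_insert.mp hs with rfl | hs
    · exact ⟨n, h10⟩
    · obtain ⟨k, hk⟩ := h4 s hs
      exact ⟨k, light_mono hk h7⟩

end

theorem task08 : Task08 := by
  intro hB _ hBaire hStab W _ _ _ A S f U L hN V V' hVU hV hVne hVU' hV' hVne' ε hε m
  obtain ⟨V'', h1, h2, h3, h4⟩ := hStab W A S f U L hN V' hVU' hV' hVne' ε hε
  obtain ⟨x, hx, hdec⟩ := hBaire W A S f V hV hVne ε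
  have hfin := typ2_finite hB S f U L hN V hVU hV ε hε x hx
  set P := Per S f ε V'' with hP
  obtain ⟨V₁', h5, h6, h7, h8⟩ := shrink S f ε V'' h2 h3 P h4
    ((hfin.subset (inter_subset_left (t := Pᶜ))).toFinset) (by
      intro t ht
      rw [Set.Finite.mem_toFinset] at ht
      exact ht.2)
  have hPer : Per S f ε V₁' = P := h4 V₁' h5 h6 h7
  have key : ∀ t : T, ∃ (n : ℕ) (O : Set W), IsOpen O ∧ x ∈ O ∧ O ⊆ V ∧
      ∀ t' : T, res t' n = res t n → ∀ V₁ : Set W, V₁ ⊆ O →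
        (∃ n, Light S f V₁ ε (res t' n) ∨ Light S f V₁' ε (res t' n)) ∨
          ∃ p ∈ Per S f ε V₁', res t' m = res p m := by
    intro t
    by_cases htP : t ∈ P
    · refine ⟨m, V, hV, hx, Subset.rfl, fun t' ht' V₁ _ => Or.inr ⟨t, ?_, ht'⟩⟩
      rw [hPer]; exact htP
    · by_cases ht2 : t ∈ Typ2 S f ε V x
      · obtain ⟨n, hn⟩ := h8 t (by
          rw [Set.Finite.mem_toFinset]; exact ⟨ht2, htP⟩)
        refine ⟨n, V, hV, hx, Subset.rfl, fun t' ht' V₁ _ => Or.inl ⟨n, Or.inr ?_⟩⟩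
        rw [ht']; exact hn
      · have h9 : ∃ n, ∀ O : Set W, IsOpen O → x ∈ O → O ⊆ V → ¬ Rob S f O ε (res t n) := by
          by_contra hcon
          apply ht2
          intro n
          by_contra hcon2
          apply hcon
          refine ⟨n, fun O hO1 hO2 hO3 hO4 => hcon2 ⟨O, hO1, hO2, hO3, hO4⟩⟩
        obtain ⟨n, hn⟩ := h9
        obtain ⟨O, hO1, hO2, hO3, hO4⟩ := hdec (res t n)
        refine ⟨n, O, hO1, hO2, hO3, fun t' ht' V₁ hV₁ => Or.inl ⟨n, Or.inl ?_⟩⟩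
        rw [ht']
        rcases hO4 with h | h
        · exact light_mono h hV₁
        · exact absurd h (hn O hO1 hO2 hO3)
  choose nn OO hOO using key
  obtain ⟨F, hF⟩ := (isCompact_univ (X := T)).elim_finite_subcover
    (fun t : T => {t' : T | res t' (nn t) = res t (nn t)}) (fun t => isOpen_cyl t (nn t))
    (fun t _ => mem_iUnion.mpr ⟨t, rfl⟩)
  refine ⟨V ∩ ⋂ t ∈ F, OO t, V₁', inter_subset_left,
    hV.inter (isOpen_biInter_finset fun t _ => (hOO t).1),
    ⟨x, hx, mem_iInter₂.mpr fun t _ => (hOO t).2.1⟩, h5.trans h1, h6, h7, fun t' => ?_⟩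
  obtain ⟨t, ht, ht'⟩ := mem_iUnion₂.mp (hF (mem_univ t'))
  exact (hOO t).2.2.2 t' ht' _ (inter_subset_right.trans (biInter_subset_of_mem ht))

end Pool.Agent.H911R3.MS.T08
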