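import Pool.Agent.H911R3.MS.Stmts

set_option autoImplicit false

open Set Filter Topology

namespace Pool.Agent.H911R3.MS.T09

section
variable {W : Type} [NormedAddCommGroup W] [NormedSpace ℝ W]

/-- a family of nonempty open subsets of `U` -/
def OKf {ι : Type} (U : Set W) (V : ι → Set W) : Prop :=
  ∀ i, V i ⊆ U ∧ IsOpen (V i) ∧ (V i).Nonempty

theorem fam_aux {ι κ : Type} (U : Set W) (R : κ → (ι → Set W) → Prop)
    (her : ∀ k V V', (∀ i, V' i ⊆ V i) → R k V → R k V')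
    (ach : ∀ k V, OKf U V → ∃ V', OKf U V' ∧ (∀ i, V' i ⊆ V i) ∧ R k V') (l : Finset κ) :
    ∀ V, OKf U V → ∃ V', OKf U V' ∧ (∀ i, V' i ⊆ V i) ∧ ∀ k ∈ l, R k V' := by
  classical
  induction l using Finset.induction_on with
  | empty =>
    intro V hV
    exact ⟨V, hV, fun i => subset_rfl, by simp⟩
  | insert a l ha ih =>
    intro V hV
    obtain ⟨V1, h1, h2, h3⟩ := ih V hV
    obtain ⟨V2, k1, k2, k3⟩ := ach a V1 h1
    refine ⟨V2, k1, fun i => (k2 i).trans (h2 i), ?_⟩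
    intro k hk
    rcases Finset.mem_insert.mp hk with rfl | hk
    · exact k3
    · exact her k V1 V2 k2 (h3 k hk)

theorem fam {ι κ : Type} [Finite κ] (U : Set W) (R : κ → (ι → Set W) → Prop)
    (her : ∀ k V V', (∀ i, V' i ⊆ V i) → R k V → R k V')
    (ach : ∀ k V, OKf U V → ∃ V', OKf U V' ∧ (∀ i, V' i ⊆ V i) ∧ R k V')
    (V : ι → Set W) (hV : OKf U V) :
    ∃ V', OKf U V' ∧ (∀ i, V' i ⊆ V i) ∧ ∀ k, R k V' := by
  classical
  have : Fintype κ := Fintype.ofFinite κ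
  obtain ⟨V', h1, h2, h3⟩ := fam_aux U R her ach Finset.univ V hV
  exact ⟨V', h1, h2, fun k => h3 k (Finset.mem_univ k)⟩

theorem upd_ok {ι : Type} [DecidableEq ι] (U : Set W) (V : ι → Set W) (hV : OKf U V) (s : ι)
    (X : Set W) (hX : X ⊆ V s) (hXo : IsOpen X) (hXn : X.Nonempty) :
    OKf U (Function.update V s X) ∧ ∀ i, Function.update V s X i ⊆ V i := by
  constructor
  · intro i
    by_cases hi : i = s
    · subst hi
      simp only [Function.update_self]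
      exact ⟨hX.trans (hV i).1, hXo, hXn⟩
    · simp only [Function.update_of_ne hi]
      exact hV i
  · intro i
    by_cases hi : i = s
    · subst hi
      simp only [Function.update_self]
      exact hX
    · simp only [Function.update_of_ne hi]
      exact subset_rfl

variable {A : Set T}

theorem light_mono (S : Sys W A) (f : W → ℝ) {V V' : Set W} (h : V' ⊆ V) (ε : ℝ) (c : Nd)
    (hl : Light S f V ε c) : Light S f V' ε c :=
  fun x hx k hk t ht hxt => hl x (h hx) k hk t ht (h hxt)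

theorem rob_mono (S : Sys W A) (f : W → ℝ) {V V' : Set W} (h : V' ⊆ V) (ε : ℝ) (c : Nd)
    (hl : Rob S f V ε c) : Rob S f V' ε c :=
  fun X hX hXo hXn => hl X (hX.trans h) hXo hXn

theorem per_mono (S : Sys W A) (f : W → ℝ) {V V' : Set W} (h : V' ⊆ V) (ε : ℝ) :
    Per S f ε V ⊆ Per S f ε V' :=
  fun _ ht n => rob_mono S f h ε _ (ht n)

theorem eps_pos (j : ℕ) : 0 < eps j := by
  unfold eps; positivity

end

theorem task09 : Pool.Agent.H911R3.MS.Task09 := by
  intro hPer hDiff hPair W _ _ _ A S f U L hN n B hB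
  classical
  let ι : Type := Fin (n + 1) → Bool
  -- parents
  let V0 : ι → Set W := fun s => bl (B fun i => s i.castSucc)
  have hV0 : OKf U V0 := by
    intro s
    refine ⟨?_, Metric.isOpen_ball, ?_⟩
    · exact Metric.ball_subset_closedBall.trans (hB _).2
    · exact Metric.nonempty_ball.mpr (hB _).1
  -- directions
  let D : ι → Set W := fun s => {v | (∃ k ≤ n, v = S.w k) ∨ ∃ p ∈ A, (∃ j ≤ n,
      p ∈ Per S f (eps j) (bl (B fun i => s i.castSucc))) ∧ v = S.g p}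
  have hD : ∀ s, (D s).Finite := by
    intro s
    have h1 : ((fun k => S.w k) '' {k | k ≤ n}).Finite := (Set.finite_le_nat n).image _
    have h2 : (⋃ j ∈ {j | j ≤ n}, Per S f (eps j) (bl (B fun i => s i.castSucc))).Finite := by
      refine (Set.finite_le_nat n).biUnion ?_
      intro j _
      exact (hPer W A S f U L hN _ (hV0 s).1 (hV0 s).2.1 (hV0 s).2.2 (eps j) (eps_pos j)).1
    refine (h1.union (h2.image S.g)).subset ?_
    rintro v (⟨k, hk, rfl⟩ | ⟨p, _, ⟨j, hj, hp⟩, rfl⟩)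
    · exact Or.inl ⟨k, hk, rfl⟩
    · refine Or.inr ⟨p, ?_, rfl⟩
      simp only [mem_setOf_eq, mem_iUnion]
      exact ⟨j, hj, hp⟩
  have hDf : ∀ s, Finite (D s) := fun s => (hD s).to_subtype
  -- first requirement
  let R1 : (Σ s : ι, D s) → (ι → Set W) → Prop := fun k V =>
    ∃ t : ℝ, 0 < t ∧ ∀ y ∈ V k.1, y + t • (k.2 : W) ∈ U ∧ y - t • (k.2 : W) ∈ U ∧
      f (y + t • (k.2 : W)) + f (y - t • (k.2 : W)) - 2 * f y < eps n * t
  have her1 : ∀ k V V', (∀ i, V' i ⊆ V i) → R1 k V → R1 k V' := by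
    rintro k V V' h ⟨t, ht, h1⟩
    exact ⟨t, ht, fun y hy => h1 y (h _ hy)⟩
  obtain ⟨V1, hV1, hV1s, hR1⟩ := fam U R1 her1 (by
    intro k V hV
    obtain ⟨X, h1, h2, h3, t, h4, h5⟩ := hDiff W f U L hN (V k.1) (hV k.1).1 (hV k.1).2.1
      (hV k.1).2.2 (k.2 : W) (eps n) (eps_pos n)
    refine ⟨Function.update V k.1 X, (upd_ok U V hV k.1 X h1 h2 h3).1,
      (upd_ok U V hV k.1 X h1 h2 h3).2, t, h4, ?_⟩
    simp only [Function.update_self]
    exact h5) V0 hV0
  -- second requirement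
  let R2 : (ι × (Σ m : Fin (n + 1), (Fin m → Bool)) × Fin (n + 1)) → (ι → Set W) → Prop :=
    fun k V => Light S f (V k.1) (eps k.2.2) ⟨k.2.1.1, k.2.1.2⟩ ∨
      Rob S f (V k.1) (eps k.2.2) ⟨k.2.1.1, k.2.1.2⟩
  have her2 : ∀ k V V', (∀ i, V' i ⊆ V i) → R2 k V → R2 k V' := by
    rintro k V V' h (h1 | h1)
    · exact Or.inl (light_mono S f (h _) _ _ h1)
    · exact Or.inr (rob_mono S f (h _) _ _ h1)
  obtain ⟨V2, hV2, hV2s, hR2⟩ := fam U R2 her2 (by
    intro k V hV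
    by_cases hex : ∃ X : Set W, X ⊆ V k.1 ∧ IsOpen X ∧ X.Nonempty ∧
        Light S f X (eps k.2.2) ⟨k.2.1.1, k.2.1.2⟩
    · obtain ⟨X, h1, h2, h3, h4⟩ := hex
      refine ⟨Function.update V k.1 X, (upd_ok U V hV k.1 X h1 h2 h3).1,
        (upd_ok U V hV k.1 X h1 h2 h3).2, Or.inl ?_⟩
      simp only [Function.update_self]
      exact h4
    · refine ⟨V, hV, fun i => subset_rfl, Or.inr ?_⟩
      intro X h1 h2 h3 h4
      exact hex ⟨X, h1, h2, h3, h4⟩) V1 hV1
  -- third requirement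
  let R3 : (ι × ι × Fin (n + 1)) → (ι → Set W) → Prop :=
    fun k V => k.1 ≠ k.2.1 → ∀ t : T,
      (∃ m, Light S f (V k.1) (eps k.2.2) (res t m) ∨
        Light S f (V k.2.1) (eps k.2.2) (res t m)) ∨
      ∃ p ∈ Per S f (eps k.2.2) (V k.2.1), res t n = res p n
  have her3 : ∀ k V V', (∀ i, V' i ⊆ V i) → R3 k V → R3 k V' := by
    intro k V V' h h1 hne t
    rcases h1 hne t with ⟨m, h2 | h2⟩ | ⟨p, hp, hp2⟩
    · exact Or.inl ⟨m, Or.inl (light_mono S f (h _) _ _ h2)⟩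
    · exact Or.inl ⟨m, Or.inr (light_mono S f (h _) _ _ h2)⟩
    · exact Or.inr ⟨p, per_mono S f (h _) _ hp, hp2⟩
  obtain ⟨V3, hV3, hV3s, hR3⟩ := fam U R3 her3 (by
    intro k V hV
    by_cases hne : k.1 = k.2.1
    · exact ⟨V, hV, fun i => subset_rfl, fun h => absurd hne h⟩
    · obtain ⟨X, X', h1, h2, h3, h4, h5, h6, h7⟩ := hPair W A S f U L hN (V k.1) (V k.2.1)
        (hV k.1).1 (hV k.1).2.1 (hV k.1).2.2 (hV k.2.1).1 (hV k.2.1).2.1 (hV k.2.1).2.2
        (eps k.2.2) (eps_pos _) n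
      have u1 := upd_ok U V hV k.1 X h1 h2 h3
      have h4' : X' ⊆ Function.update V k.1 X k.2.1 := by
        rw [Function.update_of_ne (Ne.symm hne)]
        exact h4
      have u2 := upd_ok U (Function.update V k.1 X) u1.1 k.2.1 X' h4' h5 h6
      refine ⟨Function.update (Function.update V k.1 X) k.2.1 X', u2.1,
        fun i => (u2.2 i).trans (u1.2 i), ?_⟩
      intro _ t
      rw [Function.update_of_ne hne, Function.update_self, Function.update_self]
      exact h7 t) V2 hV2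
  -- the balls
  have hball : ∀ s : ι, ∃ q : W × ℝ, 0 < q.2 ∧ q.2 ≤ eps (n + 1) ∧
      Metric.closedBall q.1 q.2 ⊆ V3 s := by
    intro s
    obtain ⟨x, hx⟩ := (hV3 s).2.2
    obtain ⟨δ, hδ, hδ2⟩ := Metric.isOpen_iff.mp (hV3 s).2.1 x hx
    refine ⟨(x, min (δ / 2) (eps (n + 1))), ?_, min_le_right _ _, ?_⟩
    · exact lt_min (by linarith) (eps_pos _)
    · refine (Metric.closedBall_subset_ball ?_).trans hδ2
      exact lt_of_le_of_lt (min_le_left _ _) (by linarith)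
  choose B' hB1 hB2 hB3 using hball
  have hsub3 : ∀ s : ι, bl (B' s) ⊆ V3 s := fun s =>
    Metric.ball_subset_closedBall.trans (hB3 s)
  have hsub2 : ∀ s : ι, bl (B' s) ⊆ V2 s := fun s => (hsub3 s).trans (hV3s s)
  have hsub1 : ∀ s : ι, bl (B' s) ⊆ V1 s := fun s => (hsub2 s).trans (hV2s s)
  refine ⟨B', ?_⟩
  constructor
  · exact hB1
  · exact hB2
  · intro s
    exact ((hB3 s).trans (hV3s s)).trans ((hV2s s).trans (hV1s s))
  · intro s v hv
    exact her1 ⟨s, ⟨v, hv⟩⟩ V1 (fun s => bl (B' s)) hsub1 (hR1 ⟨s, ⟨v, hv⟩⟩)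
  · intro s d hd j hj
    have := her2 (s, ⟨⟨d.1, Nat.lt_succ_of_le hd⟩, d.2⟩, ⟨j, Nat.lt_succ_of_le hj⟩) V2
      (fun s => bl (B' s)) hsub2 (hR2 _)
    exact this
  · intro s s' hne j hj t
    exact her3 (s, s', ⟨j, Nat.lt_succ_of_le hj⟩) V3 (fun s => bl (B' s)) hsub3 (hR3 _) hne t

end Pool.Agent.H911R3.MS.T09
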