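import Pool.Agent.H911R3.MS.Stmts

set_option autoImplicit false

open Set Filter Topology

namespace Pool.Agent.H911R3.MS.T10

open Pool.Agent.H911R3.MS

section
variable {W : Type} [NormedAddCommGroup W] [NormedSpace ℝ W]

/-- for small `t`, the points `x ± t • h` are in `U` -/
lemma small_mem {U : Set W} (hU : IsOpen U) {x : W} (hx : x ∈ U) (h : W) :
    ∃ δ : ℝ, 0 < δ ∧ ∀ t : ℝ, |t| < δ → x + t • h ∈ U := by
  have hc : Continuous (fun t : ℝ => x + t • h) := by fun_prop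
  have ho : IsOpen ((fun t : ℝ => x + t • h) ⁻¹' U) := hU.preimage hc
  have h0 : (0 : ℝ) ∈ ((fun t : ℝ => x + t • h) ⁻¹' U) := by simpa using hx
  obtain ⟨δ, hδ, hb⟩ := Metric.isOpen_iff.1 ho 0 h0
  refine ⟨δ, hδ, fun t ht => ?_⟩
  have : t ∈ Metric.ball (0 : ℝ) δ := by simpa [Metric.mem_ball, Real.dist_eq] using ht
  exact hb this

lemma SD_zero (f : W → ℝ) (x : W) : SD f x 0 := by
  intro ε hε
  refine ⟨1, one_pos, fun t ht _ => ?_⟩
  have : f (x + t • (0 : W)) + f (x - t • (0 : W)) - 2 * f x = 0 := by simp; ring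
  rw [this]; positivity

lemma SD_neg {f : W → ℝ} {x h : W} (H : SD f x h) : SD f x (-h) := by
  intro ε hε
  obtain ⟨δ, hδ, hd⟩ := H ε hε
  refine ⟨δ, hδ, fun t ht ht' => ?_⟩
  have := hd t ht ht'
  simp only [smul_neg, sub_neg_eq_add]
  have e : x + -(t • h) = x - t • h := by abel
  rw [e]; linarith

lemma SD_pos_smul {f : W → ℝ} {x h : W} (H : SD f x h) {c : ℝ} (hc : 0 < c) :
    SD f x (c • h) := by
  intro ε hε
  obtain ⟨δ, hδ, hd⟩ := H (ε / c) (by positivity)
  refine ⟨δ / c, by positivity, fun t ht ht' => ?_⟩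
  have h1 : t * c < δ := by rwa [lt_div_iff₀ hc] at ht'
  have := hd (t * c) (by positivity) h1
  rw [smul_smul]
  have e : ε / c * (t * c) = ε * t := by field_simp
  linarith

lemma SD_smul {f : W → ℝ} {x h : W} (H : SD f x h) (c : ℝ) : SD f x (c • h) := by
  rcases lt_trichotomy c 0 with hc | hc | hc
  · have := SD_neg (SD_pos_smul H (neg_pos.2 hc))
    simpa using this
  · subst hc; simpa using SD_zero f x
  · exact SD_pos_smul H hc

lemma SD_add {f : W → ℝ} {U : Set W} {L : ℝ} (hN : Nice f U L) {x : W} (hx : x ∈ U) {h k : W}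
    (H : SD f x h) (K : SD f x k) : SD f x (h + k) := by
  intro ε hε
  obtain ⟨δ₁, h1, H1⟩ := H (ε / 2) (by positivity)
  obtain ⟨δ₂, h2, K1⟩ := K (ε / 2) (by positivity)
  obtain ⟨δ₃, h3, U1⟩ := small_mem hN.isOpen hx h
  obtain ⟨δ₄, h4, U2⟩ := small_mem hN.isOpen hx k
  refine ⟨min (min δ₁ δ₂) (min δ₃ δ₄) / 2, by positivity, fun t ht ht' => ?_⟩
  have a1 : 2 * t < δ₁ := by
    have : min (min δ₁ δ₂) (min δ₃ δ₄) ≤ δ₁ := le_trans (min_le_left _ _) (min_le_left _ _)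
    linarith
  have a2 : 2 * t < δ₂ := by
    have : min (min δ₁ δ₂) (min δ₃ δ₄) ≤ δ₂ := le_trans (min_le_left _ _) (min_le_right _ _)
    linarith
  have a3 : 2 * t < δ₃ := by
    have : min (min δ₁ δ₂) (min δ₃ δ₄) ≤ δ₃ := le_trans (min_le_right _ _) (min_le_left _ _)
    linarith
  have a4 : 2 * t < δ₄ := by
    have : min (min δ₁ δ₂) (min δ₃ δ₄) ≤ δ₄ := le_trans (min_le_right _ _) (min_le_right _ _)
    linarith
  have m1 : x + (2 * t) • h ∈ U := U1 _ (by rw [abs_of_pos (by positivity)]; exact a3)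
  have m2 : x + (2 * t) • k ∈ U := U2 _ (by rw [abs_of_pos (by positivity)]; exact a4)
  have m3 : x + (-(2 * t)) • h ∈ U := U1 _ (by rw [abs_neg, abs_of_pos (by positivity)]; exact a3)
  have m4 : x + (-(2 * t)) • k ∈ U := U2 _ (by rw [abs_neg, abs_of_pos (by positivity)]; exact a4)
  have b1 := H1 (2 * t) (by positivity) a1
  have b2 := K1 (2 * t) (by positivity) a2
  have c1 := hN.conv.2 m1 m2 (by norm_num : (0 : ℝ) ≤ 1 / 2) (by norm_num : (0 : ℝ) ≤ 1 / 2)
    (by norm_num)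
  have c2 := hN.conv.2 m3 m4 (by norm_num : (0 : ℝ) ≤ 1 / 2) (by norm_num : (0 : ℝ) ≤ 1 / 2)
    (by norm_num)
  have e1 : (1 / 2 : ℝ) • (x + (2 * t) • h) + (1 / 2 : ℝ) • (x + (2 * t) • k) =
      x + t • (h + k) := by module
  have e2 : (1 / 2 : ℝ) • (x + (-(2 * t)) • h) + (1 / 2 : ℝ) • (x + (-(2 * t)) • k) =
      x - t • (h + k) := by module
  rw [e1] at c1
  rw [e2] at c2
  have e3 : x + (-(2 * t)) • h = x - (2 * t) • h := by module
  have e4 : x + (-(2 * t)) • k = x - (2 * t) • k := by module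
  rw [e3, e4] at c2
  simp only [smul_eq_mul] at c1 c2
  linarith

lemma SD_closure {f : W → ℝ} {U : Set W} {L : ℝ} (hN : Nice f U L) {x : W} (hx : x ∈ U)
    {S : Set W} (hS : ∀ h ∈ S, SD f x h) : ∀ h ∈ closure S, SD f x h := by
  intro h hh ε hε
  have hL := hN.pos
  obtain ⟨k, hk, hd⟩ := Metric.mem_closure_iff.1 hh (ε / (4 * L)) (by positivity)
  obtain ⟨δ₁, h1, H1⟩ := hS k hk (ε / 2) (by positivity)
  obtain ⟨δ₃, h3, U1⟩ := small_mem hN.isOpen hx h
  obtain ⟨δ₄, h4, U2⟩ := small_mem hN.isOpen hx k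
  refine ⟨min δ₁ (min δ₃ δ₄), by positivity, fun t ht ht' => ?_⟩
  have a1 : t < δ₁ := lt_of_lt_of_le ht' (min_le_left _ _)
  have a3 : t < δ₃ := lt_of_lt_of_le ht' (le_trans (min_le_right _ _) (min_le_left _ _))
  have a4 : t < δ₄ := lt_of_lt_of_le ht' (le_trans (min_le_right _ _) (min_le_right _ _))
  have m1 : x + t • h ∈ U := U1 _ (by rw [abs_of_pos ht]; exact a3)
  have m2 : x + t • k ∈ U := U2 _ (by rw [abs_of_pos ht]; exact a4)
  have m3 : x + (-t) • h ∈ U := U1 _ (by rw [abs_neg, abs_of_pos ht]; exact a3)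
  have m4 : x + (-t) • k ∈ U := U2 _ (by rw [abs_neg, abs_of_pos ht]; exact a4)
  have c1 := hN.lip _ m1 _ m2
  have c2 := hN.lip _ m3 _ m4
  have e1 : x + t • h - (x + t • k) = t • (h - k) := by module
  have e2 : x + (-t) • h - (x + (-t) • k) = (-t) • (h - k) := by module
  rw [e1, norm_smul, Real.norm_eq_abs, abs_of_pos ht] at c1
  rw [e2, norm_smul, Real.norm_eq_abs, abs_neg, abs_of_pos ht] at c2
  have e3 : x + (-t) • h = x - t • h := by module
  have e4 : x + (-t) • k = x - t • k := by module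
  rw [e3, e4] at c2
  have b1 := H1 t ht a1
  have d1 : ‖h - k‖ ≤ ε / (4 * L) := by rw [← dist_eq_norm]; exact hd.le
  have d2 : L * (t * ‖h - k‖) ≤ ε / 4 * t := by
    calc L * (t * ‖h - k‖) ≤ L * (t * (ε / (4 * L))) := by gcongr
      _ = ε / 4 * t := by field_simp
  have f1 := (abs_le.1 c1).2
  have f2 := (abs_le.1 c2).2
  linarith

end

theorem task10 : Task10 := by
  intro W _ _ f U L hN x hx s hs
  apply SD_closure hN hx
  intro h hh
  refine Submodule.span_induction (p := fun h _ => SD f x h) (fun h hh => hs h hh) (SD_zero f x)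
    (fun a b _ _ ha hb => SD_add hN hx ha hb) (fun c a _ ha => SD_smul ha c) hh

end Pool.Agent.H911R3.MS.T10
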