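import Pool.Agent.H911R3.MS.Stmts
import Pool.Agent.H911R3.MS.Asm

set_option autoImplicit false

open Set Filter Topology

namespace Pool.Agent.H911R3.MS.T11

theorem sep (G : Finset T) : ∃ m : ℕ, Set.InjOn (fun (t : T) (i : Fin m) => t i) (G : Set T) := by
  classical
  have h : ∀ p : T × T, ∃ i : ℕ, p.1 ≠ p.2 → p.1 i ≠ p.2 i := by
    intro p
    by_cases hp : p.1 = p.2
    · exact ⟨0, fun h => absurd hp h⟩
    · obtain ⟨i, hi⟩ := Function.ne_iff.1 hp
      exact ⟨i, fun _ => hi⟩
  choose d hd using h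
  refine ⟨(G ×ˢ G).sup d + 1, ?_⟩
  intro t ht t' ht' h
  by_contra hne
  have h1 := hd (t, t') hne
  have h2 : d (t, t') ≤ (G ×ˢ G).sup d :=
    Finset.le_sup (f := d) (Finset.mem_product.2 ⟨ht, ht'⟩)
  have h3 := congrFun h ⟨d (t, t'), Nat.lt_succ_of_le h2⟩
  exact h1 h3

theorem task11 : Pool.Agent.H911R3.MS.Task11 := by
  intro hB W _ _ A S f U L hN sc p b
  classical
  have heps : ∀ j, 0 < eps j := fun j => by unfold eps; positivity
  set E : ℕ → Set T := fun j => {t | ∀ n m, ¬ Light S f (bl (sc.B (res b n))) (eps j) (res t m)}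
    with hE
  have hfin : ∀ j, (E j).Finite := by
    intro j
    by_contra hinf
    obtain ⟨N, hNat⟩ := exists_nat_gt (L / eps j)
    obtain ⟨G, hG, hcard⟩ := Set.Infinite.exists_subset_card_eq hinf N
    obtain ⟨m, hm⟩ := sep G
    have hcard' : (G.image fun (t : T) (i : Fin m) => t i).card = G.card :=
      Finset.card_image_of_injOn hm
    have hb := hB W A S f U L hN (bl (sc.B (res b (max m j + 1))))
      (Metric.ball_subset_closedBall.trans (sc.bl_sub b _)) Metric.isOpen_ball
      ⟨_, Metric.mem_ball_self (sc.pos _)⟩ (eps j) (heps j) m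
      (G.image fun (t : T) (i : Fin m) => t i) (by
        intro c hc
        obtain ⟨t, ht, rfl⟩ := Finset.mem_image.1 hc
        have htE : t ∈ E j := hG ht
        rcases sc.decid b (max m j) (res t m) (le_max_left _ _) j (le_max_right _ _) with h | h
        · exact absurd h (htE _ _)
        · exact h)
    rw [hcard', hcard] at hb
    rw [div_lt_iff₀ (heps j)] at hNat
    linarith
  refine (countable_iUnion fun j => (hfin j).countable).mono ?_
  rintro t ⟨⟨j, hj⟩, -⟩
  exact mem_iUnion.2 ⟨j, fun n m h => hj n m h⟩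

end Pool.Agent.H911R3.MS.T11
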