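import Pool.Agent.H911R3.MS.Stmts

set_option autoImplicit false

/-! Task12 (helper553): the exceptional sets of a scheme are pairwise disjoint. -/

open Set Filter Topology

namespace Pool.Agent.H911R3.MS.T12

open Pool.Agent.H911R3.MS

variable {W : Type} [NormedAddCommGroup W] [NormedSpace ℝ W] {A : Set T}

theorem bl_sub {S : Sys W A} {f : W → ℝ} {U : Set W} (sc : Scheme S f U) (b : T) (n : ℕ) :
    Metric.closedBall (sc.B (res b n)).1 (sc.B (res b n)).2 ⊆ U := by
  induction n with
  | zero => exact sc.root b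
  | succ n ih => exact (sc.nest b n).trans (Metric.ball_subset_closedBall.trans ih)

theorem eps_pos (j : ℕ) : 0 < eps j := by
  unfold eps; positivity

theorem eps_anti {j J : ℕ} (h : j ≤ J) : eps J ≤ eps j := by
  unfold eps
  have : (j : ℝ) ≤ J := by exact_mod_cast h
  apply one_div_le_one_div_of_le (by positivity)
  linarith

theorem light_mono {S : Sys W A} {f : W → ℝ} {V : Set W} {ε ε' : ℝ} (h : ε ≤ ε') {c : Nd}
    (hl : Light S f V ε c) : Light S f V ε' c := by
  intro x hx d hd t ht hxt
  exact (hl x hx d hd t ht hxt).trans (mul_le_mul_of_nonneg_right h ht.le)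

theorem per_mono {S : Sys W A} {f : W → ℝ} {V V' : Set W} {ε : ℝ} (h : V ⊆ V') :
    Per S f ε V' ⊆ Per S f ε V := by
  intro t ht n V'' h1 h2 h3
  exact ht n V'' (h1.trans h) h2 h3

theorem task12 : Task12 := by
  intro hPer W _ _ A S f U L hN sc p hp b b' hbb
  rw [Set.disjoint_left]
  rintro t ⟨⟨j, hj⟩, -⟩ ⟨⟨j', hj'⟩, hk'⟩
  set J := max j j' with hJ
  have h1 : ∀ n m, ¬ Light S f (bl (sc.B (res b n))) (eps J) (res t m) := fun n m hl =>
    hj n m (light_mono (eps_anti (le_max_left _ _)) hl)
  have h2 : ∀ n m, ¬ Light S f (bl (sc.B (res b' n))) (eps J) (res t m) := fun n m hl =>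
    hj' n m (light_mono (eps_anti (le_max_right _ _)) hl)
  obtain ⟨i, hi⟩ : ∃ i, b i ≠ b' i := by
    by_contra hcon
    push Not at hcon
    exact hbb (funext hcon)
  have h3 : ∀ n, i ≤ n → res b (n + 1) ≠ res b' (n + 1) := by
    intro n hn heq
    unfold res at heq
    have h4 := congrFun (eq_of_heq (Sigma.mk.inj heq).2) ⟨i, by omega⟩
    exact hi h4
  set P : ℕ → Set T := fun n => Per S f (eps J) (bl (sc.B (res b' (n + 1)))) with hP
  have hPm : Monotone P := by
    apply monotone_nat_of_le_succ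
    intro n
    exact per_mono (Metric.ball_subset_closedBall.trans (sc.nest b' (n + 1)))
  have hPf : ∀ n, (P n).Finite ∧ ((P n).ncard : ℝ) * eps J ≤ L := by
    intro n
    refine hPer W A S f U L hN _ ?_ Metric.isOpen_ball ?_ (eps J) (eps_pos J)
    · exact Metric.ball_subset_closedBall.trans (bl_sub sc b' (n + 1))
    · exact ⟨_, Metric.mem_ball_self (sc.pos _)⟩
  obtain ⟨N, hNmax⟩ : ∃ N, ∀ n, (P n).ncard ≤ (P N).ncard := by
    have hbdd : BddAbove (range fun n => (P n).ncard) := by
      refine ⟨⌊L / eps J⌋₊, ?_⟩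
      rintro _ ⟨n, rfl⟩
      apply Nat.le_floor
      rw [le_div_iff₀ (eps_pos J)]
      exact (hPf n).2
    obtain ⟨N, hN'⟩ := Nat.sSup_mem (range_nonempty fun n => (P n).ncard) hbdd
    refine ⟨N, fun n => ?_⟩
    have : (P N).ncard = sSup (range fun n => (P n).ncard) := hN'
    rw [this]
    exact le_csSup hbdd ⟨n, rfl⟩
  have hst : ∀ n, N ≤ n → P n = P N := by
    intro n hn
    exact (Set.eq_of_subset_of_ncard_le (hPm hn) (hNmax n) (hPf n).1).symm
  have hex : ∀ q : T, ∃ m, q ≠ t → ∀ n, m ≤ n → res t n ≠ res q n := by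
    intro q
    by_cases hq : q = t
    · exact ⟨0, fun h => absurd hq h⟩
    · obtain ⟨l, hl⟩ : ∃ l, q l ≠ t l := by
        by_contra hcon
        push Not at hcon
        exact hq (funext hcon)
      refine ⟨l + 1, fun _ n hn heq => ?_⟩
      unfold res at heq
      have h4 := congrFun (eq_of_heq (Sigma.mk.inj heq).2) ⟨l, by omega⟩
      exact hl h4.symm
  choose m hm using hex
  set M := (hPf N).1.toFinset.sup m with hM
  set n := max (max M N) (max i J) with hn
  have hn1 : M ≤ n := le_trans (le_max_left _ _) (le_max_left _ _)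
  have hn2 : N ≤ n := le_trans (le_max_right _ _) (le_max_left _ _)
  have hn3 : i ≤ n := le_trans (le_max_left _ _) (le_max_right _ _)
  have hn4 : J ≤ n := le_trans (le_max_right _ _) (le_max_right _ _)
  rcases sc.pair b b' n (h3 n hn3) J hn4 t with ⟨k, hk | hk⟩ | ⟨q, hq, hres⟩
  · exact h1 _ _ hk
  · exact h2 _ _ hk
  · have hqN : q ∈ P N := by
      rw [← hst n hn2]
      exact hq
    have hqt : q = t := by
      by_contra hne
      refine hm q hne n ?_ hres
      refine le_trans ?_ hn1
      exact Finset.le_sup (f := m) ((hPf N).1.mem_toFinset.2 hqN)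
    rw [hqt] at hqN
    obtain ⟨k, hk⟩ := hp b' (N + 1) J t hqN
    exact hk' (N + 1) k hk

end Pool.Agent.H911R3.MS.T12
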