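import Mathlib
import Pool.Agent.H911R3.MS.Stmts

set_option autoImplicit false

/-!
Task 13 of project H911-MS (written by helper782): smoothness at the limit point in the directions
treated by the scheme.
-/

open Set Filter Topology

namespace Pool.Agent.H911R3.MS.T13

open Pool.Agent.H911R3.MS

section
variable {W : Type} [NormedAddCommGroup W] [NormedSpace ℝ W]

lemma key {f : W → ℝ} {U : Set W} (hf : ConvexOn ℝ U f) {x v : W} (hx : x ∈ U) {t0 e : ℝ}
    (ht0 : 0 < t0) (h1 : x + t0 • v ∈ U) (h2 : x - t0 • v ∈ U)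
    (h : f (x + t0 • v) + f (x - t0 • v) - 2 * f x < e * t0) {t : ℝ} (ht : 0 < t) (htt : t ≤ t0) :
    f (x + t • v) + f (x - t • v) - 2 * f x ≤ e * t := by
  set s := t / t0 with hs
  have hs0 : 0 < s := div_pos ht ht0
  have hs1 : s ≤ 1 := (div_le_one ht0).2 htt
  have hst : s * t0 = t := div_mul_cancel₀ t ht0.ne'
  have a1 : f (x + t • v) ≤ (1 - s) * f x + s * f (x + t0 • v) := by
    have := hf.2 hx h1 (show 0 ≤ 1 - s by linarith) hs0.le (by ring)
    have e1 : (1 - s) • x + s • (x + t0 • v) = x + t • v := by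
      rw [smul_add, smul_smul, hst, sub_smul, one_smul]; abel
    rwa [e1, smul_eq_mul, smul_eq_mul] at this
  have a2 : f (x - t • v) ≤ (1 - s) * f x + s * f (x - t0 • v) := by
    have := hf.2 hx h2 (show 0 ≤ 1 - s by linarith) hs0.le (by ring)
    have e1 : (1 - s) • x + s • (x - t0 • v) = x - t • v := by
      rw [smul_sub, smul_smul, hst, sub_smul, one_smul]; abel
    rwa [e1, smul_eq_mul, smul_eq_mul] at this
  have a3 : s * (f (x + t0 • v) + f (x - t0 • v) - 2 * f x) ≤ s * (e * t0) :=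
    mul_le_mul_of_nonneg_left h.le hs0.le
  have a4 : s * (e * t0) = e * t := by rw [← hst]; ring
  rw [a4] at a3
  linarith

lemma sd_of {f : W → ℝ} {U : Set W} (hf : ConvexOn ℝ U f) {x v : W} (hx : x ∈ U)
    (h : ∀ e : ℝ, 0 < e → ∃ t0 : ℝ, 0 < t0 ∧ x + t0 • v ∈ U ∧ x - t0 • v ∈ U ∧
      f (x + t0 • v) + f (x - t0 • v) - 2 * f x < e * t0) : SD f x v := by
  intro ε hε
  obtain ⟨t0, ht0, h1, h2, h3⟩ := h ε hε
  exact ⟨t0, ht0, fun t ht htt => key hf hx ht0 h1 h2 h3 ht htt.le⟩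

end

lemma eps_le {m n : ℕ} (h : m ≤ n) : eps n ≤ eps m := by
  unfold eps
  have : (m : ℝ) ≤ n := by exact_mod_cast h
  apply one_div_le_one_div_of_le <;> [positivity; linarith]

theorem task13 : Task13 := by
  intro W _ _ A S f U L hN sc b x hx
  have hxU : x ∈ U := sc.root b (Metric.ball_subset_closedBall (hx 0))
  have hanti : ∀ n m : ℕ, n ≤ m → bl (sc.B (res b m)) ⊆ bl (sc.B (res b n)) := by
    intro n m hnm
    induction m, hnm using Nat.le_induction with
    | base => exact subset_rfl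
    | succ m _ ih => exact (Metric.ball_subset_closedBall.trans (sc.nest b m)).trans ih
  have main : ∀ (v : W) (N : ℕ), (∀ n, N ≤ n → ∃ t : ℝ, 0 < t ∧ ∀ y ∈ bl (sc.B (res b (n + 1))),
        y + t • v ∈ U ∧ y - t • v ∈ U ∧ f (y + t • v) + f (y - t • v) - 2 * f y < eps n * t) →
      SD f x v := by
    intro v N h
    refine sd_of hN.conv hxU fun e he => ?_
    obtain ⟨n0, hn0⟩ := exists_nat_one_div_lt he
    obtain ⟨t, ht, hy⟩ := h (max n0 N) (le_max_right _ _)
    obtain ⟨h1, h2, h3⟩ := hy x (hx _)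
    refine ⟨t, ht, h1, h2, h3.trans_le ?_⟩
    have h4 : eps (max n0 N) ≤ e := (eps_le (le_max_left n0 N)).trans hn0.le
    exact mul_le_mul_of_nonneg_right h4 ht.le
  refine ⟨fun k => main _ k fun n hn => sc.diff b n _ (Or.inl ⟨k, hn, rfl⟩), ?_⟩
  rintro a ha ⟨j, n, hper⟩
  refine main _ (max n j) fun n' hn' => sc.diff b n' _ (Or.inr ⟨a, ha, ⟨j, (le_max_right n j).trans hn', ?_⟩, rfl⟩)
  intro m V' hV' ho hne
  exact hper m V' (hV'.trans (hanti n n' ((le_max_left n j).trans hn'))) ho hne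

end Pool.Agent.H911R3.MS.T13
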