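import Pool.Agent.H911R3.MS.Stmts

set_option autoImplicit false

/-! Task14 (helper62). -/

open Set Filter Topology

namespace Pool.Agent.H911R3.MS.T14

open Pool.Agent.H911R3.MS

theorem exists_small {W : Type} [NormedAddCommGroup W] [NormedSpace ℝ W] {O : Set W}
    (hO : IsOpen O) {x : W} (hx : x ∈ O) (v : W) :
    ∃ δ : ℝ, 0 < δ ∧ ∀ t : ℝ, 0 < t → t < δ → x + t • v ∈ O := by
  have hc : Continuous (fun t : ℝ => x + t • v) := by fun_prop
  have h1 : IsOpen ((fun t : ℝ => x + t • v) ⁻¹' O) := hO.preimage hc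
  have h2 : (0 : ℝ) ∈ (fun t : ℝ => x + t • v) ⁻¹' O := by simpa using hx
  obtain ⟨δ, hδ, hball⟩ := Metric.isOpen_iff.1 h1 0 h2
  refine ⟨δ, hδ, fun t ht0 htδ => hball ?_⟩
  rw [Metric.mem_ball, Real.dist_eq, sub_zero, abs_of_pos ht0]
  exact htδ

theorem task14 : Task14 := by
  intro hSub W _ _ A S f U L hN x hx hw a ha hl ε hε
  obtain ⟨j, hj⟩ := exists_nat_one_div_lt (show (0 : ℝ) < ε / 4 by positivity)
  obtain ⟨V, hVo, hxV, m, hlight⟩ := hl j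
  have hr : SD f x (S.r (res a m)) := by
    refine hSub W f U L hN x hx (range S.w) ?_ _ (subset_closure (S.r_mem (res a m)))
    rintro _ ⟨k, rfl⟩
    exact hw k
  have hq : S.g a - S.r (res a m) ∈ S.Q (res a m) := S.g_sub a ha m
  have hq' := S.Q_neg _ _ hq
  obtain ⟨r, hrdef⟩ : ∃ r, r = S.r (res a m) := ⟨_, rfl⟩
  obtain ⟨q, hqdef⟩ : ∃ q, q = S.g a - S.r (res a m) := ⟨_, rfl⟩
  rw [← hqdef] at hq hq'
  rw [← hrdef] at hr
  have hg : S.g a = r + q := by rw [hrdef, hqdef]; abel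
  rw [hg]
  obtain ⟨δ0, hδ0, h0⟩ := hr (ε / 2) (by positivity)
  obtain ⟨δ1, hδ1, h1⟩ := exists_small (hVo.inter hN.isOpen) ⟨hxV, hx⟩ q
  obtain ⟨δ2, hδ2, h2⟩ := exists_small (hVo.inter hN.isOpen) ⟨hxV, hx⟩ (-q)
  obtain ⟨δ3, hδ3, h3⟩ := exists_small hN.isOpen hx r
  obtain ⟨δ4, hδ4, h4⟩ := exists_small hN.isOpen hx (-r)
  refine ⟨min (δ0 / 2) (min (min (δ1 / 2) (δ2 / 2)) (min (δ3 / 2) (δ4 / 2))), by positivity, ?_⟩
  intro t ht0 ht
  simp only [lt_min_iff] at ht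
  obtain ⟨t0, ⟨t1, t2⟩, t3, t4⟩ := ht
  have ht2 : 0 < 2 * t := by linarith
  have a0 := h0 (2 * t) ht2 (by linarith)
  have a1 := h1 (2 * t) ht2 (by linarith)
  have a2 := h2 (2 * t) ht2 (by linarith)
  have a3 := h3 (2 * t) ht2 (by linarith)
  have a4 := h4 (2 * t) ht2 (by linarith)
  have l1 := hlight x hxV q hq (2 * t) ht2 a1.1
  have l2 := hlight x hxV (-q) hq' (2 * t) ht2 a2.1
  have hje : eps j ≤ ε / 4 := hj.le
  have hhalf : (0 : ℝ) ≤ 1 / 2 := by norm_num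
  have c1 := hN.conv.2 a3 a1.2 hhalf hhalf (by norm_num)
  have c2 := hN.conv.2 a4 a2.2 hhalf hhalf (by norm_num)
  have e1 : (1 / 2 : ℝ) • (x + (2 * t) • r) + (1 / 2 : ℝ) • (x + (2 * t) • q) =
      x + t • (r + q) := by module
  have e2 : (1 / 2 : ℝ) • (x + (2 * t) • (-r)) + (1 / 2 : ℝ) • (x + (2 * t) • (-q)) =
      x - t • (r + q) := by module
  have e3 : x - (2 * t) • r = x + (2 * t) • (-r) := by module
  rw [e1] at c1
  rw [e2] at c2
  rw [e3] at a0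
  simp only [smul_eq_mul] at c1 c2
  have l3 : eps j * (2 * t) ≤ ε / 4 * (2 * t) := mul_le_mul_of_nonneg_right hje ht2.le
  linarith

end Pool.Agent.H911R3.MS.T14
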