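import Pool.Agent.H911R3.MS.Stmts

set_option autoImplicit false

open Set Filter Topology

namespace Pool.Agent.H911R3.MS.T15

/-- Subgradients of continuous convex functions. -/
theorem exists_subgradient {W : Type} [NormedAddCommGroup W] [NormedSpace ℝ W] {D : Set W}
    (hD : IsOpen D) {f : W → ℝ} (hf : ContinuousOn f D) (hc : ConvexOn ℝ D f) {x : W}
    (hx : x ∈ D) : ∃ φ : W →L[ℝ] ℝ, ∀ y ∈ D, φ (y - x) ≤ f y - f x := by
  have hopen : IsOpen {p : W × ℝ | p.1 ∈ D ∧ f p.1 < p.2} := by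
    rw [isOpen_iff_mem_nhds]
    rintro ⟨y, s⟩ ⟨hy, hs⟩
    simp only at hy hs
    have h1 : ∀ᶠ p : W × ℝ in 𝓝 (y, s), p.1 ∈ D :=
      (continuous_fst.continuousAt (x := (y, s))).eventually (hD.mem_nhds hy)
    have h2 : ContinuousAt (fun p : W × ℝ => f p.1) (y, s) :=
      ContinuousAt.comp (f := Prod.fst) (g := f) (x := (y, s)) (hf.continuousAt (hD.mem_nhds hy))
        continuous_fst.continuousAt
    have h3 : ∀ᶠ p : W × ℝ in 𝓝 (y, s), f p.1 < p.2 :=
      h2.eventually_lt continuous_snd.continuousAt hs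
    exact h1.and h3
  have hconv : Convex ℝ {p : W × ℝ | p.1 ∈ D ∧ f p.1 < p.2} := hc.convex_strict_epigraph
  have hnot : ((x, f x) : W × ℝ) ∉ {p : W × ℝ | p.1 ∈ D ∧ f p.1 < p.2} := by
    rintro ⟨_, h⟩
    exact lt_irrefl _ h
  obtain ⟨F, hF⟩ := geometric_hahn_banach_open_point hconv hopen hnot
  set c := F ((0 : W), (1 : ℝ)) with hcdef
  have key : ∀ (y : W) (s : ℝ), F (y, s) = F (y, 0) + s * c := by
    intro y s
    have : ((y, s) : W × ℝ) = (y, 0) + s • ((0 : W), (1 : ℝ)) := by simp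
    rw [this, map_add, map_smul, smul_eq_mul]
  have hcneg : c < 0 := by
    have h := hF (x, f x + 1) ⟨hx, by simp⟩
    rw [key x, key x (f x)] at h
    nlinarith
  have hle : ∀ y ∈ D, F (y, 0) + f y * c ≤ F (x, 0) + f x * c := by
    intro y hy
    refine le_of_forall_pos_lt_add fun ε hε => ?_
    have h := hF (y, f y + ε / (-c)) ⟨hy, by
      simp only [lt_add_iff_pos_right]
      exact div_pos hε (by linarith)⟩
    rw [key y, key x (f x)] at h
    have hc0 : c ≠ 0 := hcneg.ne
    have e : (f y + ε / (-c)) * c = f y * c - ε := by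
      rw [add_mul, div_neg, neg_mul, div_mul_cancel₀ _ hc0]
      ring
    rw [e] at h
    linarith
  refine ⟨(-c)⁻¹ • (F.comp (ContinuousLinearMap.inl ℝ W ℝ)), fun y hy => ?_⟩
  have h := hle y hy
  have e1 : F (y - x, 0) = F (y, 0) - F (x, 0) := by
    rw [← map_sub]
    congr 1
    simp
  simp only [smul_apply, ContinuousLinearMap.comp_apply,
    ContinuousLinearMap.inl_apply, smul_eq_mul]
  rw [e1, inv_mul_le_iff₀ (by linarith)]
  linarith

theorem task15 : Task15 := by
  intro W _ _ D hD f hf hc x hx hSD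
  obtain ⟨φ, hφ⟩ := exists_subgradient hD hf hc hx
  refine ⟨φ, fun h => ?_⟩
  rw [Metric.tendsto_nhdsWithin_nhds]
  intro ε hε
  obtain ⟨δ, hδ, hs⟩ := hSD h (ε / 2) (by linarith)
  have hcont : ContinuousAt (fun t : ℝ => x + t • h) 0 := by fun_prop
  have hev : ∀ᶠ t : ℝ in 𝓝 0, x + t • h ∈ D := by
    apply hcont.eventually
    have : (fun t : ℝ => x + t • h) 0 = x := by simp
    rw [this]
    exact hD.mem_nhds hx
  obtain ⟨δ', hδ', hs'⟩ := Metric.eventually_nhds_iff.1 hev
  refine ⟨min δ δ', lt_min hδ hδ', fun {t} ht hd => ?_⟩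
  have ht0 : t ≠ 0 := ht
  rw [Real.dist_eq, sub_zero] at hd
  have hd1 := lt_of_lt_of_le hd (min_le_left _ _)
  have hd2 := lt_of_lt_of_le hd (min_le_right _ _)
  have hmem : ∀ s : ℝ, |s| = |t| → x + s • h ∈ D := by
    intro s hst
    apply hs'
    rw [Real.dist_eq, sub_zero, hst]
    exact hd2
  have key : ∀ s : ℝ, 0 < s → s = |t| → |(f (x + s • h) - f x) / s - φ h| ≤ ε / 2 ∧
      |(f (x + (-s) • h) - f x) / (-s) - φ h| ≤ ε / 2 := by
    intro s hs0 hst
    have hsabs : |s| = |t| := by rw [abs_of_pos hs0, hst]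
    have h1 := hφ _ (hmem s hsabs)
    have h2 := hφ _ (hmem (-s) (by rw [abs_neg, hsabs]))
    have h3 := hs s hs0 (by rw [hst]; exact hd1)
    have e1 : x + s • h - x = s • h := by abel
    have e2 : x + (-s) • h - x = (-s) • h := by abel
    have e3 : x - s • h = x + (-s) • h := by rw [neg_smul]; abel
    rw [e1, map_smul, smul_eq_mul] at h1
    rw [e2, map_smul, smul_eq_mul] at h2
    rw [e3] at h3
    constructor
    · rw [abs_le]
      constructor
      · rw [le_sub_iff_add_le, le_div_iff₀ hs0]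
        nlinarith
      · rw [sub_le_iff_le_add, div_le_iff₀ hs0]
        nlinarith
    · have e4 : (f (x + (-s) • h) - f x) / (-s) = (f x - f (x + (-s) • h)) / s := by
        rw [div_neg, ← neg_div, neg_sub]
      rw [e4, abs_le]
      constructor
      · rw [le_sub_iff_add_le, le_div_iff₀ hs0]
        nlinarith
      · rw [sub_le_iff_le_add, div_le_iff₀ hs0]
        nlinarith
  rw [Real.dist_eq]
  rcases lt_or_gt_of_ne ht0 with hneg | hpos
  · have := (key (-t) (by linarith) (abs_of_neg hneg).symm).2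
    rw [neg_neg] at this
    linarith
  · have := (key t hpos (abs_of_pos hpos).symm).1
    linarith

end Pool.Agent.H911R3.MS.T15
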