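import Pool.Agent.H911R3.MS.Stmts

/-! Task16 (StLip) of project H911-MS -/

set_option autoImplicit false

open Set Filter Topology

namespace Pool.Agent.H911R3.MS.T16

theorem task16 : Pool.Agent.H911R3.MS.Task16 := by
  intro W _ _ D hD f hf hc V hVD hV hVn
  obtain ⟨x, hx⟩ := hVn
  have h1 := (hc.locallyLipschitzOn_iff_continuousOn hD).mpr hf
  obtain ⟨K, t, ht, hK⟩ := h1 (hVD hx)
  rw [hD.nhdsWithin_eq (hVD hx)] at ht
  obtain ⟨r, hr, hrt⟩ := Metric.mem_nhds_iff.mp (inter_mem ht (hV.mem_nhds hx))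
  refine ⟨Metric.ball x r, (K : ℝ) + 1, fun y hy => (hrt hy).2, ?_⟩
  refine ⟨Metric.isOpen_ball, ⟨x, Metric.mem_ball_self hr⟩,
    hc.subset (fun y hy => hVD (hrt hy).2) (convex_ball x r), by positivity, ?_⟩
  intro y hy z hz
  have h2 := hK.dist_le_mul y (hrt hy).1 z (hrt hz).1
  rw [Real.dist_eq, dist_eq_norm] at h2
  nlinarith [norm_nonneg (y - z)]

end Pool.Agent.H911R3.MS.T16
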