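import Pool.Agent.H911R3.MS.Stmts

set_option autoImplicit false

open Set Filter Topology

namespace Pool.Agent.H911R3.MS.T17

theorem res_eq_iff (a t : T) (k : ℕ) : res t k = res a k ↔ ∀ i < k, t i = a i := by
  unfold res
  constructor
  · intro h i hi
    have h2 := (Sigma.mk.inj_iff.1 h).2
    have h3 := congrFun (eq_of_heq h2) ⟨i, hi⟩
    exact h3
  · intro h
    refine Sigma.mk.inj_iff.2 ⟨rfl, heq_of_eq ?_⟩
    funext i
    exact h i i.2

theorem cyl_eq (a t : T) (k : ℕ) :
    cylF (res a k) t = open Classical in if ∀ i < k, t i = a i then 1 else 0 := by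
  classical
  unfold cylF
  have : (res t (res a k).1 = res a k) ↔ ∀ i < k, t i = a i := res_eq_iff a t k
  by_cases h : ∀ i < k, t i = a i
  · rw [if_pos (this.2 h), if_pos h]
  · rw [if_neg (fun hh => h (this.1 hh)), if_neg h]

theorem cyl_ne (a t : T) (h : a ≠ t) (k : ℕ) :
    cylF (res a k) t = if k ≤ PiNat.firstDiff a t then 1 else 0 := by
  classical
  rw [cyl_eq]
  by_cases hk : k ≤ PiNat.firstDiff a t
  · rw [if_pos hk, if_pos]
    intro i hi
    exact (PiNat.apply_eq_of_lt_firstDiff (lt_of_lt_of_le hi hk)).symm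
  · rw [if_neg hk, if_neg]
    intro hh
    exact PiNat.apply_firstDiff_ne h (hh _ (not_le.1 hk)).symm

theorem cyl_self (a : T) (k : ℕ) : cylF (res a k) a = 1 := by
  classical
  rw [cyl_eq]; simp

/-- extension of a word by zeros -/
def ext0 (c : Nd) : T := fun i => if h : i < c.1 then c.2 ⟨i, h⟩ else false

theorem res_ext0 (a : T) (n k : ℕ) (hk : k ≤ n) : res (ext0 (res a n)) k = res a k := by
  rw [res_eq_iff]
  intro i hi
  unfold ext0 res
  simp only
  rw [dif_pos (lt_of_lt_of_le hi hk)]

noncomputable def r (c : Nd) : LT :=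
  ∑ k ∈ (Finset.range c.1).filter (fun k => Even k),
    (cylE (res (ext0 c) k) - cylE (res (ext0 c) (k + 1)))

theorem r_mem (c : Nd) : r c ∈ Submodule.span ℝ (range cylE) := by
  unfold r
  refine Submodule.sum_mem _ fun k _ => Submodule.sub_mem _ ?_ ?_
  · exact Submodule.subset_span ⟨_, rfl⟩
  · exact Submodule.subset_span ⟨_, rfl⟩

theorem r_apply (a t : T) (n : ℕ) : (r (res a n) : LT) t =
    ∑ k ∈ (Finset.range n).filter (fun k => Even k),
      (cylF (res a k) t - cylF (res a (k + 1)) t) := by
  have h1 : ∀ (s : Finset ℕ) (F : ℕ → LT), ((∑ k ∈ s, F k : LT) : LT) t = ∑ k ∈ s, (F k : LT) t := by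
    intro s F
    classical
    induction s using Finset.induction_on with
    | empty => simp
    | insert b s hb ih => rw [Finset.sum_insert hb, Finset.sum_insert hb, lp.coeFn_add,
        Pi.add_apply, ih]
  unfold r
  rw [h1]
  refine Finset.sum_congr rfl fun k hk => ?_
  have hk' : k < n := Finset.mem_range.1 (Finset.mem_filter.1 hk).1
  rw [res_ext0 a n k hk'.le, res_ext0 a n (k + 1) hk', lp.coeFn_sub, Pi.sub_apply, cylE_apply,
    cylE_apply]

theorem stG : StG := by
  refine ⟨r, r_mem, fun a n t => ?_⟩
  classical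
  rw [r_apply]
  by_cases h : a = t
  · subst h
    simp only [cyl_self, sub_self, Finset.sum_const_zero, gF, ne_eq, not_true_eq_false, false_and,
      if_false, abs_zero]
    norm_num
  · have e1 : ∑ k ∈ (Finset.range n).filter (fun k => Even k),
        (cylF (res a k) t - cylF (res a (k + 1)) t) =
        if PiNat.firstDiff a t < n ∧ Even (PiNat.firstDiff a t) then (1:ℝ) else 0 := by
      have e2 : ∀ k, cylF (res a k) t - cylF (res a (k + 1)) t =
          if k = PiNat.firstDiff a t then (1:ℝ) else 0 := by
        intro k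
        rw [cyl_ne a t h, cyl_ne a t h]
        rcases lt_trichotomy k (PiNat.firstDiff a t) with hk | hk | hk
        · rw [if_pos hk.le, if_pos (by omega), if_neg (by omega)]; ring
        · rw [if_pos (by omega), if_neg (by omega), if_pos hk]; ring
        · rw [if_neg (by omega), if_neg (by omega), if_neg (by omega)]; ring
      simp only [e2]
      rw [Finset.sum_ite_eq']
      simp only [Finset.mem_filter, Finset.mem_range]
    rw [e1, cyl_ne a t h]
    unfold gF
    by_cases hn : PiNat.firstDiff a t < n
    · by_cases he : Even (PiNat.firstDiff a t)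
      · rw [if_pos ⟨fun hh => h hh.symm, he⟩, if_pos ⟨hn, he⟩]
        split_ifs <;> norm_num
      · rw [if_neg (fun hh => he hh.2), if_neg (fun hh => he hh.2)]
        split_ifs <;> norm_num
    · have e3 : ¬ (PiNat.firstDiff a t < n ∧ Even (PiNat.firstDiff a t)) := fun hh => hn hh.1
      rw [if_neg e3, if_pos (not_lt.1 hn)]
      split_ifs <;> norm_num

end Pool.Agent.H911R3.MS.T17

namespace Pool.Agent.H911R3.MS

theorem task17 : Task17 := T17.stG

end Pool.Agent.H911R3.MS
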