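import Pool.Agent.H911R3.MS.Stmts

/-!
# H911-MS, Task18: the space `X_A × Z` fits the abstract scheme
-/

set_option autoImplicit false

open Set Filter Topology

namespace Pool.Agent.H911R3.MS.T18

theorem res_eq {s t : T} {n : ℕ} : res s n = res t n ↔ ∀ i : Fin n, s i = t i := by
  unfold res
  constructor
  · intro h i
    have h2 := eq_of_heq (Sigma.mk.inj h).2
    exact congrFun h2 i
  · intro h
    have : (fun i : Fin n => s i) = fun i : Fin n => t i := funext h
    rw [this]

theorem cylF_res_succ (t s : T) (n : ℕ) : cylF (res t (n + 1)) s ≤ cylF (res t n) s := by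
  have e1 : cylF (res t (n + 1)) s = if res s (n + 1) = res t (n + 1) then 1 else 0 := by
    unfold cylF; congr
  have e2 : cylF (res t n) s = if res s n = res t n then 1 else 0 := by
    unfold cylF; congr
  rw [e1, e2]
  by_cases h : res s (n + 1) = res t (n + 1)
  · have h2 : res s n = res t n := by
      rw [res_eq] at h ⊢
      exact fun i => h i.castSucc
    rw [if_pos h, if_pos h2]
  · rw [if_neg h]
    split_ifs <;> norm_num

theorem sum_cylF (n : ℕ) (S : Finset (Fin n → Bool)) (t : T) :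
    ∑ c ∈ S, cylF ⟨n, c⟩ t ≤ 1 := by
  classical
  have e : ∀ c : Fin n → Bool, cylF ⟨n, c⟩ t = if (fun i : Fin n => t i) = c then 1 else 0 := by
    intro c
    have e1 : cylF ⟨n, c⟩ t = if res t n = ⟨n, c⟩ then 1 else 0 := by
      unfold cylF; congr
    rw [e1]
    have h : res t n = ⟨n, c⟩ ↔ (fun i : Fin n => t i) = c := by
      unfold res
      constructor
      · intro h
        exact eq_of_heq (Sigma.mk.inj h).2
      · intro h
        rw [h]
    simp only [h]
  simp only [e]
  rw [Finset.sum_ite_eq]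
  split_ifs <;> norm_num

theorem span_cyl_le (A : Set T) : Submodule.span ℝ (range cylE) ≤ XA A :=
  (Submodule.span_mono subset_union_left).trans (Submodule.le_topologicalClosure _)

theorem cylE_mem (A : Set T) (c : Nd) : cylE c ∈ XA A :=
  span_cyl_le A (Submodule.subset_span ⟨c, rfl⟩)

theorem gE_mem {A : Set T} {a : T} (ha : a ∈ A) : gE a ∈ XA A :=
  Submodule.le_topologicalClosure _ (Submodule.subset_span (Or.inr ⟨a, ha, rfl⟩))

/-- lift of a span membership -/
theorem span_lift {A : Set T} {Z : Type} [NormedAddCommGroup Z] [NormedSpace ℝ Z]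
    (s : Set LT) (P : Submodule ℝ (XA A × Z))
    (h : ∀ x ∈ s, ∃ hx : x ∈ XA A, ((⟨x, hx⟩ : XA A), (0 : Z)) ∈ P) :
    ∀ x ∈ Submodule.span ℝ s, ∃ hx : x ∈ XA A, ((⟨x, hx⟩ : XA A), (0 : Z)) ∈ P := by
  intro x hx
  induction hx using Submodule.span_induction with
  | mem x hx => exact h x hx
  | zero => exact ⟨(XA A).zero_mem, P.zero_mem⟩
  | add x y _ _ hx hy =>
    obtain ⟨hx1, hx2⟩ := hx
    obtain ⟨hy1, hy2⟩ := hy
    refine ⟨(XA A).add_mem hx1 hy1, ?_⟩
    have := P.add_mem hx2 hy2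
    simpa using this
  | smul r x _ hx =>
    obtain ⟨hx1, hx2⟩ := hx
    refine ⟨(XA A).smul_mem r hx1, ?_⟩
    have := P.smul_mem r hx2
    simpa using this

theorem task18 : Pool.Agent.H911R3.MS.Task18 := by
  classical
  intro hG A Z _ _ _
  obtain ⟨r, hr1, hr2⟩ := hG
  let S0 : Set (XA A × Z) := range (fun c : Nd => ((⟨cylE c, cylE_mem A c⟩ : XA A), (0 : Z))) ∪
    range (fun k : ℕ => ((0 : XA A), TopologicalSpace.denseSeq Z k))
  have hS0 : S0.Countable := (countable_range _).union (countable_range _)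
  have hS0n : S0.Nonempty := ⟨_, Or.inr ⟨0, rfl⟩⟩
  obtain ⟨w, hw⟩ := hS0.exists_eq_range hS0n
  let g : T → XA A × Z := fun a => if h : a ∈ A then ((⟨gE a, gE_mem h⟩ : XA A), (0 : Z)) else 0
  have hcyl : ∀ (P : Submodule ℝ (XA A × Z)), range w ⊆ P → ∀ x ∈ range cylE,
      ∃ hx : x ∈ XA A, ((⟨x, hx⟩ : XA A), (0 : Z)) ∈ P := by
    rintro P hP _ ⟨c, rfl⟩
    refine ⟨cylE_mem A c, hP ?_⟩
    rw [← hw]
    exact Or.inl ⟨c, rfl⟩
  refine ⟨{
    w := w
    g := g
    r := fun c => ((⟨r c, span_cyl_le A (hr1 c)⟩ : XA A), (0 : Z))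
    Q := fun c => {q | q.2 = 0 ∧ ∀ t, |((q.1 : XA A) : LT) t| ≤ cylF c t}
    r_mem := ?_
    g_sub := ?_
    Q_neg := ?_
    Q_mono := ?_
    Q_sum := ?_
    dense_span := ?_ }⟩
  · intro c
    obtain ⟨hx, h⟩ := span_lift (range cylE) (Submodule.span ℝ (range w))
      (hcyl _ Submodule.subset_span) (r c) (hr1 c)
    exact h
  · intro a ha n
    have : g a = ((⟨gE a, gE_mem ha⟩ : XA A), (0 : Z)) := dif_pos ha
    rw [this]
    refine ⟨by simp, fun t => ?_⟩
    exact hr2 a n t
  · rintro c h ⟨h1, h2⟩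
    refine ⟨by simp [h1], fun t => ?_⟩
    have := h2 t
    rw [← abs_neg] at this
    exact this
  · rintro t n h ⟨h1, h2⟩
    exact ⟨h1, fun s => (h2 s).trans (cylF_res_succ t s n)⟩
  · intro n S h hS
    have h2 : (∑ c ∈ S, h c).2 = 0 := by
      rw [Prod.snd_sum]
      exact Finset.sum_eq_zero fun c hc => (hS c hc).1
    rw [Prod.norm_def, h2, norm_zero]
    refine max_le ?_ zero_le_one
    rw [Submodule.coe_norm]
    refine lp.norm_le_of_forall_le zero_le_one fun t => ?_
    have e : (((∑ c ∈ S, h c).1 : XA A) : LT) t = ∑ c ∈ S, (((h c).1 : XA A) : LT) t := by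
      rw [Prod.fst_sum, Submodule.coe_sum, lp.coeFn_sum, Finset.sum_apply]
    rw [e, Real.norm_eq_abs]
    calc |∑ c ∈ S, (((h c).1 : XA A) : LT) t| ≤ ∑ c ∈ S, |(((h c).1 : XA A) : LT) t| :=
          Finset.abs_sum_le_sum_abs _ _
      _ ≤ ∑ c ∈ S, cylF ⟨n, c⟩ t := Finset.sum_le_sum fun c hc => (hS c hc).2 t
      _ ≤ 1 := sum_cylF n S t
  · set P := Submodule.span ℝ (range w ∪ g '' A) with hP
    have hwP : range w ⊆ P := subset_union_left.trans Submodule.subset_span
    have hgP : ∀ x ∈ range cylE ∪ gE '' A, ∃ hx : x ∈ XA A, ((⟨x, hx⟩ : XA A), (0 : Z)) ∈ P := by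
      rintro x (hx | ⟨a, ha, rfl⟩)
      · exact hcyl P hwP x hx
      · refine ⟨gE_mem ha, ?_⟩
        have : g a = ((⟨gE a, gE_mem ha⟩ : XA A), (0 : Z)) := dif_pos ha
        rw [← this]
        exact Submodule.subset_span (Or.inr ⟨a, ha, rfl⟩)
    have hlift := span_lift _ P hgP
    have h1 : ∀ x : XA A, (x, (0 : Z)) ∈ P.topologicalClosure := by
      intro x
      have hx : x ∈ closure {y : XA A | (y, (0 : Z)) ∈ P} := by
        rw [closure_subtype]
        have hx2 : (x : LT) ∈ closure (Submodule.span ℝ (range cylE ∪ gE '' A) : Set LT) := x.2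
        refine closure_mono ?_ hx2
        intro y hy
        obtain ⟨hy1, hy2⟩ := hlift y hy
        exact ⟨⟨y, hy1⟩, hy2, rfl⟩
      have hc : Continuous (fun y : XA A => (y, (0 : Z))) := by fun_prop
      have h3 : (fun y : XA A => (y, (0 : Z))) x ∈ closure (P : Set (XA A × Z)) :=
        map_mem_closure (f := fun y : XA A => (y, (0 : Z))) hc hx (fun y hy => hy)
      exact h3
    have h2 : ∀ z : Z, ((0 : XA A), z) ∈ P.topologicalClosure := by
      intro z
      have hz : z ∈ closure (range (TopologicalSpace.denseSeq Z)) :=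
        TopologicalSpace.denseRange_denseSeq Z z
      have hc : Continuous (fun y : Z => ((0 : XA A), y)) := by fun_prop
      have h3 : (fun y : Z => ((0 : XA A), y)) z ∈ closure (P : Set (XA A × Z)) := by
        refine map_mem_closure (f := fun y : Z => ((0 : XA A), y)) hc hz ?_
        rintro _ ⟨k, rfl⟩
        refine hwP ?_
        rw [← hw]
        exact Or.inr ⟨k, rfl⟩
      exact h3
    rintro ⟨x, z⟩
    have h3 := P.topologicalClosure.add_mem (h1 x) (h2 z)
    have h4 : (x, (0 : Z)) + ((0 : XA A), z) = (x, z) := by simp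
    rw [h4] at h3
    exact h3

end Pool.Agent.H911R3.MS.T18
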