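import Pool.Agent.H911R3.MS.Stmts

/-!
Task19: one step of the Cantor scheme in `X_A`.
-/

set_option autoImplicit false

open Set Filter Topology

namespace Pool.Agent.H911R3.MS.T19

open Pool.Agent.H911R3.MS

/-- local constancy away from a finite set and constancy along odd first differences -/
def Prp (y : LT) : Prop :=
  (∃ G : Set T, G.Finite ∧ ∀ t ∉ G, ∃ n : ℕ, ∀ t' : T, (∀ i < n, t' i = t i) →
    (y : LT) t' = (y : LT) t) ∧
  ∀ t : T, ∃ n : ℕ, ∀ t' : T, t' ≠ t → (∀ i < n, t' i = t i) →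
    ¬ Even (PiNat.firstDiff t t') → (y : LT) t' = (y : LT) t

lemma res_eq {t t' : T} {n : ℕ} (h : ∀ i < n, t' i = t i) : res t' n = res t n := by
  unfold res
  congr 1
  funext i
  exact h i i.2

lemma prp_cyl (c : Nd) : Prp (cylE c) := by
  have key : ∀ t t' : T, (∀ i < c.1, t' i = t i) → (cylE c : LT) t' = (cylE c : LT) t := by
    intro t t' h
    rw [cylE_apply, cylE_apply]
    unfold cylF
    rw [res_eq h]
  refine ⟨⟨∅, Set.finite_empty, fun t _ => ⟨c.1, fun t' h => key t t' h⟩⟩, fun t => ⟨c.1, ?_⟩⟩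
  intro t' _ h _
  exact key t t' h

lemma firstDiff_agree {a t t' : T} (hat : a ≠ t)
    (h : ∀ i < PiNat.firstDiff a t + 1, t' i = t i) :
    t' ≠ a ∧ PiNat.firstDiff a t' = PiNat.firstDiff a t := by
  have h1 : a (PiNat.firstDiff a t) ≠ t (PiNat.firstDiff a t) := PiNat.apply_firstDiff_ne hat
  have h2 : t' (PiNat.firstDiff a t) = t (PiNat.firstDiff a t) := h _ (Nat.lt_succ_self _)
  have hne : a ≠ t' := by
    intro he
    apply h1
    rw [← h2]
    exact congrFun he _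
  refine ⟨hne.symm, ?_⟩
  apply le_antisymm
  · by_contra hlt
    push Not at hlt
    have := PiNat.apply_eq_of_lt_firstDiff (x := a) (y := t') hlt
    exact h1 (by rw [this, h2])
  · by_contra hlt
    push Not at hlt
    have h3 : a (PiNat.firstDiff a t') ≠ t' (PiNat.firstDiff a t') := PiNat.apply_firstDiff_ne hne
    apply h3
    rw [PiNat.apply_eq_of_lt_firstDiff (x := a) (y := t) hlt]
    exact (h _ (hlt.trans (Nat.lt_succ_self _))).symm

lemma prp_g (a : T) : Prp (gE a) := by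
  have key : ∀ t : T, t ≠ a → ∃ n : ℕ, ∀ t' : T, (∀ i < n, t' i = t i) →
      (gE a : LT) t' = (gE a : LT) t := by
    intro t hta
    refine ⟨PiNat.firstDiff a t + 1, fun t' h => ?_⟩
    obtain ⟨h1, h2⟩ := firstDiff_agree hta.symm h
    rw [gE_apply, gE_apply]
    unfold gF
    rw [h2]
    simp [h1, hta]
  refine ⟨⟨{a}, Set.finite_singleton a, fun t ht => key t (by simpa using ht)⟩, fun t => ?_⟩
  by_cases hta : t = a
  · subst hta
    refine ⟨0, fun t' _ _ hodd => ?_⟩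
    rw [gE_apply, gE_apply]
    unfold gF
    rw [if_neg (by tauto), if_neg (by tauto)]
  · obtain ⟨n, hn⟩ := key t hta
    exact ⟨n, fun t' _ h _ => hn t' h⟩

lemma prp_add {x y : LT} (hx : Prp x) (hy : Prp y) : Prp (x + y) := by
  obtain ⟨⟨G, hG, h1⟩, h2⟩ := hx
  obtain ⟨⟨G', hG', h1'⟩, h2'⟩ := hy
  refine ⟨⟨G ∪ G', hG.union hG', fun t ht => ?_⟩, fun t => ?_⟩
  · rw [Set.mem_union, not_or] at ht
    obtain ⟨n, hn⟩ := h1 t ht.1
    obtain ⟨n', hn'⟩ := h1' t ht.2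
    refine ⟨max n n', fun t' h => ?_⟩
    rw [lp.coeFn_add, Pi.add_apply, Pi.add_apply,
      hn t' (fun i hi => h i (lt_of_lt_of_le hi (le_max_left _ _))),
      hn' t' (fun i hi => h i (lt_of_lt_of_le hi (le_max_right _ _)))]
  · obtain ⟨n, hn⟩ := h2 t
    obtain ⟨n', hn'⟩ := h2' t
    refine ⟨max n n', fun t' hne h ho => ?_⟩
    rw [lp.coeFn_add, Pi.add_apply, Pi.add_apply,
      hn t' hne (fun i hi => h i (lt_of_lt_of_le hi (le_max_left _ _))) ho,
      hn' t' hne (fun i hi => h i (lt_of_lt_of_le hi (le_max_right _ _))) ho]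

lemma prp_smul (c : ℝ) {x : LT} (hx : Prp x) : Prp (c • x) := by
  obtain ⟨⟨G, hG, h1⟩, h2⟩ := hx
  refine ⟨⟨G, hG, fun t ht => ?_⟩, fun t => ?_⟩
  · obtain ⟨n, hn⟩ := h1 t ht
    refine ⟨n, fun t' h => ?_⟩
    rw [lp.coeFn_smul, Pi.smul_apply, Pi.smul_apply, hn t' h]
  · obtain ⟨n, hn⟩ := h2 t
    refine ⟨n, fun t' hne h ho => ?_⟩
    rw [lp.coeFn_smul, Pi.smul_apply, Pi.smul_apply, hn t' hne h ho]

lemma prp_zero : Prp (0 : LT) := by
  refine ⟨⟨∅, Set.finite_empty, fun t _ => ⟨0, fun t' _ => rfl⟩⟩, fun t => ⟨0, fun t' _ _ _ => rfl⟩⟩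

lemma prp_span {A : Set T} {y : LT} (hy : y ∈ Submodule.span ℝ (range cylE ∪ gE '' A)) :
    Prp y := by
  induction hy using Submodule.span_induction with
  | mem x hx =>
    rcases hx with ⟨c, rfl⟩ | ⟨a, _, rfl⟩
    · exact prp_cyl c
    · exact prp_g a
  | zero => exact prp_zero
  | add x y _ _ hx hy => exact prp_add hx hy
  | smul c x _ hx => exact prp_smul c hx

/-- flip the coordinate `N` -/
def flip (t : T) (N : ℕ) : T := Function.update t N (!(t N))

lemma flip_at (t : T) (N : ℕ) : flip t N N = !(t N) := by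
  unfold flip; rw [Function.update_self]

lemma flip_ne {t : T} {N i : ℕ} (h : i ≠ N) : flip t N i = t i := by
  unfold flip; rw [Function.update_of_ne h]

lemma flip_ne_self (t : T) (N : ℕ) : flip t N ≠ t := by
  intro h
  have := congrFun h N
  rw [flip_at] at this
  cases h2 : t N <;> simp [h2] at this

lemma firstDiff_flip (t : T) (N : ℕ) : PiNat.firstDiff t (flip t N) = N := by
  have hne : t ≠ flip t N := (flip_ne_self t N).symm
  by_contra hcon
  exact PiNat.apply_firstDiff_ne hne (flip_ne hcon).symm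

lemma flip_inj (t : T) : Function.Injective (flip t) := by
  intro N N' h
  rw [← firstDiff_flip t N, ← firstDiff_flip t N', h]

/-- a good point near `t` outside a finite set -/
lemma exists_good {y : LT} (hy : Prp y) (t : T) (ℓ : ℕ) :
    ∃ t0 : T, (∀ i < ℓ, t0 i = t i) ∧ (y : LT) t0 = (y : LT) t ∧
      ∃ n : ℕ, ∀ t' : T, (∀ i < n, t' i = t0 i) → (y : LT) t' = (y : LT) t0 := by
  obtain ⟨⟨G, hG, h1⟩, h2⟩ := hy
  obtain ⟨n, hn⟩ := h2 t
  have hinj : Function.Injective fun k : ℕ => flip t (2 * (k + max n ℓ) + 1) := by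
    intro k k' h
    have := flip_inj t h
    omega
  obtain ⟨k, hk⟩ : ∃ k : ℕ, flip t (2 * (k + max n ℓ) + 1) ∉ G := by
    by_contra hcon
    push Not at hcon
    have h3 : (Set.range fun k : ℕ => flip t (2 * (k + max n ℓ) + 1)) ⊆ G := by
      rintro _ ⟨k, rfl⟩
      exact hcon k
    exact Set.infinite_range_of_injective hinj (hG.subset h3)
  have hn1 : n ≤ max n ℓ := le_max_left _ _
  have hl1 : ℓ ≤ max n ℓ := le_max_right _ _
  refine ⟨_, fun i hi => flip_ne (by omega), ?_, h1 _ hk⟩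
  refine hn _ (flip_ne_self _ _) (fun i hi => flip_ne (by omega)) ?_
  rw [firstDiff_flip, Nat.not_even_iff_odd]
  exact ⟨_, rfl⟩

lemma norm_cylE_le (c : Nd) : ‖cylE c‖ ≤ 1 := by
  apply lp.norm_le_of_forall_le zero_le_one
  intro t
  rw [Real.norm_eq_abs]
  exact cylF_le c t

lemma abs_sub_le (x y : LT) (t : T) : |x t - y t| ≤ ‖x - y‖ := by
  have h := lp.norm_apply_le_norm ENNReal.top_ne_zero (x - y) t
  rwa [lp.coeFn_sub, Pi.sub_apply, Real.norm_eq_abs] at h

lemma cylE_mem (A : Set T) (c : Nd) : cylE c ∈ XA A := by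
  unfold XA
  exact Submodule.le_topologicalClosure _ (Submodule.subset_span (Or.inl ⟨c, rfl⟩))

lemma cyl_one {τ t : T} {n : ℕ} (h : ∀ i < n, t i = τ i) : (cylE (res τ n) : LT) t = 1 := by
  rw [cylE_apply]
  unfold cylF
  have : res t (res τ n).1 = res τ n := res_eq h
  rw [if_pos this]

lemma cyl_zero {τ t : T} {n : ℕ} (h : ¬ ∀ i < n, t i = τ i) : (cylE (res τ n) : LT) t = 0 := by
  rw [cylE_apply]
  unfold cylF
  rw [if_neg]
  intro h1
  apply h
  intro i hi
  have h2 : (⟨n, fun i => t i⟩ : Nd) = ⟨n, fun i => τ i⟩ := h1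
  have h3 := congrFun (eq_of_heq (Sigma.mk.inj h2).2) ⟨i, hi⟩
  exact h3

theorem task19 : Pool.Agent.H911R3.MS.Task19 := by
  intro A O τ ℓ hO hOne hDom η hη
  obtain ⟨y0, hy0⟩ := hOne
  obtain ⟨r, hr, hball⟩ := Metric.isOpen_iff.mp hO y0 hy0
  have hcl : (y0 : LT) ∈ closure ((Submodule.span ℝ (range cylE ∪ gE '' A) : Submodule ℝ LT) :
      Set LT) := y0.2
  obtain ⟨y1, hy1, hd⟩ := Metric.mem_closure_iff.mp hcl (r / 4) (by positivity)
  have hy1m : y1 ∈ XA A := by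
    unfold XA
    exact Submodule.le_topologicalClosure _ hy1
  have hd1 : dist (⟨y1, hy1m⟩ : XA A) y0 < r / 4 := by
    rw [dist_comm]
    exact hd
  have hy1O : (⟨y1, hy1m⟩ : XA A) ∈ O := hball (by
    rw [Metric.mem_ball]; linarith)
  have hP := prp_span hy1
  obtain ⟨θ, hθ0, hθr, hθη⟩ : ∃ θ : ℝ, 0 < θ ∧ θ ≤ r / 16 ∧ θ ≤ η / 2 :=
    ⟨min (r / 16) (η / 2), by positivity, min_le_left _ _, min_le_right _ _⟩
  -- the supremum
  have hbdd : BddAbove (Set.range fun t : T => y1 t) := by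
    refine ⟨‖y1‖, ?_⟩
    rintro _ ⟨t, rfl⟩
    have := lp.norm_apply_le_norm ENNReal.top_ne_zero y1 t
    rw [Real.norm_eq_abs] at this
    exact (le_abs_self _).trans this
  set M : ℝ := ⨆ t : T, y1 t with hM
  have hle : ∀ t : T, y1 t ≤ M := fun t => le_ciSup hbdd t
  obtain ⟨t1, ht1⟩ : ∃ t : T, M - θ / 2 < y1 t := by
    apply exists_lt_of_lt_ciSup
    linarith
  obtain ⟨t2, ht2, ht2'⟩ := hDom _ hy1O t1 (θ / 2) (by positivity)
  have ht2'' : M - θ < y1 t2 := by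
    have h5 : y1 t1 ≤ y1 t2 + θ / 2 := ht2'
    linarith
  obtain ⟨t0, h01, h02, n, hn⟩ := exists_good hP t2 ℓ
  have h03 : M - θ < y1 t0 := by rw [h02]; exact ht2''
  set ℓ1 : ℕ := max n ℓ with hℓ1
  have hn1 : n ≤ ℓ1 := le_max_left _ _
  have hl1 : ℓ ≤ ℓ1 := le_max_right _ _
  -- the data
  let τ' : Bool → T := fun β => Function.update t0 ℓ1 β
  have hτ' : ∀ β i, i < ℓ1 → τ' β i = t0 i := by
    intro β i hi
    exact Function.update_of_ne (by omega) _ _
  have hτ1 : ∀ β, τ' β ℓ1 = β := fun β => Function.update_self _ _ _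
  have hconst : ∀ β, ∀ t : T, (∀ i < ℓ1 + 1, t i = τ' β i) → y1 t = y1 t0 := by
    intro β t h
    apply hn
    intro i hi
    rw [h i (by omega), hτ' β i (by omega)]
  let e : Bool → XA A := fun β => ⟨cylE (res (τ' β) (ℓ1 + 1)), cylE_mem A _⟩
  have hpt : ∀ β, ∀ y ∈ Metric.ball ((⟨y1, hy1m⟩ : XA A) + (3 * θ) • e β) θ, ∀ t : T,
      |(y : LT) t - (y1 t + 3 * θ * (cylE (res (τ' β) (ℓ1 + 1)) : LT) t)| < θ := by
    intro β y hy t
    rw [Metric.mem_ball, dist_eq_norm] at hy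
    refine lt_of_le_of_lt ?_ hy
    exact abs_sub_le (y : LT) (y1 + (3 * θ) • cylE (res (τ' β) (ℓ1 + 1))) t
  refine ⟨fun β => Metric.ball ((⟨y1, hy1m⟩ : XA A) + (3 * θ) • e β) θ, τ', ℓ1 + 1, by omega,
    ⟨ℓ1, by omega, by rw [hτ1, hτ1]; decide⟩, fun β => ⟨?_, ?_, Metric.isOpen_ball,
      ⟨_, Metric.mem_ball_self hθ0⟩, ?_, ?_⟩⟩
  · intro i hi
    rw [hτ' β i (by omega), h01 i hi, ht2 i hi]
  · intro y hy
    apply hball
    rw [Metric.mem_ball] at hy ⊢
    have h6 : dist ((⟨y1, hy1m⟩ : XA A) + (3 * θ) • e β) (⟨y1, hy1m⟩ : XA A) ≤ 3 * θ := by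
      rw [dist_eq_norm, add_sub_cancel_left, norm_smul, Real.norm_eq_abs,
        abs_of_pos (by positivity)]
      have h7 : ‖e β‖ ≤ 1 := norm_cylE_le _
      nlinarith
    have h8 := dist_triangle y ((⟨y1, hy1m⟩ : XA A) + (3 * θ) • e β) y0
    have h9 := dist_triangle ((⟨y1, hy1m⟩ : XA A) + (3 * θ) • e β) (⟨y1, hy1m⟩ : XA A) y0
    linarith
  · intro y hy t δ hδ
    by_cases ht : ∀ i < ℓ1 + 1, t i = τ' β i
    · exact ⟨t, ht, by linarith⟩
    · refine ⟨τ' β, fun i _ => rfl, ?_⟩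
      have h6 := hpt β y hy t
      have h7 := hpt β y hy (τ' β)
      rw [cyl_zero ht] at h6
      rw [cyl_one (fun i _ => rfl), hconst β (τ' β) (fun i _ => rfl)] at h7
      rw [abs_lt] at h6 h7
      have := hle t
      linarith [h6.2, h7.1]
  · intro y hy t t' ht ht'
    have h6 := hpt β y hy t
    have h7 := hpt β y hy t'
    rw [cyl_one ht, hconst β t ht] at h6
    rw [cyl_one ht', hconst β t' ht'] at h7
    rw [abs_lt] at h6 h7
    rw [abs_le]
    constructor <;> linarith [h6.1, h6.2, h7.1, h7.2]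

end Pool.Agent.H911R3.MS.T19
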