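import Pool.Agent.H911R3.MS.Stmts

/-! Task 20: the Cantor scheme in `X_A`. -/

set_option autoImplicit false

open Set Filter Topology

namespace Pool.Agent.H911R3.MS.T20

open Pool.Agent.H911R3.MS

/-- States of the scheme. -/
abbrev St (A : Set T) : Type :=
  {d : Set (XA A) × T × ℕ // IsOpen d.1 ∧ d.1.Nonempty ∧ Dom A d.1 d.2.1 d.2.2}

/-- `c` are good children of `d` at level `n`. -/
structure Child {A : Set T} (U : Set (XA A)) (η : ℝ) (d : St A) (c : Bool → St A) : Prop where
  sub : ∀ β, closure (c β).1.1 ⊆ d.1.1 ∩ U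
  bdd : ∀ β, Bornology.IsBounded (closure (c β).1.1)
  diam : ∀ β, Metric.diam (closure (c β).1.1) ≤ 2 * η
  lt : ∀ β, d.1.2.2 < (c β).1.2.2
  eq : ∀ β, (c β).1.2.2 = (c false).1.2.2
  ne : ∃ i < (c false).1.2.2, (c false).1.2.1 i ≠ (c true).1.2.1 i
  ext : ∀ β, ∀ i < d.1.2.2, (c β).1.2.1 i = d.1.2.1 i
  osc : ∀ β, Osc A (c β).1.1 (c β).1.2.1 (c β).1.2.2 η

theorem exists_child (hS : StStepN) {A : Set T} (U : Set (XA A)) (hU : IsOpen U) (hd : Dense U)
    (η : ℝ) (hη : 0 < η) (d : St A) : ∃ c : Bool → St A, Child U η d c := by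
  obtain ⟨⟨O, τ, ℓ⟩, hO, hne, hD⟩ := d
  simp only at hO hne hD
  have h1 : (O ∩ U).Nonempty := hd.inter_open_nonempty O hO hne
  obtain ⟨y, hy⟩ := h1
  obtain ⟨r, hr, hball⟩ := Metric.isOpen_iff.1 (hO.inter hU) y hy
  set ρ := min (r / 2) η with hρ
  have hρ0 : 0 < ρ := lt_min (by linarith) hη
  have hcb : Metric.closedBall y ρ ⊆ O ∩ U := by
    refine (Metric.closedBall_subset_ball ?_).trans hball
    have : ρ ≤ r / 2 := min_le_left _ _
    linarith
  have hbsub : Metric.ball y ρ ⊆ O := fun z hz => (hcb (Metric.ball_subset_closedBall hz)).1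
  have hD' : Dom A (Metric.ball y ρ) τ ℓ := fun z hz => hD z (hbsub hz)
  obtain ⟨O', τ', ℓ', hlt, hne', hβ⟩ := hS A (Metric.ball y ρ) τ ℓ Metric.isOpen_ball
    ⟨y, Metric.mem_ball_self hρ0⟩ hD' η hη
  have hcl : ∀ β, closure (O' β) ⊆ Metric.closedBall y ρ := fun β =>
    (closure_mono (hβ β).2.1).trans Metric.closure_ball_subset_closedBall
  refine ⟨fun β => ⟨(O' β, τ' β, ℓ'), (hβ β).2.2.1, (hβ β).2.2.2.1, (hβ β).2.2.2.2.1⟩, ?_, ?_, ?_,
    ?_, ?_, ?_, ?_, ?_⟩
  · exact fun β => (hcl β).trans hcb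
  · exact fun β => Metric.isBounded_closedBall.subset (hcl β)
  · intro β
    refine (Metric.diam_mono (hcl β) Metric.isBounded_closedBall).trans ?_
    refine (Metric.diam_closedBall hρ0.le).trans ?_
    have : ρ ≤ η := min_le_right _ _
    linarith
  · exact fun β => hlt
  · exact fun β => rfl
  · exact hne'
  · exact fun β => (hβ β).1
  · exact fun β => (hβ β).2.2.2.2.2

/-- The state along a branch. -/
def run {X : Type} (d₀ : X) (step : ℕ → X → Bool → X) (b : T) : ℕ → X
  | 0 => d₀
  | n + 1 => step n (run d₀ step b n) (b n)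

theorem run_congr {X : Type} (d₀ : X) (step : ℕ → X → Bool → X) {b b' : T} (n : ℕ)
    (h : ∀ i < n, b i = b' i) : run d₀ step b n = run d₀ step b' n := by
  induction n with
  | zero => rfl
  | succ n ih =>
    show step n (run d₀ step b n) (b n) = step n (run d₀ step b' n) (b' n)
    rw [ih (fun i hi => h i (by omega)), h n (by omega)]

/-- extension of a word by zeros -/
def ext0 {n : ℕ} (s : Fin n → Bool) : T := fun i => if h : i < n then s ⟨i, h⟩ else false

theorem ext0_res (b : T) (n : ℕ) (i : ℕ) (hi : i < n) : ext0 (res b n).2 i = b i := by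
  unfold ext0
  have h : i < (res b n).1 := hi
  rw [dif_pos h]
  rfl

theorem task20 : Task20 := by
  intro hS A Un hop hde
  have hstep : ∀ (n : ℕ) (d : St A), ∃ c : Bool → St A, Child (Un n) (1 / ((n : ℝ) + 1)) d c :=
    fun n d => exists_child hS (Un n) (hop n) (hde n) _ (by positivity) d
  choose step hst using hstep
  have hd0 : Dom A (univ : Set (XA A)) (fun _ => false) 0 := by
    intro y _ t δ hδ
    exact ⟨t, fun i hi => absurd hi (Nat.not_lt_zero i), by linarith⟩
  let d₀ : St A := ⟨(univ, (fun _ => false), 0), isOpen_univ, ⟨0, mem_univ _⟩, hd0⟩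
  let D : T → ℕ → St A := fun b n => run d₀ step b n
  have hDs : ∀ b n, D b (n + 1) = step n (D b n) (b n) := fun b n => rfl
  have hcong : ∀ (b b' : T) (n : ℕ), (∀ i < n, b i = b' i) → D b n = D b' n :=
    fun b b' n h => run_congr d₀ step n h
  -- growth of the length
  have hgrow : ∀ (b : T) (n : ℕ), n ≤ (D b n).1.2.2 := by
    intro b n
    induction n with
    | zero => exact Nat.zero_le _
    | succ n ih =>
      have := (hst n (D b n)).lt (b n)
      rw [hDs]
      omega
  have hmonoℓ : ∀ (b : T) (n m : ℕ), n ≤ m → (D b n).1.2.2 ≤ (D b m).1.2.2 := by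
    intro b n m h
    induction m, h using Nat.le_induction with
    | base => exact le_rfl
    | succ m _ ih =>
      have := (hst m (D b m)).lt (b m)
      rw [hDs]
      omega
  have hagree : ∀ (b : T) (n m : ℕ), n ≤ m → ∀ i < (D b n).1.2.2,
      (D b m).1.2.1 i = (D b n).1.2.1 i := by
    intro b n m h
    induction m, h using Nat.le_induction with
    | base => intro i _; rfl
    | succ m hm ih =>
      intro i hi
      have h1 := (hst m (D b m)).ext (b m) i (lt_of_lt_of_le hi (hmonoℓ b n m hm))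
      rw [hDs, h1, ih i hi]
  let κ : Nd → Bool := fun s => (D (ext0 s.2) s.1).1.2.1 (s.1 - 1)
  have hbr : ∀ (b : T) (i : ℕ), br κ b i = (D b (i + 1)).1.2.1 i := by
    intro b i
    show (D (ext0 (res b (i + 1)).2) (i + 1)).1.2.1 (i + 1 - 1) = _
    rw [hcong (ext0 (res b (i + 1)).2) b (i + 1) (fun k hk => ext0_res b (i + 1) k hk)]
    rfl
  have hbr2 : ∀ (b : T) (n i : ℕ), i < (D b n).1.2.2 → br κ b i = (D b n).1.2.1 i := by
    intro b n i hi
    rw [hbr]
    rcases le_total n (i + 1) with h | h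
    · exact hagree b n (i + 1) h i hi
    · exact (hagree b (i + 1) n h i (lt_of_lt_of_le (Nat.lt_succ_self i) (hgrow b (i + 1)))).symm
  refine ⟨κ, ?_, ?_⟩
  · -- injectivity
    intro b b' h
    by_contra hne
    have hex : ∃ n, b n ≠ b' n := by
      by_contra hcon
      push Not at hcon
      exact hne (funext hcon)
    classical
    set n := Nat.find hex with hn
    have hn1 : b n ≠ b' n := Nat.find_spec hex
    have hn2 : ∀ i < n, b i = b' i := fun i hi => by
      by_contra hc
      exact Nat.find_min hex hi hc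
    have hDn := hcong b b' n hn2
    have hC := hst n (D b n)
    obtain ⟨i, hi, hτ⟩ := hC.ne
    have e1 : br κ b i = (step n (D b n) (b n)).1.2.1 i := by
      rw [hbr2 b (n + 1) i (by rw [hDs, hC.eq]; exact hi), hDs]
    have e2 : br κ b' i = (step n (D b n) (b' n)).1.2.1 i := by
      rw [hbr2 b' (n + 1) i (by rw [hDs, ← hDn, hC.eq]; exact hi), hDs, ← hDn]
    have e3 : br κ b i = br κ b' i := by rw [h]
    rw [e1, e2] at e3
    rcases hb : b n with _ | _ <;> rcases hb' : b' n with _ | _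
    · exact hn1 (by rw [hb, hb'])
    · rw [hb, hb'] at e3; exact hτ e3
    · rw [hb, hb'] at e3; exact hτ e3.symm
    · exact hn1 (by rw [hb, hb'])
  · intro b
    have hclos : ∀ n, closure (D b (n + 1)).1.1 ⊆ (D b n).1.1 ∩ Un n :=
      fun n => (hst n (D b n)).sub (b n)
    have hnest : ∀ n m, n ≤ m → closure (D b (m + 1)).1.1 ⊆ closure (D b (n + 1)).1.1 := by
      intro n m h
      induction m, h using Nat.le_induction with
      | base => exact subset_rfl
      | succ m _ ih =>
        refine Subset.trans ?_ ih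
        exact fun z hz => subset_closure (hclos (m + 1) hz).1
    obtain ⟨x, hx⟩ : (⋂ n, closure (D b (n + 1)).1.1).Nonempty := by
      refine Metric.nonempty_iInter_of_nonempty_biInter (fun n => isClosed_closure)
        (fun n => (hst n (D b n)).bdd (b n)) (fun N => ?_) ?_
      · obtain ⟨z, hz⟩ := (D b (N + 1)).2.2.1
        refine ⟨z, ?_⟩
        simp only [mem_iInter]
        exact fun n hn => hnest n N hn (subset_closure hz)
      · refine squeeze_zero (fun n => Metric.diam_nonneg) (fun n => (hst n (D b n)).diam (b n)) ?_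
        have := (tendsto_one_div_add_atTop_nhds_zero_nat (𝕜 := ℝ)).const_mul 2
        simpa using this
    rw [mem_iInter] at hx
    have hxO : ∀ n, x ∈ (D b n).1.1 := fun n => (hclos n (hx n)).1
    have hosc : ∀ n, Osc A (D b (n + 1)).1.1 (D b (n + 1)).1.2.1 (D b (n + 1)).1.2.2
        (1 / ((n : ℝ) + 1)) := fun n => (hst n (D b n)).osc (b n)
    have hlast : ∀ η : ℝ, 0 < η → ∃ ℓ : ℕ, ∀ t : T, (∀ i < ℓ, t i = br κ b i) →
        |(x : LT) t - (x : LT) (br κ b)| ≤ η := by
      intro η hη
      obtain ⟨n, hn⟩ := exists_nat_one_div_lt hη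
      refine ⟨(D b (n + 1)).1.2.2, fun t ht => ?_⟩
      refine le_trans (hosc n x (hxO (n + 1)) t (br κ b) (fun i hi => ?_) (fun i hi => ?_)) hn.le
      · rw [ht i hi]; exact hbr2 b (n + 1) i hi
      · exact hbr2 b (n + 1) i hi
    refine ⟨x, fun n => (hclos n (hx n)).2, fun t => ?_, hlast⟩
    apply le_of_forall_pos_le_add
    intro η hη
    obtain ⟨n, hn⟩ := exists_nat_one_div_lt (half_pos hη)
    obtain ⟨t', ht', hle⟩ := (D b (n + 1)).2.2.2 x (hxO (n + 1)) t (η / 2) (half_pos hη)
    have h1 := hosc n x (hxO (n + 1)) t' (br κ b) ht' (fun i hi => hbr2 b (n + 1) i hi)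
    have h2 := (abs_le.1 h1).2
    linarith

end Pool.Agent.H911R3.MS.T20
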