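import Pool.Agent.H911R3.MS.Stmts

/-! Task21 of the project H911-MS: `XA A` is not weak Asplund when `A` meets all coded perfect
sets. -/

set_option autoImplicit false

open Set Filter Topology

namespace Pool.Agent.H911R3.MS.T21

open Pool.Agent.H911R3.MS

/-- the supremum of a bounded function -/
noncomputable def ff (A : Set T) (y : XA A) : ℝ := ⨆ t : T, (y : LT) t

theorem bdd {A : Set T} (y : XA A) : BddAbove (range fun t : T => (y : LT) t) := by
  refine ⟨‖(y : LT)‖, ?_⟩
  rintro _ ⟨t, rfl⟩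
  exact (le_abs_self _).trans (lp.norm_apply_le_norm ENNReal.top_ne_zero (y : LT) t)

theorem le_ff {A : Set T} (y : XA A) (t : T) : (y : LT) t ≤ ff A y := le_ciSup (bdd y) t

theorem ff_le {A : Set T} (y : XA A) {c : ℝ} (h : ∀ t : T, (y : LT) t ≤ c) : ff A y ≤ c :=
  ciSup_le h

theorem ff_lip {A : Set T} : LipschitzWith 1 (ff A) := by
  apply LipschitzWith.of_le_add
  intro x y
  apply ff_le
  intro t
  have h1 : (x : LT) t - (y : LT) t ≤ dist x y := by
    have h2 := lp.norm_apply_le_norm ENNReal.top_ne_zero ((x : LT) - (y : LT)) t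
    have h3 : dist x y = ‖(x : LT) - (y : LT)‖ := by
      rw [Subtype.dist_eq, dist_eq_norm]
    rw [h3]
    refine le_trans ?_ h2
    rw [lp.coeFn_sub, Pi.sub_apply]
    exact le_abs_self _
  have h4 := le_ff y t
  linarith

theorem ff_conv {A : Set T} : ConvexOn ℝ univ (ff A) := by
  refine ⟨convex_univ, ?_⟩
  intro x _ y _ a b ha hb _
  apply ff_le
  intro t
  have h1 : ((a • x + b • y : XA A) : LT) t = a * (x : LT) t + b * (y : LT) t := by
    simp [lp.coeFn_add, lp.coeFn_smul]
  rw [h1]
  have h2 := mul_le_mul_of_nonneg_left (le_ff x t) ha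
  have h3 := mul_le_mul_of_nonneg_left (le_ff y t) hb
  simp only [smul_eq_mul]
  linarith

theorem task21 : Pool.Agent.H911R3.MS.Task21 := by
  intro hF A hPM hWA
  obtain ⟨G, -, hGd, hGc, hG⟩ := hWA univ isOpen_univ univ_nonempty convex_univ (ff A)
    (ff_lip.continuous.continuousOn) ff_conv
  obtain ⟨Un, hUo, hUn⟩ := isGδ_iff_eq_iInter_nat.1 hGd
  have hGdense : Dense G := by
    intro x
    exact hGc (mem_univ x)
  have hUd : ∀ n, Dense (Un n) := by
    intro n
    refine hGdense.mono ?_
    rw [hUn]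
    exact iInter_subset _ n
  obtain ⟨κ, hκ, hx⟩ := hF A Un hUo hUd
  obtain ⟨b, hb⟩ := hPM κ hκ
  obtain ⟨x, hxU, hmax, hcont⟩ := hx b
  set a : T := br κ b with ha
  have hxG : x ∈ G := by
    rw [hUn]
    exact mem_iInter.2 hxU
  obtain ⟨φ, hφ⟩ := hG x hxG
  have hfx : ff A x = (x : LT) a := le_antisymm (ff_le x hmax) (le_ff x a)
  have hmem : gE a ∈ XA A := by
    unfold XA
    exact Submodule.le_topologicalClosure _ (Submodule.subset_span (Or.inr ⟨a, hb, rfl⟩))
  set h : XA A := ⟨gE a, hmem⟩ with hh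
  have hval : ∀ (s : ℝ) (t : T), ((x + s • h : XA A) : LT) t = (x : LT) t + s * gF a t := by
    intro s t
    simp [hh, lp.coeFn_add, lp.coeFn_smul]
  have hup : ∀ s : ℝ, 0 < s → ff A x + s ≤ ff A (x + s • h) := by
    intro s hs
    apply le_of_forall_pos_le_add
    intro η hη
    obtain ⟨ℓ, hℓ⟩ := hcont η hη
    set t : T := Function.update a (2 * ℓ) (!a (2 * ℓ)) with ht
    have hne : a ≠ t := by
      intro he
      have := congrFun he (2 * ℓ)
      rw [ht, Function.update_self] at this
      cases h1 : a (2 * ℓ) <;> simp [h1] at this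
    have hagree : ∀ i < ℓ, t i = a i := by
      intro i hi
      rw [ht, Function.update_of_ne (by omega)]
    have hfd : PiNat.firstDiff a t = 2 * ℓ := by
      by_contra hcon
      have h1 := PiNat.apply_firstDiff_ne hne
      apply h1
      rw [ht, Function.update_of_ne]
      exact hcon
    have hg : gF a t = 1 := by
      unfold gF
      rw [if_pos]
      exact ⟨hne.symm, by rw [hfd]; exact even_two_mul ℓ⟩
    have h1 := le_ff (x + s • h) t
    rw [hval s t, hg] at h1
    have h2 := hℓ t hagree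
    rw [abs_le] at h2
    rw [hfx]
    linarith [h2.1]
  have hdown : ∀ s : ℝ, ff A x ≤ ff A (x + s • h) := by
    intro s
    have h1 := le_ff (x + s • h) a
    have h2 : gF a a = 0 := by
      unfold gF
      rw [if_neg]
      rintro ⟨h3, -⟩
      exact h3 rfl
    rw [hval s a, h2] at h1
    rw [hfx]
    linarith
  have hlim := hφ h
  have h1 : (1 : ℝ) ≤ φ h := by
    have h2 : Tendsto (fun t : ℝ => (ff A (x + t • h) - ff A x) / t) (𝓝[>] 0) (𝓝 (φ h)) :=
      hlim.mono_left (nhdsWithin_mono _ fun t (ht : 0 < t) => ht.ne')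
    refine ge_of_tendsto h2 ?_
    filter_upwards [self_mem_nhdsWithin] with t ht
    rw [le_div_iff₀ ht]
    have := hup t ht
    linarith
  have h0 : φ h ≤ 0 := by
    have h2 : Tendsto (fun t : ℝ => (ff A (x + t • h) - ff A x) / t) (𝓝[<] 0) (𝓝 (φ h)) :=
      hlim.mono_left (nhdsWithin_mono _ fun t (ht : t < 0) => ht.ne)
    refine le_of_tendsto h2 ?_
    filter_upwards [self_mem_nhdsWithin] with t ht
    exact div_nonpos_of_nonneg_of_nonpos (by linarith [hdown t]) (le_of_lt ht)
  linarith

end Pool.Agent.H911R3.MS.T21
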