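import Pool.Agent.H911R3.MS.Stmts

set_option autoImplicit false

/-!
# MP_17c4bf_an, Q2: Task22, dense sets in a meagre metric space contain dense `Gδ` sets.
-/

open Set Filter Topology

namespace Pool.Agent.H911R3.MS.T22

/-- maximal separated subsets -/
theorem exists_max {Y : Type} [MetricSpace Y] (B : Set Y) (ε : ℝ) (hε : 0 < ε) :
    ∃ A : Set Y, A ⊆ B ∧ A.Pairwise (fun x y => ε ≤ dist x y) ∧
      ∀ p ∈ B, ∃ a ∈ A, dist a p < ε := by
  obtain ⟨A, hA⟩ := zorn_subset {A : Set Y | A ⊆ B ∧ A.Pairwise (fun x y => ε ≤ dist x y)} (by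
    intro c hc hchain
    refine ⟨⋃₀ c, ⟨?_, ?_⟩, fun s hs => subset_sUnion_of_mem hs⟩
    · exact sUnion_subset fun s hs => (hc hs).1
    · rw [Set.pairwise_sUnion hchain.directedOn]
      exact fun s hs => (hc hs).2)
  refine ⟨A, hA.1.1, hA.1.2, ?_⟩
  intro p hp
  by_contra hcon
  push Not at hcon
  have hmem : insert p A ∈ {A : Set Y | A ⊆ B ∧ A.Pairwise (fun x y => ε ≤ dist x y)} := by
    refine ⟨insert_subset hp hA.1.1, ?_⟩
    rw [Set.pairwise_insert]
    refine ⟨hA.1.2, fun b hb _ => ⟨?_, hcon b hb⟩⟩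
    rw [dist_comm]
    exact hcon b hb
  have hpA : p ∈ A := hA.2 hmem (subset_insert p A) (mem_insert p A)
  have := hcon p hpA
  rw [dist_self] at this
  linarith

theorem task22 : Pool.Agent.H911R3.MS.Task22 := by
  intro Y _ M hMc hMi hMm hMu D P hD hPD hDP
  have hpos : ∀ n : ℕ, (0 : ℝ) < 1 / ((n : ℝ) + 1) := fun n => by positivity
  choose A hA1 hA2 hA3 using fun n : ℕ => exists_max (P \ M n) (1 / ((n : ℝ) + 1)) (hpos n)
  have hAc : ∀ n, IsClosed (A n) := fun n => Metric.isClosed_of_pairwise_le_dist (hpos n) (hA2 n)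
  have hG : (⋃ n, A n) = ⋂ n, ((M n)ᶜ ∪ ⋃ m ∈ Finset.range (n + 1), A m) := by
    ext y
    constructor
    · intro hy
      obtain ⟨k, hk⟩ := mem_iUnion.mp hy
      refine mem_iInter.mpr fun n => ?_
      rcases le_or_gt k n with hkn | hkn
      · right
        simp only [mem_iUnion]
        exact ⟨k, Finset.mem_range.mpr (by omega), hk⟩
      · left
        intro hyn
        exact (hA1 k hk).2 (hMm hkn.le hyn)
    · intro hy
      have hyU : y ∈ ⋃ n, M n := by rw [hMu]; trivial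
      obtain ⟨N, hN⟩ := mem_iUnion.mp hyU
      rcases mem_iInter.mp hy N with h | h
      · exact absurd hN h
      · simp only [mem_iUnion] at h
        obtain ⟨m, _, hm⟩ := h
        exact mem_iUnion.mpr ⟨m, hm⟩
  refine ⟨⋃ n, A n, ?_, ?_, ?_⟩
  · exact iUnion_subset fun n => (hA1 n).trans sdiff_subset
  · rw [hG]
    refine IsGδ.iInter fun n => ?_
    refine IsGδ.union (hMc n).isOpen_compl.isGδ (IsClosed.isGδ ?_)
    exact isClosed_biUnion_finset fun m _ => hAc m
  · intro x hx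
    rw [Metric.mem_closure_iff]
    intro e he
    obtain ⟨n, hn⟩ := exists_nat_one_div_lt (half_pos he)
    have hO : IsOpen (Metric.ball x (e / 2) ∩ D) := Metric.isOpen_ball.inter hD
    have hxO : x ∈ Metric.ball x (e / 2) ∩ D := ⟨Metric.mem_ball_self (half_pos he), hx⟩
    have hnot : ¬ (Metric.ball x (e / 2) ∩ D ⊆ M n) := by
      intro hsub
      have := interior_maximal hsub hO hxO
      rw [hMi n] at this
      exact this
    obtain ⟨z, hz, hzM⟩ := not_subset.mp hnot
    have hzP : z ∈ closure P := hDP hz.2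
    obtain ⟨p, hp1, hp2⟩ := mem_closure_iff.mp hzP
      ((Metric.ball x (e / 2) ∩ D) ∩ (M n)ᶜ) (hO.inter (hMc n).isOpen_compl) ⟨hz, hzM⟩
    obtain ⟨a, ha1, ha2⟩ := hA3 n p ⟨hp2, hp1.2⟩
    refine ⟨a, mem_iUnion.mpr ⟨n, ha1⟩, ?_⟩
    have h1 : dist p x < e / 2 := Metric.mem_ball.mp hp1.1.1
    have h2 := dist_triangle x p a
    rw [dist_comm x p, dist_comm p a] at h2
    linarith

end Pool.Agent.H911R3.MS.T22
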