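import Mathlib
import Pool.Agent.H911R3.MS.Stmts

/-! Task23 of project H911-MS (helper911), by helper471. -/

set_option autoImplicit false

open Set Filter Topology

namespace Pool.Agent.H911R3.MS.T23

open Pool.Agent.H911R3.MS

theorem summ (x : Z1) : Summable fun n => |x n| := by
  have h := (memℓp_gen_iff (p := 1) (by simp)).1 (lp.memℓp x)
  simpa using h

theorem sep : TopologicalSpace.SeparableSpace Z1 := by
  have h1 : TopologicalSpace.IsSeparable
      (Submodule.span ℝ (range fun i : ℕ => (lp.single 1 i (1 : ℝ) : Z1)) : Set Z1) :=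
    (countable_range _).isSeparable.span (R := ℝ)
  have h2 := h1.closure
  have h3 : closure (Submodule.span ℝ (range fun i : ℕ => (lp.single 1 i (1 : ℝ) : Z1)) : Set Z1) =
      univ := by
    rw [eq_univ_iff_forall]
    intro f
    have hs := lp.hasSum_single (p := 1) (by simp) f
    refine mem_closure_of_tendsto hs (Eventually.of_forall fun s => ?_)
    refine Submodule.sum_mem _ fun i _ => ?_
    have : (lp.single 1 i (f i) : Z1) = (f i) • (lp.single 1 i (1 : ℝ) : Z1) := by
      rw [← lp.single_smul]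
      simp
    rw [this]
    exact Submodule.smul_mem _ _ (Submodule.subset_span ⟨i, rfl⟩)
  rw [h3] at h2
  exact TopologicalSpace.isSeparable_univ_iff.1 h2

/-- an absolutely summable sequence as a bounded sequence -/
noncomputable def toTop (x : Z1) : lp (fun _ : ℕ => ℝ) ⊤ :=
  ⟨fun n => x n, Memℓp.of_exponent_ge (lp.memℓp x) le_top⟩

theorem toTop_apply (x : Z1) (n : ℕ) : (toTop x) n = x n := rfl

theorem toTop_mem (x : Z1) : toTop x ∈ F1 := summ x

/-- the linear map -/
noncomputable def Jl : Z1 →ₗ[ℝ] F1 where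
  toFun x := ⟨toTop x, toTop_mem x⟩
  map_add' x y := by
    apply Subtype.ext
    apply lp.ext
    funext n
    rfl
  map_smul' c x := by
    apply Subtype.ext
    apply lp.ext
    funext n
    rfl

theorem Jl_bound (x : Z1) : ‖Jl x‖ ≤ 1 * ‖x‖ := by
  rw [one_mul]
  show ‖toTop x‖ ≤ ‖x‖
  refine lp.norm_le_of_forall_le (norm_nonneg _) fun n => ?_
  rw [toTop_apply]
  exact lp.norm_apply_le_norm one_ne_zero x n

theorem task23 : Task23 := by
  refine ⟨sep, Jl.mkContinuous 1 Jl_bound, ?_⟩
  rintro ⟨y, hy⟩
  have hy' : Summable fun n => |y n| := hy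
  have hm : Memℓp (fun n => y n) 1 := memℓp_gen (by simpa using hy')
  refine ⟨⟨fun n => y n, hm⟩, ?_⟩
  apply Subtype.ext
  apply lp.ext
  funext n
  rfl

end Pool.Agent.H911R3.MS.T23
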