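import Pool.Agent.H911R3.MS.Stmts

/-! Task 24: `F` is meagre. -/

set_option autoImplicit false

open Set Filter Topology

namespace Pool.Agent.H911R3.MS.T24

open Pool.Agent.H911R3.MS

/-- the `k`-th coordinate -/
def co (k : ℕ) (x : F1) : ℝ := (x : lp (fun _ : ℕ => ℝ) ⊤) k

theorem co_sub (k : ℕ) (x y : F1) : co k (x - y) = co k x - co k y := by
  unfold co
  simp

theorem abs_co_le (k : ℕ) (x : F1) : |co k x| ≤ ‖x‖ := by
  have h := lp.norm_apply_le_norm (E := fun _ : ℕ => ℝ) (p := ⊤) ENNReal.top_ne_zero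
    (x : lp (fun _ : ℕ => ℝ) ⊤) k
  rw [Real.norm_eq_abs] at h
  exact h

theorem continuous_co (k : ℕ) : Continuous (co k) := by
  refine LipschitzWith.continuous (K := 1) (LipschitzWith.of_dist_le_mul fun x y => ?_)
  rw [Real.dist_eq, dist_eq_norm, ← co_sub, NNReal.coe_one, one_mul]
  exact abs_co_le k _

/-- indicator function of `[0, N)` -/
noncomputable def ind (N : ℕ) : F1 := by
  refine ⟨⟨fun k => if k < N then (1 : ℝ) else 0, ?_⟩, ?_⟩
  · apply memℓp_infty
    refine ⟨1, ?_⟩
    rintro _ ⟨k, rfl⟩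
    dsimp only
    split_ifs <;> simp
  · show Summable fun k : ℕ => |if k < N then (1 : ℝ) else 0|
    apply summable_of_ne_finset_zero (s := Finset.range N)
    intro k hk
    rw [Finset.mem_range] at hk
    rw [if_neg hk, abs_zero]

theorem co_ind (N k : ℕ) : co k (ind N) = if k < N then (1 : ℝ) else 0 := rfl

theorem norm_ind (N : ℕ) : ‖ind N‖ ≤ 1 := by
  show ‖((ind N : F1) : lp (fun _ : ℕ => ℝ) ⊤)‖ ≤ 1
  refine lp.norm_le_of_forall_le zero_le_one fun k => ?_
  show ‖co k (ind N)‖ ≤ 1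
  rw [co_ind]
  split_ifs <;> simp

theorem task24 : Task24 := by
  refine ⟨fun n => {x : F1 | ∀ N : ℕ, ∑ k ∈ Finset.range N, |co k x| ≤ n}, ?_, ?_, ?_, ?_⟩
  · intro n
    show IsClosed {x : F1 | ∀ N : ℕ, ∑ k ∈ Finset.range N, |co k x| ≤ n}
    rw [show {x : F1 | ∀ N : ℕ, ∑ k ∈ Finset.range N, |co k x| ≤ n} =
      ⋂ N : ℕ, {x : F1 | ∑ k ∈ Finset.range N, |co k x| ≤ n} by ext x; simp]
    refine isClosed_iInter fun N => isClosed_le ?_ continuous_const
    exact continuous_finsetSum _ fun k _ => (continuous_co k).abs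
  · intro n
    rw [Set.eq_empty_iff_forall_notMem]
    intro x hx
    rw [mem_interior_iff_mem_nhds, Metric.mem_nhds_iff] at hx
    obtain ⟨ε, hε, hball⟩ := hx
    have hxK : ∀ N : ℕ, ∑ k ∈ Finset.range N, |co k x| ≤ n := hball (Metric.mem_ball_self hε)
    obtain ⟨N, hN⟩ := exists_nat_gt (4 * n / ε)
    have hy : x + (ε / 2) • ind N ∈ Metric.ball x ε := by
      rw [Metric.mem_ball, dist_eq_norm, add_sub_cancel_left, norm_smul, Real.norm_of_nonneg
        (by positivity)]
      have := norm_ind N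
      nlinarith
    have hyK := hball hy N
    have h1 : ∀ k ∈ Finset.range N, ε / 2 - |co k x| ≤ |co k (x + (ε / 2) • ind N)| := by
      intro k hk
      have h2 : co k (x + (ε / 2) • ind N) = co k x + ε / 2 := by
        have h3 : co k (x + (ε / 2) • ind N) = co k x + ε / 2 * co k (ind N) := by
          unfold co
          simp
        rw [h3, co_ind, if_pos (Finset.mem_range.1 hk), mul_one]
      rw [h2]
      have h4 := abs_sub_abs_le_abs_sub (ε / 2) (-co k x)
      rw [abs_neg, abs_of_pos (by positivity : (0 : ℝ) < ε / 2), sub_neg_eq_add, add_comm] at h4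
      linarith
    have h5 := Finset.sum_le_sum h1
    rw [Finset.sum_sub_distrib, Finset.sum_const, Finset.card_range, nsmul_eq_mul] at h5
    have h6 := hxK N
    rw [div_lt_iff₀ hε] at hN
    linarith
  · intro n m hnm x hx N
    exact (hx N).trans (by exact_mod_cast hnm)
  · rw [Set.eq_univ_iff_forall]
    intro x
    have hs : Summable fun k => |co k x| := x.2
    obtain ⟨n, hn⟩ := exists_nat_ge (∑' k, |co k x|)
    rw [Set.mem_iUnion]
    exact ⟨n, fun N => (hs.sum_le_tsum _ fun k _ => abs_nonneg _).trans hn⟩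

end Pool.Agent.H911R3.MS.T24
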